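import Mathlib

/-!
# Hilbert–Smith for Sobolev homeomorphisms: definitions
-/

set_option autoImplicit false

open Set MeasureTheory Metric Filter Topology
open scoped NNReal ENNReal

namespace Pool.Agent.Helper3.HS

/-- The set of `n`-regular points of a metric space `X`: the points that have an open neighbourhood
which is bi-Lipschitz homeomorphic to an open subset of `ℝⁿ`. -/
def regPts (n : ℕ) (X : Type*) [MetricSpace X] : Set X :=
  {x | ∃ (e : OpenPartialHomeomorph X (Fin n → ℝ)) (C : ℝ≥0), x ∈ e.source ∧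
    LipschitzOnWith C e e.source ∧ LipschitzOnWith C e.symm e.target}

/-- The map `f` is of Hajłasz–Sobolev class `M^{α,s}` near the point `x`, with respect to the
`n`-dimensional Hausdorff measure: there are a neighbourhood `W` of `x` and a measurable function
`ρ ≥ 0` with `∫_W ρ^s < ∞` and `d(f y, f z) ≤ d(y, z)^α (ρ y + ρ z)` for all `y, z` in `W`. -/
def HajlaszAt {X : Type*} [MetricSpace X] [MeasurableSpace X] [BorelSpace X] (n : ℕ) (α s : ℝ)
    (f : X → X) (x : X) : Prop :=
  ∃ W ∈ 𝓝 x, ∃ ρ : X → ℝ≥0∞, Measurable ρ ∧ ∫⁻ y in W, ρ y ^ s ∂(μH[n] : Measure X) < ∞ ∧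
    ∀ y ∈ W, ∀ z ∈ W, edist (f y) (f z) ≤ edist y z ^ α * (ρ y + ρ z)

end Pool.Agent.Helper3.HS
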