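import Pool.Agent.Helper3.HS.Slice

/-!
# Semicontinuity, averages, null slices and fibres
-/

set_option autoImplicit false
set_option linter.unusedSectionVars false
set_option linter.unusedVariables false

open Set MeasureTheory Metric Filter Topology
open scoped NNReal ENNReal Function

namespace Pool.Agent.Helper3.HS

variable {d : ℕ}

theorem continuous_slc' (i : Fin (d + 1)) {A : Type*} [TopologicalSpace A] {t : A → ℝ}
    {w : A → (Fin d → ℝ)} (ht : Continuous t) (hw : Continuous w) :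
    Continuous (fun a => slc i (t a) (w a)) :=
  (continuous_slc i).comp (ht.prodMk hw)

theorem lsc_cellDiam {A : Type*} [TopologicalSpace A]
    {Γ : A → (Fin (d + 1) → ℝ) → (Fin (d + 1) → ℝ)}
    (hΓ : Continuous (fun q : A × (Fin (d + 1) → ℝ) => Γ q.1 q.2)) (u₀ : Fin (d + 1) → ℝ) (r : ℝ)
    (N : ℕ) (i : Fin (d + 1)) (c : Fin d → ℕ) :
    LowerSemicontinuous (fun q : A × ℝ => cellDiam (Γ q.1) u₀ r N i q.2 c) := by
  have h1 : (fun q : A × ℝ => cellDiam (Γ q.1) u₀ r N i q.2 c) = fun q : A × ℝ =>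
      ⨆ w : cell (corner u₀ r i) (2 * r / N) c, ⨆ w' : cell (corner u₀ r i) (2 * r / N) c,
        edist (Γ q.1 (slc i q.2 w)) (Γ q.1 (slc i q.2 w')) := by
    funext q
    apply le_antisymm
    · apply Metric.ediam_le
      rintro _ ⟨w, hw, rfl⟩ _ ⟨w', hw', rfl⟩
      exact le_iSup_of_le ⟨w, hw⟩ (le_iSup_of_le ⟨w', hw'⟩ le_rfl)
    · apply iSup_le
      intro w
      apply iSup_le
      intro w'
      exact Metric.edist_le_ediam_of_mem ⟨w, w.2, rfl⟩ ⟨w', w'.2, rfl⟩
  rw [h1]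
  apply lowerSemicontinuous_iSup
  intro w
  apply lowerSemicontinuous_iSup
  intro w'
  apply Continuous.lowerSemicontinuous
  have h2 : ∀ v : Fin d → ℝ, Continuous (fun q : A × ℝ => Γ q.1 (slc i q.2 v)) := fun v =>
    hΓ.comp (continuous_fst.prodMk (continuous_slc' i continuous_snd continuous_const))
  exact (h2 w).edist (h2 w')

theorem lsc_sum {A : Type*} [TopologicalSpace A]
    {Γ : A → (Fin (d + 1) → ℝ) → (Fin (d + 1) → ℝ)}
    (hΓ : Continuous (fun q : A × (Fin (d + 1) → ℝ) => Γ q.1 q.2)) (u₀ : Fin (d + 1) → ℝ) (r : ℝ)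
    (N : ℕ) (i : Fin (d + 1)) :
    LowerSemicontinuous (fun q : A × ℝ => ∑ c : Fin d → Fin N,
      cellDiam (Γ q.1) u₀ r N i q.2 (fun k => (c k : ℕ)) ^ (d + 1)) := by
  have h1 : ∀ c ∈ (Finset.univ : Finset (Fin d → Fin N)), LowerSemicontinuous
      (fun q : A × ℝ => cellDiam (Γ q.1) u₀ r N i q.2 (fun k => (c k : ℕ)) ^ (d + 1)) := by
    intro c _
    exact (ENNReal.continuous_pow (d + 1)).comp_lowerSemicontinuous
      (lsc_cellDiam hΓ u₀ r N i _) (fun x y hxy => pow_le_pow_left₀ zero_le hxy _)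
  exact lowerSemicontinuous_sum h1

theorem measurable_sum {f : (Fin (d + 1) → ℝ) → (Fin (d + 1) → ℝ)} (hf : Continuous f)
    (u₀ : Fin (d + 1) → ℝ) (r : ℝ) (N : ℕ) (i : Fin (d + 1)) :
    Measurable (fun t : ℝ => ∑ c : Fin d → Fin N,
      cellDiam f u₀ r N i t (fun k => (c k : ℕ)) ^ (d + 1)) := by
  have h0 : Continuous (fun q : Unit × (Fin (d + 1) → ℝ) => f q.2) := hf.comp continuous_snd
  have h1 := lsc_sum (A := Unit) (Γ := fun _ => f) h0 u₀ r N i
  have h2 : Continuous (fun t : ℝ => (((), t) : Unit × ℝ)) := by fun_prop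
  have h3 : LowerSemicontinuous (fun t : ℝ => ∑ c : Fin d → Fin N,
      cellDiam f u₀ r N i t (fun k => (c k : ℕ)) ^ (d + 1)) := by
    intro t y hy
    exact h2.continuousAt.eventually (h1 ((), t) y hy)
  exact h3.measurable

/-- The retraction of the space onto a cube. -/
def clamp (u₀ : Fin (d + 1) → ℝ) (r : ℝ) (x : Fin (d + 1) → ℝ) : Fin (d + 1) → ℝ :=
  fun i => max (u₀ i - r) (min (u₀ i + r) (x i))

theorem continuous_clamp (u₀ : Fin (d + 1) → ℝ) (r : ℝ) : Continuous (clamp u₀ r) := by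
  unfold clamp
  fun_prop

theorem clamp_mem {u₀ : Fin (d + 1) → ℝ} {r : ℝ} (hr : 0 < r) (x : Fin (d + 1) → ℝ) :
    clamp u₀ r x ∈ closedBall u₀ r := by
  rw [mem_closedBall, dist_pi_le_iff hr.le]
  intro i
  rw [Real.dist_eq, abs_le]
  unfold clamp
  constructor
  · have := le_max_left (u₀ i - r) (min (u₀ i + r) (x i))
    linarith
  · have h1 : max (u₀ i - r) (min (u₀ i + r) (x i)) ≤ u₀ i + r :=
      max_le (by linarith) (min_le_left _ _)
    linarith

theorem clamp_of_mem {u₀ : Fin (d + 1) → ℝ} {r : ℝ} (hr : 0 < r) {x : Fin (d + 1) → ℝ}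
    (hx : x ∈ closedBall u₀ r) : clamp u₀ r x = x := by
  funext i
  have h := mem_closedBall_coord hr hx i
  unfold clamp
  rw [min_eq_right h.2, max_eq_right h.1]

theorem SV_congr {f g : (Fin (d + 1) → ℝ) → (Fin (d + 1) → ℝ)} {u₀ : Fin (d + 1) → ℝ} {r : ℝ}
    (hr : 0 < r) {N : ℕ} (hN : 0 < N) (h : ∀ x ∈ closedBall u₀ r, f x = g x) :
    SV f u₀ r N = SV g u₀ r N := by
  unfold SV
  apply Finset.sum_congr rfl
  intro i _
  apply setLIntegral_congr_fun measurableSet_Icc
  intro t ht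
  apply Finset.sum_congr rfl
  intro c _
  congr 1
  unfold cellDiam
  congr 1
  apply image_congr
  intro w hw
  exact h _ (slc_mem_closedBall hr ht (cell_subset hr i hN (c := fun k => (c k : ℕ))
    (fun k => (c k).2) hw))

theorem SV_lipschitz {f φ : (Fin (d + 1) → ℝ) → (Fin (d + 1) → ℝ)} {u₀ : Fin (d + 1) → ℝ} {r : ℝ}
    (hr : 0 < r) {N : ℕ} (hN : 0 < N) {L : ℝ≥0} (hφ : LipschitzOnWith L φ (f '' closedBall u₀ r)) :
    SV (fun x => φ (f x)) u₀ r N ≤ (L : ℝ≥0∞) ^ (d + 1) * SV f u₀ r N := by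
  unfold SV
  rw [Finset.mul_sum]
  apply Finset.sum_le_sum
  intro i _
  rw [← lintegral_const_mul' _ _ (ENNReal.pow_ne_top ENNReal.coe_ne_top)]
  apply setLIntegral_mono' measurableSet_Icc
  intro t ht
  rw [Finset.mul_sum]
  apply Finset.sum_le_sum
  intro c _
  rw [← mul_pow]
  apply pow_le_pow_left₀ zero_le
  apply Metric.ediam_le
  rintro _ ⟨w, hw, rfl⟩ _ ⟨w', hw', rfl⟩
  have hsub := cell_subset (u₀ := u₀) hr i hN (c := fun k => (c k : ℕ)) (fun k => (c k).2)
  have h1 := hφ ⟨_, slc_mem_closedBall hr ht (hsub hw), rfl⟩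
    ⟨_, slc_mem_closedBall hr ht (hsub hw'), rfl⟩
  refine h1.trans ?_
  gcongr
  exact Metric.edist_le_ediam_of_mem ⟨w, hw, rfl⟩ ⟨w', hw', rfl⟩

theorem liminf_add_le_liminf (a b : ℕ → ℝ≥0∞) :
    liminf a atTop + liminf b atTop ≤ liminf (fun k => a k + b k) atTop := by
  rw [liminf_eq_iSup_iInf_of_nat, liminf_eq_iSup_iInf_of_nat, liminf_eq_iSup_iInf_of_nat]
  rw [ENNReal.iSup_add_iSup_of_monotone]
  · apply iSup_mono
    intro n
    apply le_iInf₂
    intro i hi
    exact add_le_add (iInf₂_le i hi) (iInf₂_le i hi)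
  · intro n m hnm
    exact le_iInf₂ fun i hi => iInf₂_le i (le_trans hnm hi)
  · intro n m hnm
    exact le_iInf₂ fun i hi => iInf₂_le i (le_trans hnm hi)

/-- Closedness of the sets of maps with bounded slice variation. -/
theorem isClosed_SV {u₀ : Fin (d + 1) → ℝ} {r : ℝ} (hr : 0 < r) (N : ℕ) (c : ℝ≥0∞) :
    IsClosed {f : C(closedBall u₀ r, Fin (d + 1) → ℝ) |
      SV (fun x => f ⟨clamp u₀ r x, clamp_mem hr x⟩) u₀ r N ≤ c} := by
  have : CompactSpace (closedBall u₀ r) := isCompact_iff_compactSpace.mp (isCompact_closedBall _ _)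
  set Γ : C(closedBall u₀ r, Fin (d + 1) → ℝ) → (Fin (d + 1) → ℝ) → (Fin (d + 1) → ℝ) :=
    fun f x => f ⟨clamp u₀ r x, clamp_mem hr x⟩ with hΓ
  have hΓc : Continuous (fun q : C(closedBall u₀ r, Fin (d + 1) → ℝ) × (Fin (d + 1) → ℝ) =>
      Γ q.1 q.2) := by
    have h1 : Continuous (fun q : C(closedBall u₀ r, Fin (d + 1) → ℝ) × (Fin (d + 1) → ℝ) =>
        (q.1, (⟨clamp u₀ r q.2, clamp_mem hr q.2⟩ : closedBall u₀ r))) :=
      continuous_fst.prodMk (((continuous_clamp u₀ r).comp continuous_snd).subtype_mk _)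
    exact ContinuousEval.continuous_eval.comp h1
  apply IsSeqClosed.isClosed
  intro fs f hfs hlim
  have hbound : ∀ k, SV (Γ (fs k)) u₀ r N ≤ c := hfs
  change SV (Γ f) u₀ r N ≤ c
  unfold SV at hbound ⊢
  have hpt : ∀ (i : Fin (d + 1)) (t : ℝ), ∑ c : Fin d → Fin N,
      cellDiam (Γ f) u₀ r N i t (fun k => (c k : ℕ)) ^ (d + 1) ≤
      liminf (fun k => ∑ c : Fin d → Fin N,
        cellDiam (Γ (fs k)) u₀ r N i t (fun k => (c k : ℕ)) ^ (d + 1)) atTop := by
    intro i t
    have h1 : LowerSemicontinuousAt (fun q : C(closedBall u₀ r, Fin (d + 1) → ℝ) × ℝ =>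
      ∑ c : Fin d → Fin N, cellDiam (Γ q.1) u₀ r N i q.2 (fun k => (c k : ℕ)) ^ (d + 1)) (f, t) :=
      (lsc_sum hΓc u₀ r N i) (f, t)
    have h1' := h1.le_liminf
    have h2 : Tendsto (fun k => (fs k, t)) atTop (𝓝 (f, t)) := hlim.prodMk_nhds tendsto_const_nhds
    exact h1'.trans (liminf_le_liminf_of_le h2)
  calc ∑ i, ∫⁻ t in Icc (u₀ i - r) (u₀ i + r), ∑ c : Fin d → Fin N,
        cellDiam (Γ f) u₀ r N i t (fun k => (c k : ℕ)) ^ (d + 1)
      ≤ ∑ i, liminf (fun k => ∫⁻ t in Icc (u₀ i - r) (u₀ i + r), ∑ c : Fin d → Fin N,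
        cellDiam (Γ (fs k)) u₀ r N i t (fun k => (c k : ℕ)) ^ (d + 1)) atTop := by
        apply Finset.sum_le_sum
        intro i _
        refine (lintegral_mono (hpt i)).trans (lintegral_liminf_le ?_)
        intro k
        exact measurable_sum (hΓc.comp (continuous_const.prodMk continuous_id)) u₀ r N i
    _ ≤ liminf (fun k => ∑ i, ∫⁻ t in Icc (u₀ i - r) (u₀ i + r), ∑ c : Fin d → Fin N,
        cellDiam (Γ (fs k)) u₀ r N i t (fun k => (c k : ℕ)) ^ (d + 1)) atTop := by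
        have hgen : ∀ (s : Finset (Fin (d + 1))) (a : Fin (d + 1) → ℕ → ℝ≥0∞),
            ∑ i ∈ s, liminf (a i) atTop ≤ liminf (fun k => ∑ i ∈ s, a i k) atTop := by
          classical
          intro s a
          induction s using Finset.induction_on with
          | empty => simp
          | insert j s hj ih =>
            rw [Finset.sum_insert hj]
            simp_rw [Finset.sum_insert hj]
            exact (add_le_add le_rfl ih).trans (liminf_add_le_liminf _ _)
        exact hgen _ _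
    _ ≤ c := by
        apply liminf_le_of_frequently_le'
        exact Frequently.of_forall hbound

/-- Jensen's inequality for powers. -/
theorem lintegral_pow_le {A : Type*} [MeasurableSpace A] {ν : Measure A} [IsProbabilityMeasure ν]
    {X : A → ℝ≥0∞} (hX : Measurable X) (n : ℕ) :
    (∫⁻ a, X a ∂ν) ^ (n + 1) ≤ ∫⁻ a, X a ^ (n + 1) ∂ν := by
  have h1 := ENNReal.lintegral_mul_le_Lp_mul_Lq (μ := ν) (p := (n + 1 : ℝ)) (q := (n + 1 : ℝ) / n)
    (f := X) (g := fun _ => 1)
  rcases Nat.eq_zero_or_pos n with rfl | hn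
  · simp
  · have hn' : (0 : ℝ) < n := by exact_mod_cast hn
    have hpq : (n + 1 : ℝ).HolderConjugate ((n + 1 : ℝ) / n) := by
      rw [Real.holderConjugate_iff]
      constructor
      · linarith
      · field_simp
        ring
    have h2 := h1 hpq hX.aemeasurable aemeasurable_const
    simp only [Pi.mul_apply, mul_one, ENNReal.one_rpow, lintegral_const, measure_univ] at h2
    have h3 := pow_le_pow_left₀ zero_le h2 (n + 1)
    refine h3.trans_eq ?_
    rw [← ENNReal.rpow_natCast, ← ENNReal.rpow_mul]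
    have h4 : (1 / (n + 1 : ℝ)) * ((n + 1 : ℕ) : ℝ) = 1 := by
      push_cast
      field_simp
    rw [h4, ENNReal.rpow_one]
    congr 1
    funext a
    rw [← ENNReal.rpow_natCast]
    push_cast
    rfl

section average

variable {A : Type*} [TopologicalSpace A] [CompactSpace A] [MeasurableSpace A] [BorelSpace A]
  {ν : Measure A} [IsProbabilityMeasure ν]
  {Γ : A → (Fin (d + 1) → ℝ) → (Fin (d + 1) → ℝ)}

theorem avg_integrable (hΓ : Continuous (fun q : A × (Fin (d + 1) → ℝ) => Γ q.1 q.2))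
    (x : Fin (d + 1) → ℝ) : Integrable (fun a => Γ a x) ν := by
  have hc : Continuous (fun a => Γ a x) := hΓ.comp (continuous_id.prodMk continuous_const)
  obtain ⟨M, hM⟩ := isCompact_univ.exists_bound_of_continuousOn hc.continuousOn
  exact Integrable.of_bound hc.aestronglyMeasurable M (ae_of_all _ fun a => hM a (mem_univ a))

theorem avg_continuous (hΓ : Continuous (fun q : A × (Fin (d + 1) → ℝ) => Γ q.1 q.2)) :
    Continuous (fun x => ∫ a, Γ a x ∂ν) := by
  have h := continuous_parametric_integral_of_continuous (μ := ν) (s := (univ : Set A))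
    (f := fun (x : Fin (d + 1) → ℝ) (a : A) => Γ a x) (by
      have : Continuous (fun q : (Fin (d + 1) → ℝ) × A => Γ q.2 q.1) :=
        hΓ.comp (continuous_snd.prodMk continuous_fst)
      exact this) isCompact_univ
  simpa using h

theorem avg_edist (hΓ : Continuous (fun q : A × (Fin (d + 1) → ℝ) => Γ q.1 q.2))
    (x z : Fin (d + 1) → ℝ) : edist (∫ a, Γ a x ∂ν) (∫ a, Γ a z ∂ν) ≤
      ∫⁻ a, edist (Γ a x) (Γ a z) ∂ν := by
  rw [edist_eq_enorm_sub, ← integral_sub (avg_integrable hΓ x) (avg_integrable hΓ z)]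
  refine (enorm_integral_le_lintegral_enorm _).trans_eq ?_
  congr 1
  funext a
  rw [edist_eq_enorm_sub]

theorem SV_avg (hΓ : Continuous (fun q : A × (Fin (d + 1) → ℝ) => Γ q.1 q.2))
    (u₀ : Fin (d + 1) → ℝ) (r : ℝ) (N : ℕ) {c : ℝ≥0∞} (hc : ∀ a, SV (Γ a) u₀ r N ≤ c) :
    SV (fun x => ∫ a, Γ a x ∂ν) u₀ r N ≤ c := by
  have hcell : ∀ i t c, cellDiam (fun x => ∫ a, Γ a x ∂ν) u₀ r N i t c ≤
      ∫⁻ a, cellDiam (Γ a) u₀ r N i t c ∂ν := by
    intro i t c
    apply Metric.ediam_le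
    rintro _ ⟨w, hw, rfl⟩ _ ⟨w', hw', rfl⟩
    refine (avg_edist hΓ _ _).trans (lintegral_mono fun a => ?_)
    exact Metric.edist_le_ediam_of_mem ⟨w, hw, rfl⟩ ⟨w', hw', rfl⟩
  have hmeas : ∀ i t c, Measurable (fun a => cellDiam (Γ a) u₀ r N i t c) := by
    intro i t c
    have h1 := (lsc_cellDiam hΓ u₀ r N i c)
    have h3 : Continuous (fun a : A => (a, t)) := continuous_id.prodMk continuous_const
    have h2 : LowerSemicontinuous (fun a : A => cellDiam (Γ a) u₀ r N i t c) := by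
      intro a y hy
      exact h3.continuousAt.eventually (h1 (a, t) y hy)
    exact h2.measurable
  unfold SV
  calc ∑ i, ∫⁻ t in Icc (u₀ i - r) (u₀ i + r), ∑ c : Fin d → Fin N,
        cellDiam (fun x => ∫ a, Γ a x ∂ν) u₀ r N i t (fun k => (c k : ℕ)) ^ (d + 1)
      ≤ ∑ i, ∫⁻ t in Icc (u₀ i - r) (u₀ i + r), (∫⁻ a, ∑ c : Fin d → Fin N,
        cellDiam (Γ a) u₀ r N i t (fun k => (c k : ℕ)) ^ (d + 1) ∂ν) := by
        apply Finset.sum_le_sum
        intro i _
        apply lintegral_mono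
        intro t
        refine le_trans ?_ (lintegral_finsetSum _ (fun c _ => (hmeas i t _).pow_const _)).symm.le
        apply Finset.sum_le_sum
        intro c _
        exact (pow_le_pow_left₀ zero_le (hcell i t _) _).trans (lintegral_pow_le (hmeas i t _) d)
    _ = ∑ i, ∫⁻ a, (∫⁻ t in Icc (u₀ i - r) (u₀ i + r), ∑ c : Fin d → Fin N,
        cellDiam (Γ a) u₀ r N i t (fun k => (c k : ℕ)) ^ (d + 1)) ∂ν := by
        apply Finset.sum_congr rfl
        intro i _
        have h1 := (lsc_sum hΓ u₀ r N i).measurable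
        exact lintegral_lintegral_swap (f := fun (t : ℝ) (a : A) => ∑ c : Fin d → Fin N,
          cellDiam (Γ a) u₀ r N i t (fun k => (c k : ℕ)) ^ (d + 1))
          (h1.comp measurable_swap).aemeasurable
    _ = ∫⁻ a, (∑ i, ∫⁻ t in Icc (u₀ i - r) (u₀ i + r), ∑ c : Fin d → Fin N,
        cellDiam (Γ a) u₀ r N i t (fun k => (c k : ℕ)) ^ (d + 1)) ∂ν := by
        rw [lintegral_finsetSum]
        intro i _
        exact ((lsc_sum hΓ u₀ r N i).measurable).lintegral_prod_right'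
    _ ≤ ∫⁻ a, c ∂ν := lintegral_mono hc
    _ = c := by simp

end average

/-- If the slice variations tend to zero, then almost all slices have null images. -/
theorem ae_null_slice {F : (Fin (d + 1) → ℝ) → (Fin (d + 1) → ℝ)} (hF : Continuous F)
    {u₀ : Fin (d + 1) → ℝ} {r : ℝ} (hr : 0 < r)
    (h0 : ∀ ε : ℝ≥0∞, 0 < ε → ∃ N : ℕ, 0 < N ∧ SV F u₀ r N ≤ ε) (i : Fin (d + 1)) :
    ∀ᵐ t ∂(volume.restrict (Icc (u₀ i - r) (u₀ i + r))),
      volume (F '' ((fun w => slc i t w) '' fullSlice u₀ r i)) = 0 := by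
  set Y : ℕ → ℝ → ℝ≥0∞ := fun N t => ∑ c : Fin d → Fin N,
    cellDiam F u₀ r N i t (fun k => (c k : ℕ)) ^ (d + 1) with hY
  have hYm : ∀ N, Measurable (Y N) := fun N => measurable_sum hF u₀ r N i
  set Z : ℝ → ℝ≥0∞ := fun t => ⨅ N : ℕ, Y (N + 1) t with hZ
  have hZm : Measurable Z := Measurable.iInf fun N => hYm (N + 1)
  have hint : ∫⁻ t in Icc (u₀ i - r) (u₀ i + r), Z t = 0 := by
    by_contra hne
    have hpos : 0 < (∫⁻ t in Icc (u₀ i - r) (u₀ i + r), Z t) := pos_iff_ne_zero.mpr hne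
    obtain ⟨ε, hε0, hε⟩ := exists_between hpos
    obtain ⟨N, hN, hSV⟩ := h0 ε hε0
    have h1 : ∫⁻ t in Icc (u₀ i - r) (u₀ i + r), Z t ≤ ∫⁻ t in Icc (u₀ i - r) (u₀ i + r), Y N t := by
      apply lintegral_mono
      intro t
      have : N = (N - 1) + 1 := by omega
      rw [this]
      exact iInf_le _ _
    have h2 : ∫⁻ t in Icc (u₀ i - r) (u₀ i + r), Y N t ≤ SV F u₀ r N := by
      unfold SV
      exact Finset.single_le_sum (f := fun i => ∫⁻ t in Icc (u₀ i - r) (u₀ i + r),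
        ∑ c : Fin d → Fin N, cellDiam F u₀ r N i t (fun k => (c k : ℕ)) ^ (d + 1))
        (fun _ _ => zero_le) (Finset.mem_univ i)
    exact absurd (h1.trans (h2.trans hSV)) (not_le.mpr hε)
  have hae := (lintegral_eq_zero_iff hZm).mp hint
  filter_upwards [hae] with t ht
  have hle : ∀ N : ℕ, volume (F '' ((fun w => slc i t w) '' fullSlice u₀ r i)) ≤ Y (N + 1) t := by
    intro N
    have hcov : F '' ((fun w => slc i t w) '' fullSlice u₀ r i) ⊆
        ⋃ c : Fin d → Fin (N + 1), (fun w => F (slc i t w)) ''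
          cell (corner u₀ r i) (2 * r / ((N + 1 : ℕ) : ℝ)) (fun k => (c k : ℕ)) := by
      rintro _ ⟨_, ⟨w, hw, rfl⟩, rfl⟩
      obtain ⟨c, hc⟩ := exists_cell hr i (Nat.succ_pos N) hw
      exact mem_iUnion.mpr ⟨c, w, hc, rfl⟩
    refine (measure_mono hcov).trans ((measure_iUnion_fintype_le _ _).trans ?_)
    apply Finset.sum_le_sum
    intro c _
    have := Real.volume_pi_le_diam_pow ((fun w => F (slc i t w)) ''
          cell (corner u₀ r i) (2 * r / ((N + 1 : ℕ) : ℝ)) (fun k => (c k : ℕ)))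
    rw [Fintype.card_fin] at this
    exact this
  have hle' : volume (F '' ((fun w => slc i t w) '' fullSlice u₀ r i)) ≤ Z t := le_iInf hle
  rw [ht] at hle'
  exact le_antisymm hle' zero_le

/-- Almost every fibre is totally disconnected. -/
theorem exists_null_set {F : (Fin (d + 1) → ℝ) → (Fin (d + 1) → ℝ)} (hF : Continuous F)
    {u₀ : Fin (d + 1) → ℝ} {r : ℝ} (hr : 0 < r)
    (h0 : ∀ ε : ℝ≥0∞, 0 < ε → ∃ N : ℕ, 0 < N ∧ SV F u₀ r N ≤ ε) :
    ∃ Z : Set (Fin (d + 1) → ℝ), volume Z = 0 ∧ ∀ y ∉ Z,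
      IsTotallyDisconnected {x | x ∈ closedBall u₀ r ∧ F x = y} := by
  classical
  set P : Fin (d + 1) → ℝ → Prop := fun i t =>
    volume (F '' ((fun w => slc i t w) '' fullSlice u₀ r i)) = 0 with hP
  have hex : ∀ (i : Fin (d + 1)) (a b : ℝ), a < b → u₀ i - r ≤ a → b ≤ u₀ i + r →
      ∃ t ∈ Ioo a b, P i t := by
    intro i a b hab ha hb
    have h1 := ae_null_slice hF hr h0 i
    have h2 : ∀ᵐ t ∂(volume.restrict (Ioo a b)), P i t :=
      ae_mono (Measure.restrict_mono_set _ (Ioo_subset_Icc_self.trans (Icc_subset_Icc ha hb))) h1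
    have h3 : (volume.restrict (Ioo a b)) ≠ 0 := by
      rw [Ne, Measure.restrict_eq_zero, Real.volume_Ioo, ENNReal.ofReal_eq_zero, not_le]
      linarith
    have h4 : (ae (volume.restrict (Ioo a b))).NeBot := ae_neBot.mpr h3
    obtain ⟨t, ht1, ht2⟩ := (h2.and (ae_restrict_mem measurableSet_Ioo)).exists
    exact ⟨t, ht2, ht1⟩
  choose! T hT hTP using hex
  set S : Set (Fin (d + 1) → ℝ) := ⋃ (q : Fin (d + 1) × ℚ × ℚ)
    (_ : (q.2.1 : ℝ) < q.2.2 ∧ u₀ q.1 - r ≤ q.2.1 ∧ (q.2.2 : ℝ) ≤ u₀ q.1 + r),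
    F '' ((fun w => slc q.1 (T q.1 q.2.1 q.2.2) w) '' fullSlice u₀ r q.1) with hS
  refine ⟨S, ?_, ?_⟩
  · rw [hS]
    apply measure_iUnion_null
    intro q
    apply measure_iUnion_null
    intro hq
    exact hTP q.1 q.2.1 q.2.2 hq.1 hq.2.1 hq.2.2
  · intro y hy s hs hpre x hx z hz
    by_contra hne
    obtain ⟨i, hi⟩ := Function.ne_iff.mp hne
    have main : ∀ x z : Fin (d + 1) → ℝ, x ∈ s → z ∈ s → x i < z i → False := by
      intro x z hx hz hlt
      obtain ⟨b, hb1, hb2⟩ := exists_rat_btwn hlt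
      obtain ⟨a, ha1, ha2⟩ := exists_rat_btwn hb1
      have hxc := mem_closedBall_coord hr (hs hx).1 i
      have hzc := mem_closedBall_coord hr (hs hz).1 i
      have hcond : (a : ℝ) < b ∧ u₀ i - r ≤ a ∧ (b : ℝ) ≤ u₀ i + r :=
        ⟨ha2, by linarith [hxc.1], by linarith [hzc.2]⟩
      have hTm := hT i a b hcond.1 hcond.2.1 hcond.2.2
      set t := T i a b with ht
      have hno : ∀ w ∈ s, w i ≠ t := by
        intro w hw hwt
        apply hy
        rw [hS]
        refine mem_iUnion₂.mpr ⟨(i, a, b), hcond, ?_⟩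
        refine ⟨w, ⟨fun k => w (i.succAbove k), mem_fullSlice_of_mem hr (hs hw).1 i, ?_⟩,
          (hs hw).2⟩
        simp only
        rw [← ht, ← hwt]
        exact slc_removeNth i w
      have hcont : Continuous (fun w : Fin (d + 1) → ℝ => w i) := continuous_apply i
      have o1 : IsOpen {w : Fin (d + 1) → ℝ | w i < t} := isOpen_lt hcont continuous_const
      have o2 : IsOpen {w : Fin (d + 1) → ℝ | t < w i} := isOpen_lt continuous_const hcont
      have o3 : Disjoint {w : Fin (d + 1) → ℝ | w i < t} {w : Fin (d + 1) → ℝ | t < w i} := by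
        rw [Set.disjoint_left]
        intro w hw hw'
        have a1 : w i < t := hw
        have a2 : t < w i := hw'
        linarith
      rcases hpre.subset_or_subset o1 o2 o3
        (fun w hw => (lt_or_gt_of_ne (hno w hw))) with h | h
      · have h1 : z i < t := h hz
        linarith [hTm.2]
      · have h1 : t < x i := h hx
        linarith [hTm.1]
    rcases lt_or_gt_of_ne hi with h | h
    · exact main x z hx hz h
    · exact main z x hz hx h

end Pool.Agent.Helper3.HS
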