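import Pool.Agent.Helper3.HS.Slice2

/-!
# Averages over the `p`-adic integers
-/

set_option autoImplicit false
set_option linter.unusedSectionVars false
set_option linter.unusedVariables false

open Set MeasureTheory Metric Filter Topology
open scoped NNReal ENNReal

namespace Pool.Agent.Helper3.HS

variable {d : ℕ} {p : ℕ} [hp : Fact p.Prime]

theorem tendsto_bound {K : ℝ≥0∞} (hK : K ≠ ∞) {ε : ℝ} (hε : 0 < ε) {η : ℝ≥0∞} (hη : 0 < η) :
    ∃ N : ℕ, 0 < N ∧ K * ENNReal.ofReal ((N : ℝ) ^ (-ε)) ≤ η := by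
  have h1 : Tendsto (fun N : ℕ => (N : ℝ) ^ (-ε)) atTop (𝓝 0) :=
    (tendsto_rpow_neg_atTop hε).comp tendsto_natCast_atTop_atTop
  have h2 : Tendsto (fun N : ℕ => K * ENNReal.ofReal ((N : ℝ) ^ (-ε))) atTop (𝓝 0) := by
    have h3 := ENNReal.Tendsto.const_mul (ENNReal.tendsto_ofReal h1) (Or.inr hK) (a := K)
    rwa [ENNReal.ofReal_zero, mul_zero] at h3
  have h4 := (h2.eventually (gt_mem_nhds hη)).and (eventually_gt_atTop 0)
  obtain ⟨N, hN1, hN2⟩ := h4.exists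
  exact ⟨N, hN2, hN1.le⟩

/-- The average of a family of maps over the `p`-adic integers. -/
theorem avg_fibre {Γ : ℤ_[p] → (Fin (d + 1) → ℝ) → (Fin (d + 1) → ℝ)}
    (hΓ : Continuous (fun q : ℤ_[p] × (Fin (d + 1) → ℝ) => Γ q.1 q.2)) {u₀ : Fin (d + 1) → ℝ}
    {r : ℝ} (hr : 0 < r) {K : ℝ≥0∞} (hK : K ≠ ∞) {ε : ℝ} (hε : 0 < ε)
    (hSV : ∀ a, ∀ N : ℕ, 0 < N → SV (Γ a) u₀ r N ≤ K * ENNReal.ofReal ((N : ℝ) ^ (-ε))) :
    ∃ F : (Fin (d + 1) → ℝ) → (Fin (d + 1) → ℝ), Continuous F ∧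
      (∃ Z : Set (Fin (d + 1) → ℝ), volume Z = 0 ∧ ∀ y ∉ Z,
        IsTotallyDisconnected {x | x ∈ closedBall u₀ r ∧ F x = y}) ∧
      (∀ x x' b, (∀ a, Γ a x' = Γ (a + b) x) → F x' = F x) ∧
      (∀ x v δ, (∀ a, dist (Γ a x) v ≤ δ) → dist (F x) v ≤ δ) ∧
      (∀ (ℓ : (Fin (d + 1) → ℝ) →L[ℝ] ℝ) x, (∀ a, 0 < ℓ (Γ a x)) → 0 < ℓ (F x)) := by
  let _ : MeasurableSpace ℤ_[p] := borel ℤ_[p]
  have : BorelSpace ℤ_[p] := ⟨rfl⟩
  set ν : Measure ℤ_[p] :=
    Measure.addHaarMeasure (⊤ : TopologicalSpace.PositiveCompacts ℤ_[p]) with hν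
  have hprob : IsProbabilityMeasure ν := by
    constructor
    have := Measure.addHaarMeasure_self (K₀ := (⊤ : TopologicalSpace.PositiveCompacts ℤ_[p]))
    simpa using this
  refine ⟨fun x => ∫ a, Γ a x ∂ν, avg_continuous hΓ, ?_, ?_, ?_, ?_⟩
  · apply exists_null_set (avg_continuous hΓ) hr
    intro η hη
    obtain ⟨N, hN, hle⟩ := tendsto_bound hK hε hη
    exact ⟨N, hN, (SV_avg hΓ u₀ r N (fun a => hSV a N hN)).trans hle⟩
  · intro x x' b h
    simp only [h]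
    exact integral_add_right_eq_self (fun a => Γ a x) b
  · intro x v δ h
    have h1 : (∫ a, Γ a x ∂ν) - v = ∫ a, (Γ a x - v) ∂ν := by
      rw [integral_sub (avg_integrable hΓ x) (integrable_const v), integral_const]
      simp
    rw [dist_eq_norm, h1]
    have h2 := norm_integral_le_of_norm_le_const (μ := ν) (f := fun a => Γ a x - v) (C := δ)
      (ae_of_all _ fun a => by rw [← dist_eq_norm]; exact h a)
    simpa using h2
  · intro ℓ x h
    have hc : Continuous (fun a => ℓ (Γ a x)) :=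
      ℓ.continuous.comp (hΓ.comp (continuous_id.prodMk continuous_const))
    obtain ⟨a₀, -, ha₀⟩ := isCompact_univ.exists_isMinOn (univ_nonempty) hc.continuousOn
    have h1 : ℓ (∫ a, Γ a x ∂ν) = ∫ a, ℓ (Γ a x) ∂ν :=
      (ContinuousLinearMap.integral_comp_comm ℓ (avg_integrable hΓ x)).symm
    rw [h1]
    have h2 : ∫ a : ℤ_[p], ℓ (Γ a₀ x) ∂ν ≤ ∫ a, ℓ (Γ a x) ∂ν := by
      apply integral_mono (integrable_const _) (ℓ.integrable_comp (avg_integrable hΓ x))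
      intro a
      exact ha₀ (mem_univ a)
    rw [integral_const] at h2
    have h3 : ν.real univ = 1 := by simp
    rw [h3, one_smul] at h2
    exact (h a₀).trans_le h2

end Pool.Agent.Helper3.HS
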