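import Pool.Agent.Helper3.HS.Core

/-!
# Actions in a chart
-/

set_option autoImplicit false
set_option linter.unusedSectionVars false
set_option linter.unusedVariables false

open Set MeasureTheory Metric Filter Topology
open scoped NNReal ENNReal

namespace Pool.Agent.Helper3.HS

variable {n : ℕ} {X : Type*} [MetricSpace X] {G : Type*} [Group G] [TopologicalSpace G]
  [MulAction G X] [ContinuousSMul G X] {p : ℕ} [hp : Fact p.Prime]

/-- The coordinate expression of the action of the `p`-adic integers through `θ`. -/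
noncomputable def act (e : OpenPartialHomeomorph X (Fin n → ℝ)) (θ : Multiplicative ℤ_[p] →* G)
    (a : ℤ_[p]) (u : Fin n → ℝ) : Fin n → ℝ :=
  e (θ (Multiplicative.ofAdd a) • e.symm u)

/-- The invariant open subset of a ball in the chart. -/
def invSet (e : OpenPartialHomeomorph X (Fin n → ℝ)) (θ : Multiplicative ℤ_[p] →* G)
    (c : Fin n → ℝ) (σ : ℝ) : Set (Fin n → ℝ) :=
  {u | u ∈ ball c σ ∧ ∀ a : ℤ_[p], act e θ a u ∈ ball c σ}

variable {e : OpenPartialHomeomorph X (Fin n → ℝ)} {θ : Multiplicative ℤ_[p] →* G}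
  {c : Fin n → ℝ} {σ : ℝ}

theorem act_continuousOn (hθ : Continuous θ) (hB : closedBall c σ ⊆ e.target)
    (hsrc : ∀ a : ℤ_[p], ∀ u ∈ closedBall c σ, θ (Multiplicative.ofAdd a) • e.symm u ∈ e.source) :
    ContinuousOn (fun q : ℤ_[p] × (Fin n → ℝ) => act e θ q.1 q.2) (univ ×ˢ closedBall c σ) := by
  have h1 : ContinuousOn (fun q : ℤ_[p] × (Fin n → ℝ) => e.symm q.2) (univ ×ˢ closedBall c σ) :=
    e.symm.continuousOn.comp continuousOn_snd fun q hq => hB hq.2
  have h2 : ContinuousOn (fun q : ℤ_[p] × (Fin n → ℝ) => θ (Multiplicative.ofAdd q.1))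
      (univ ×ˢ closedBall c σ) :=
    (hθ.comp (continuous_ofAdd.comp continuous_fst)).continuousOn
  exact e.continuousOn.comp (h2.smul h1) fun q hq => hsrc q.1 q.2 hq.2

theorem act_add (hsrc : ∀ a : ℤ_[p], ∀ u ∈ closedBall c σ,
      θ (Multiplicative.ofAdd a) • e.symm u ∈ e.source) (a b : ℤ_[p]) {u : Fin n → ℝ}
    (hu : u ∈ closedBall c σ) : act e θ (a + b) u = act e θ a (act e θ b u) := by
  unfold act
  rw [e.left_inv (hsrc b u hu), smul_smul, ← map_mul, ← ofAdd_add]

theorem act_zero (hB : closedBall c σ ⊆ e.target) {u : Fin n → ℝ} (hu : u ∈ closedBall c σ) :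
    act e θ 0 u = u := by
  unfold act
  rw [ofAdd_zero, map_one, one_smul, e.right_inv (hB hu)]

theorem act_injOn (hB : closedBall c σ ⊆ e.target)
    (hsrc : ∀ a : ℤ_[p], ∀ u ∈ closedBall c σ, θ (Multiplicative.ofAdd a) • e.symm u ∈ e.source)
    (a : ℤ_[p]) : InjOn (act e θ a) (closedBall c σ) := by
  intro u hu v hv huv
  have h1 := e.injOn (hsrc a u hu) (hsrc a v hv) huv
  have h2 := smul_left_cancel _ h1
  have h3 : u ∈ e.symm.source := hB hu
  have h4 : v ∈ e.symm.source := hB hv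
  exact e.symm.injOn h3 h4 h2

theorem smul_chart_isOpen (hB : closedBall c σ ⊆ e.target) (g : G)
    (hsrc : ∀ u ∈ closedBall c σ, g • e.symm u ∈ e.source) (O : Set (Fin n → ℝ))
    (hO : O ⊆ ball c σ) (hOo : IsOpen O) : IsOpen ((fun u => e (g • e.symm u)) '' O) := by
  have hOt : O ⊆ e.target := hO.trans (ball_subset_closedBall.trans hB)
  have h1 : IsOpen (e.symm '' O) := e.isOpen_image_symm_of_subset_target hOo hOt
  have h2 : IsOpen ((fun x => g • x) '' (e.symm '' O)) := (Homeomorph.smul g).isOpenMap _ h1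
  have h3 : (fun x => g • x) '' (e.symm '' O) ⊆ e.source := by
    rintro _ ⟨_, ⟨u, hu, rfl⟩, rfl⟩
    exact hsrc u (ball_subset_closedBall (hO hu))
  have h4 := e.isOpen_image_of_subset_source h2 h3
  rwa [image_image, image_image] at h4

theorem invSet_isOpen (hθ : Continuous θ) (hB : closedBall c σ ⊆ e.target)
    (hsrc : ∀ a : ℤ_[p], ∀ u ∈ closedBall c σ, θ (Multiplicative.ofAdd a) • e.symm u ∈ e.source) :
    IsOpen (invSet e θ c σ) := by
  set S : Set (ℤ_[p] × (Fin n → ℝ)) := (univ ×ˢ ball c σ) ∩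
    (fun q : ℤ_[p] × (Fin n → ℝ) => act e θ q.1 q.2) ⁻¹' (ball c σ) with hS
  have hSo : IsOpen S := by
    apply ContinuousOn.isOpen_inter_preimage _ (isOpen_univ.prod isOpen_ball) isOpen_ball
    exact (act_continuousOn hθ hB hsrc).mono (prod_mono Subset.rfl ball_subset_closedBall)
  have h1 : (invSet e θ c σ)ᶜ = Prod.snd '' Sᶜ := by
    ext u
    simp only [invSet, mem_compl_iff, mem_image, Prod.exists, exists_eq_right]
    constructor
    · intro hu
      by_contra hcon
      push Not at hcon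
      apply hu
      refine ⟨(hcon 0).1.2, fun a => (hcon a).2⟩
    · rintro ⟨a, ha⟩ hu
      exact ha ⟨⟨mem_univ _, hu.1⟩, hu.2 a⟩
  rw [← isClosed_compl_iff, h1]
  exact isClosedMap_snd_of_compactSpace _ hSo.isClosed_compl

theorem invSet_act (hsrc : ∀ a : ℤ_[p], ∀ u ∈ closedBall c σ,
      θ (Multiplicative.ofAdd a) • e.symm u ∈ e.source) (a : ℤ_[p]) {u : Fin n → ℝ}
    (hu : u ∈ invSet e θ c σ) : act e θ a u ∈ invSet e θ c σ := by
  refine ⟨hu.2 a, fun b => ?_⟩
  rw [← act_add hsrc b a (ball_subset_closedBall hu.1)]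
  exact hu.2 _

/-- The core lemma in a chart. -/
theorem core_chart (hθ : Continuous θ) (hσ : 0 < σ) (hB : closedBall c σ ⊆ e.target)
    (hsrc : ∀ a : ℤ_[p], ∀ u ∈ closedBall c σ, θ (Multiplicative.ofAdd a) • e.symm u ∈ e.source)
    {F : (Fin n → ℝ) → (Fin n → ℝ)} (hF : ContinuousOn F (closure (invSet e θ c σ)))
    (hFT : ∀ a, ∀ u ∈ invSet e θ c σ, F (act e θ a u) = F u) {y : Fin n → ℝ}
    (hfr : ∀ u ∈ frontier (invSet e θ c σ), F u ≠ y)
    (htd : IsTotallyDisconnected {u | u ∈ invSet e θ c σ ∧ F u = y})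
    (hfix : ∀ u ∈ invSet e θ c σ, F u = y → ∃ a, act e θ a u ≠ u) {k : ℝ}
    (hk : HasDeg volume (invSet e θ c σ) F y k) : ∃ m : ℤ, k = p * m := by
  have hcl : closure (ball c σ) = closedBall c σ := closure_ball c hσ.ne'
  apply core volume (Q := ball c σ) (U := invSet e θ c σ) (T := act e θ) isOpen_ball
    isBounded_ball (convex_ball c σ).isPreconnected (invSet_isOpen hθ hB hsrc)
    (fun u hu => hu.1) _ _ _ (fun a u hu => invSet_act hsrc a hu)
    (fun u hu => act_zero hB (ball_subset_closedBall hu.1))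
    (fun a b u hu => act_add hsrc a b (ball_subset_closedBall hu.1)) hF hFT hfr htd hfix hk
  · rw [hcl]
    exact act_continuousOn hθ hB hsrc
  · intro a
    rw [hcl]
    exact act_injOn hB hsrc a
  · intro a O hO hOo
    exact smul_chart_isOpen hB (θ (Multiplicative.ofAdd a)) (hsrc a) O hO hOo

end Pool.Agent.Helper3.HS
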