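import Mathlib

/-!
# Actions of the `p`-adic integers on profinite spaces without fixed points
-/

set_option autoImplicit false
set_option linter.unusedSectionVars false
set_option linter.unusedVariables false

open Set Topology

namespace Pool.Agent.Helper3.HS

variable {p : ℕ} [hp : Fact p.Prime]

/-- A natural number `0 < j < p` minus a multiple of `p` is a unit. -/
theorem isUnit_sub {j : ℕ} (h0 : 0 < j) (hj : j < p) (b : ℤ_[p]) :
    IsUnit ((j : ℤ_[p]) - p * b) := by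
  rw [PadicInt.isUnit_iff]
  by_contra hne
  have hlt : ‖(j : ℤ_[p]) - p * b‖ < 1 := lt_of_le_of_ne (PadicInt.norm_le_one _) hne
  have h1 : ‖(p : ℤ_[p]) * b‖ < 1 := by
    rw [PadicInt.norm_lt_one_iff_dvd]
    exact Dvd.intro _ rfl
  have h2 : ‖(j : ℤ_[p])‖ < 1 := by
    have := PadicInt.norm_lt_one_add hlt h1
    rwa [sub_add_cancel] at this
  have h3 : ‖((j : ℤ) : ℤ_[p])‖ < 1 := by simpa using h2
  rw [PadicInt.norm_int_lt_one_iff_dvd] at h3
  have h4 : p ∣ j := by exact_mod_cast h3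
  exact absurd (Nat.le_of_dvd h0 h4) (not_le.mpr hj)

/-- Every `p`-adic integer is congruent to a natural number `< p`. -/
theorem exists_digit (a : ℤ_[p]) : ∃ j : ℕ, j < p ∧ ∃ b : ℤ_[p], a = j + p * b := by
  obtain ⟨n, hn, hmem⟩ := PadicInt.exists_mem_range a
  rw [PadicInt.maximalIdeal_eq_span_p, Ideal.mem_span_singleton] at hmem
  obtain ⟨b, hb⟩ := hmem
  exact ⟨n, hn, b, by rw [← hb]; ring⟩

section split

variable {K : Type*} [TopologicalSpace K] [CompactSpace K] [T2Space K]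

theorem unit_no_fix {T : ℤ_[p] → K → K} (hT : Continuous (fun q : ℤ_[p] × K => T q.1 q.2))
    (h0 : ∀ x, T 0 x = x) (hadd : ∀ a b x, T (a + b) x = T a (T b x))
    (hfix : ∀ x, ∃ a, T a x ≠ x) {u : ℤ_[p]} (hu : IsUnit u) (x : K) : T u x ≠ x := by
  intro hux
  obtain ⟨a, ha⟩ := hfix x
  apply ha
  have hcl : IsClosed {c : ℤ_[p] | T (c * u) x = x} := by
    apply isClosed_eq _ continuous_const
    exact hT.comp ((continuous_id.mul continuous_const).prodMk continuous_const)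
  have hnat : ∀ n : ℕ, T ((n : ℤ_[p]) * u) x = x := by
    intro n
    induction n with
    | zero => simp [h0]
    | succ n ih =>
      rw [Nat.cast_succ, add_mul, one_mul, hadd, hux, ih]
  have hall : ∀ c : ℤ_[p], T (c * u) x = x := by
    intro c
    have : c ∈ closure (Set.range (Nat.cast : ℕ → ℤ_[p])) := PadicInt.denseRange_natCast c
    apply hcl.closure_subset_iff.mpr _ this
    rintro _ ⟨n, rfl⟩
    exact hnat n
  obtain ⟨v, hv⟩ := hu
  have := hall (a * (v⁻¹ : (ℤ_[p])ˣ))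
  rwa [mul_assoc, ← hv, Units.inv_mul, mul_one] at this

theorem exists_local [TotallyDisconnectedSpace K] {T : ℤ_[p] → K → K}
    (hT : Continuous (fun q : ℤ_[p] × K => T q.1 q.2))
    (h0 : ∀ x, T 0 x = x) (hadd : ∀ a b x, T (a + b) x = T a (T b x))
    (hfix : ∀ x, ∃ a, T a x ≠ x) (x : K) :
    ∃ V : Set K, IsClopen V ∧ x ∈ V ∧ (∀ b : ℤ_[p], ∀ z ∈ V, T (p * b) z ∈ V) ∧
      ∀ j : ℕ, 0 < j → j < p → ∀ z ∈ V, T j z ∉ V := by
  have hTa : ∀ a, Continuous (T a) := fun a => hT.comp (continuous_const.prodMk continuous_id)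
  have hinv : ∀ a z, T (-a) (T a z) = z := fun a z => by rw [← hadd, neg_add_cancel, h0]
  have hinv' : ∀ a z, T a (T (-a) z) = z := fun a z => by rw [← hadd, add_neg_cancel, h0]
  -- the orbit of the subgroup
  set Z : Set K := Set.range (fun b : ℤ_[p] => T (p * b) x) with hZ
  have hZc : IsCompact Z := isCompact_range
    (hT.comp ((continuous_const.mul continuous_id).prodMk continuous_const))
  set Y : Set K := ⋃ j ∈ (Finset.Ico 1 p), (T (j : ℤ_[p])) '' Z with hY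
  have hYc : IsClosed Y := by
    apply (Finset.isCompact_biUnion _ fun j _ => hZc.image (hTa _)).isClosed
  have hZY : Z ⊆ Yᶜ := by
    rintro _ ⟨b, rfl⟩ hmem
    obtain ⟨j, hj, z, ⟨c, rfl⟩, hz⟩ := mem_iUnion₂.mp hmem
    rw [Finset.mem_Ico] at hj
    simp only at hz
    rw [← hadd] at hz
    have h1 : T ((j : ℤ_[p]) - p * (b - c)) x = x := by
      have : (j : ℤ_[p]) - p * (b - c) = -(p * b) + (j + p * c) := by ring
      rw [this, hadd, hz, hinv]
    exact unit_no_fix hT h0 hadd hfix (isUnit_sub hj.1 hj.2 _) x h1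
  obtain ⟨W, hW, hZW, hWY⟩ := exists_clopen_of_closed_subset_open hZc.isClosed hYc.isOpen_compl hZY
  set V₀ : Set K := {z | ∀ b : ℤ_[p], T (p * b) z ∈ W} with hV₀
  have hV₀o : IsOpen V₀ := by
    have h1 : V₀ᶜ = Prod.snd '' {q : ℤ_[p] × K | T (p * q.1) q.2 ∈ Wᶜ} := by
      ext z
      simp only [hV₀, mem_compl_iff, mem_setOf_eq, not_forall, mem_image, Prod.exists]
      constructor
      · rintro ⟨b, hb⟩
        exact ⟨b, z, hb, rfl⟩
      · rintro ⟨b, z', hb, rfl⟩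
        exact ⟨b, hb⟩
    have h2 : IsClosed {q : ℤ_[p] × K | T (p * q.1) q.2 ∈ Wᶜ} := by
      apply hW.compl.isClosed.preimage
      exact hT.comp ((continuous_const.mul continuous_fst).prodMk continuous_snd)
    rw [← isClosed_compl_iff, h1]
    exact (h2.isCompact.image continuous_snd).isClosed
  have hV₀c : IsClosed V₀ := by
    have : V₀ = ⋂ b : ℤ_[p], (T (p * b)) ⁻¹' W := by
      ext z; simp [hV₀]
    rw [this]
    exact isClosed_iInter fun b => hW.isClosed.preimage (hTa _)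
  have hV₀W : V₀ ⊆ W := by
    intro z hz
    have := hz 0
    rwa [mul_zero, h0] at this
  have hV₀i : ∀ b : ℤ_[p], ∀ z ∈ V₀, T (p * b) z ∈ V₀ := by
    intro b z hz c
    rw [← hadd, ← mul_add]
    exact hz _
  -- shrink
  refine ⟨V₀ \ ⋃ j ∈ Finset.Ico 1 p, (T (-(j : ℤ_[p]))) ⁻¹' V₀, ?_, ?_, ?_, ?_⟩
  · apply IsClopen.diff ⟨hV₀c, hV₀o⟩
    apply isClopen_biUnion_finset
    intro j _
    exact ⟨hV₀c.preimage (hTa _), hV₀o.preimage (hTa _)⟩
  · refine ⟨fun b => hZW ⟨b, rfl⟩, ?_⟩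
    intro hmem
    obtain ⟨j, hj, hxj⟩ := mem_iUnion₂.mp hmem
    rw [Finset.mem_Ico] at hj
    have h1 : T (-(j : ℤ_[p])) x ∈ W := hV₀W hxj
    apply hWY h1
    refine mem_iUnion₂.mpr ⟨p - j, Finset.mem_Ico.mpr ⟨by omega, by omega⟩, T (p * (-1)) x,
      ⟨-1, rfl⟩, ?_⟩
    rw [← hadd]
    congr 1
    rw [Nat.cast_sub hj.2.le]
    ring
  · rintro b z ⟨hz, hzn⟩
    refine ⟨hV₀i b z hz, ?_⟩
    intro hmem
    apply hzn
    obtain ⟨j, hj, hzj⟩ := mem_iUnion₂.mp hmem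
    refine mem_iUnion₂.mpr ⟨j, hj, ?_⟩
    have h1 : T (p * (-b)) (T (-(j : ℤ_[p])) (T (p * b) z)) ∈ V₀ := hV₀i _ _ hzj
    rw [← hadd, ← hadd] at h1
    have h2 : (p : ℤ_[p]) * -b + -(j : ℤ_[p]) + p * b = -(j : ℤ_[p]) := by ring
    rwa [h2] at h1
  · rintro j hj0 hjp z ⟨hz, hzn⟩ ⟨hz', hzn'⟩
    apply hzn'
    refine mem_iUnion₂.mpr ⟨j, Finset.mem_Ico.mpr ⟨hj0, hjp⟩, ?_⟩
    rw [mem_preimage, hinv]
    exact hz

theorem exists_split [TotallyDisconnectedSpace K] {T : ℤ_[p] → K → K}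
    (hT : Continuous (fun q : ℤ_[p] × K => T q.1 q.2))
    (h0 : ∀ x, T 0 x = x) (hadd : ∀ a b x, T (a + b) x = T a (T b x))
    (hfix : ∀ x, ∃ a, T a x ≠ x) :
    ∃ A : Set K, IsClopen A ∧ (∀ x, ∃ i < p, ∃ z ∈ A, T (i : ℤ_[p]) z = x) ∧
      ∀ i < p, ∀ j < p, i ≠ j → ∀ z ∈ A, ∀ w ∈ A, T (i : ℤ_[p]) z ≠ T (j : ℤ_[p]) w := by
  classical
  have hTa : ∀ a, Continuous (T a) := fun a => hT.comp (continuous_const.prodMk continuous_id)
  have hinv : ∀ a z, T (-a) (T a z) = z := fun a z => by rw [← hadd, neg_add_cancel, h0]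
  have hinv' : ∀ a z, T a (T (-a) z) = z := fun a z => by rw [← hadd, add_neg_cancel, h0]
  choose V hVc hxV hVi hVd using exists_local hT h0 hadd hfix
  have key : ∀ S : Finset K, ∃ A : Set K, IsClopen A ∧
      (∀ b : ℤ_[p], ∀ z ∈ A, T (p * b) z ∈ A) ∧ (∀ j : ℕ, 0 < j → j < p → ∀ z ∈ A, T j z ∉ A) ∧
      ∀ x ∈ S, ∀ z ∈ V x, ∃ j < p, T (j : ℤ_[p]) z ∈ A := by
    intro S
    induction S using Finset.induction_on with
    | empty =>
      exact ⟨∅, isClopen_empty, by simp, by simp, by simp⟩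
    | insert x S hx ih =>
      obtain ⟨A, hAc, hAi, hAd, hAS⟩ := ih
      set O : Set K := {z | ∃ j < p, T (j : ℤ_[p]) z ∈ A} with hO
      have hOc : IsClopen O := by
        have : O = ⋃ j ∈ Finset.range p, (T (j : ℤ_[p])) ⁻¹' A := by
          ext z; simp [hO]
        rw [this]
        exact isClopen_biUnion_finset fun j _ =>
          ⟨hAc.isClosed.preimage (hTa _), hAc.isOpen.preimage (hTa _)⟩
      have hOi : ∀ c z, z ∈ O → T c z ∈ O := by
        rintro c z ⟨j, hj, hz⟩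
        obtain ⟨j', hj', b, hb⟩ := exists_digit ((j : ℤ_[p]) - c)
        refine ⟨j', hj', ?_⟩
        rw [← hadd]
        have h1 : (j' : ℤ_[p]) + c = p * (-b) + j := by
          have : (j : ℤ_[p]) = j' + p * b + c := by rw [← hb]; ring
          rw [this]; ring
        rw [h1, hadd]
        exact hAi _ _ hz
      have hAO : A ⊆ O := fun z hz => ⟨0, hp.out.pos, by simpa [h0] using hz⟩
      refine ⟨A ∪ (V x \ O), hAc.union ((hVc x).diff hOc), ?_, ?_, ?_⟩
      · rintro b z (hz | ⟨hz, hzn⟩)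
        · exact Or.inl (hAi b z hz)
        · refine Or.inr ⟨hVi x b z hz, fun hmem => hzn ?_⟩
          have := hOi (-(p * b)) _ hmem
          rwa [hinv] at this
      · rintro j hj0 hjp z (hz | ⟨hz, hzn⟩) (hz' | ⟨hz', hzn'⟩)
        · exact hAd j hj0 hjp z hz hz'
        · exact hzn' (hOi _ _ (hAO hz))
        · exact hzn ⟨j, hjp, hz'⟩
        · exact hVd x j hj0 hjp z hz hz'
      · intro x' hx' z hz
        rcases Finset.mem_insert.mp hx' with rfl | hx'
        · by_cases hzO : z ∈ O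
          · obtain ⟨j, hj, hjz⟩ := hzO
            exact ⟨j, hj, Or.inl hjz⟩
          · exact ⟨0, hp.out.pos, Or.inr (by rw [Nat.cast_zero, h0]; exact ⟨hz, hzO⟩)⟩
        · obtain ⟨j, hj, hjz⟩ := hAS x' hx' z hz
          exact ⟨j, hj, Or.inl hjz⟩
  obtain ⟨t, ht⟩ := isCompact_univ.elim_nhds_subcover V (fun x _ => (hVc x).isOpen.mem_nhds (hxV x))
  obtain ⟨A, hAc, hAi, hAd, hAS⟩ := key t
  refine ⟨A, hAc, ?_, ?_⟩
  · intro x
    obtain ⟨x', hx', hxx'⟩ := mem_iUnion₂.mp (ht.2 (mem_univ x))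
    obtain ⟨j, hj, hjz⟩ := hAS x' hx' x hxx'
    rcases Nat.eq_zero_or_pos j with rfl | hj0
    · refine ⟨0, hp.out.pos, T ((0 : ℕ) : ℤ_[p]) x, hjz, ?_⟩
      rw [Nat.cast_zero, h0, h0]
    · refine ⟨p - j, by omega, T (p * (-1)) (T (j : ℤ_[p]) x), hAi _ _ hjz, ?_⟩
      rw [← hadd, ← hadd, Nat.cast_sub hj.le]
      have : (p : ℤ_[p]) - j + p * -1 + j = 0 := by ring
      rw [this, h0]
  · have main : ∀ i j : ℕ, i < j → j < p → ∀ z ∈ A, ∀ w ∈ A, T (i : ℤ_[p]) z ≠ T (j : ℤ_[p]) w := by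
      intro i j hij hj z hz w hw heq
      have h1 : z = T ((j - i : ℕ) : ℤ_[p]) w := by
        rw [← hinv (i : ℤ_[p]) z, heq, ← hadd, Nat.cast_sub hij.le]
        congr 1
        ring
      rw [h1] at hz
      exact hAd (j - i) (by omega) (by omega) w hw hz
    intro i hi j hj hij z hz w hw heq
    rcases lt_or_gt_of_ne hij with h | h
    · exact main i j h hj z hz w hw heq
    · exact main j i h hi w hw z hz heq.symm

end split

end Pool.Agent.Helper3.HS
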