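import Pool.Agent.Helper3.HS.Deg4
import Pool.Agent.Helper3.HS.Split

/-!
# The degree of an invariant map is divisible by `p`
-/

set_option autoImplicit false
set_option linter.unusedSectionVars false
set_option linter.unusedVariables false

open Set MeasureTheory Metric Filter Topology
open scoped NNReal ENNReal Manifold Function

namespace Pool.Agent.Helper3.HS

variable {V : Type*} [NormedAddCommGroup V] [NormedSpace ℝ V] [FiniteDimensional ℝ V]
  [MeasurableSpace V] [BorelSpace V] (μ : Measure V) [μ.IsAddHaarMeasure]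

theorem exists_tietze {K : Set V} (hK : IsClosed K) {F : V → V} (hF : ContinuousOn F K) :
    ∃ G : V → V, Continuous G ∧ ∀ x ∈ K, G x = F x := by
  obtain ⟨g, hg⟩ := ContinuousMap.exists_restrict_eq hK
    ⟨fun x : K => F x, continuousOn_iff_continuous_domRestrict.mp hF⟩
  exact ⟨g, g.continuous, fun x hx => congrArg (fun f => f ⟨x, hx⟩) hg⟩

/-- Finitely many pairwise disjoint compact sets have pairwise disjoint open neighbourhoods. -/
theorem exists_disjoint_open {X : Type*} [TopologicalSpace X] [T2Space X] (n : ℕ)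
    {C : ℕ → Set X} (hC : ∀ i < n, IsCompact (C i))
    (hd : ∀ i < n, ∀ j < n, i ≠ j → Disjoint (C i) (C j)) :
    ∃ O : ℕ → Set X, (∀ i < n, IsOpen (O i)) ∧ (∀ i < n, C i ⊆ O i) ∧
      ∀ i < n, ∀ j < n, i ≠ j → Disjoint (O i) (O j) := by
  have hsep : ∀ i j : ℕ, ∃ A B : Set X, IsOpen A ∧ IsOpen B ∧
      (i < n → j < n → i ≠ j → C i ⊆ A ∧ C j ⊆ B ∧ Disjoint A B) := by
    intro i j
    by_cases h : i < n ∧ j < n ∧ i ≠ j
    · obtain ⟨A, B, hA, hB, h1, h2, h3⟩ :=
        (SeparatedNhds.of_isCompact_isCompact (hC i h.1) (hC j h.2.1) (hd i h.1 j h.2.1 h.2.2))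
      exact ⟨A, B, hA, hB, fun _ _ _ => ⟨h1, h2, h3⟩⟩
    · exact ⟨univ, univ, isOpen_univ, isOpen_univ, fun h1 h2 h3 => absurd ⟨h1, h2, h3⟩ h⟩
  choose A B hA hB hAB using hsep
  refine ⟨fun i => ⋂ j ∈ (Finset.range n).filter (fun j => j ≠ i), (A i j ∩ B j i), ?_, ?_, ?_⟩
  · intro i hi
    apply isOpen_biInter_finset
    intro j _
    exact (hA i j).inter (hB j i)
  · intro i hi
    apply subset_iInter₂
    intro j hj
    rw [Finset.mem_filter, Finset.mem_range] at hj
    exact subset_inter (hAB i j hi hj.1 hj.2.symm).1 (hAB j i hj.1 hi hj.2).2.1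
  · intro i hi j hj hij
    rw [Set.disjoint_left]
    intro x hx hx'
    have h1 := mem_iInter₂.mp hx j (by
      rw [Finset.mem_filter, Finset.mem_range]; exact ⟨hj, hij.symm⟩)
    have h2 := mem_iInter₂.mp hx' i (by
      rw [Finset.mem_filter, Finset.mem_range]; exact ⟨hi, hij⟩)
    exact Set.disjoint_left.mp (hAB i j hi hj hij).2.2 h1.1 h2.2

variable {p : ℕ} [hp : Fact p.Prime]

/-- **The core lemma.** If the `p`-adic integers act on the bounded open set `U` (by restrictions of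
injective maps of the connected set `Q`), the map `F` is invariant and the fibre of `F` over `y` is
totally disconnected and contains no fixed point, then the degree of `F` over `y` is divisible
by `p`. -/
theorem core {Q U : Set V} (hQ : IsOpen Q) (hQb : Bornology.IsBounded Q)
    (hQc : IsPreconnected Q) (hU : IsOpen U) (hUQ : U ⊆ Q) {T : ℤ_[p] → V → V}
    (hTc : ContinuousOn (fun q : ℤ_[p] × V => T q.1 q.2) (univ ×ˢ closure Q))
    (hTi : ∀ a, InjOn (T a) (closure Q)) (hTo : ∀ a, ∀ O ⊆ Q, IsOpen O → IsOpen (T a '' O))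
    (hTU : ∀ a, ∀ x ∈ U, T a x ∈ U) (hT0 : ∀ x ∈ U, T 0 x = x)
    (hTadd : ∀ a b, ∀ x ∈ U, T (a + b) x = T a (T b x)) {F : V → V}
    (hF : ContinuousOn F (closure U)) (hFT : ∀ a, ∀ x ∈ U, F (T a x) = F x) {y : V}
    (hfr : ∀ x ∈ frontier U, F x ≠ y)
    (htd : IsTotallyDisconnected {x | x ∈ U ∧ F x = y})
    (hfix : ∀ x ∈ U, F x = y → ∃ a, T a x ≠ x) {k : ℝ} (hk : HasDeg μ U F y k) :
    ∃ m : ℤ, k = p * m := by
  classical
  have : ProperSpace V := FiniteDimensional.proper ℝ V
  have hUb : Bornology.IsBounded U := hQb.subset hUQ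
  have hclU : IsCompact (closure U) := hUb.isCompact_closure
  have hclUQ : closure U ⊆ closure Q := closure_mono hUQ
  have hUcl : U ⊆ closure U := subset_closure
  set K : Set V := {x | x ∈ U ∧ F x = y} with hKdef
  have hKcl : K = closure U ∩ F ⁻¹' {y} := by
    ext x
    constructor
    · rintro ⟨h1, h2⟩; exact ⟨hUcl h1, h2⟩
    · rintro ⟨h1, h2⟩
      refine ⟨?_, h2⟩
      by_contra hn
      exact hfr x (by rw [hU.frontier_eq]; exact ⟨h1, hn⟩) h2
  have hKc : IsCompact K := by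
    rw [hKcl]
    exact hclU.of_isClosed_subset (hF.preimage_isClosed_of_isClosed isClosed_closure
      isClosed_singleton) inter_subset_left
  have hmemK : ∀ x ∈ closure U, F x = y → x ∈ K := fun x hx h => by
    rw [hKcl]; exact ⟨hx, h⟩
  have hTK : ∀ a, ∀ x ∈ K, T a x ∈ K := fun a x hx =>
    ⟨hTU a x hx.1, by rw [hFT a x hx.1]; exact hx.2⟩
  -- the empty fibre
  rcases K.eq_empty_or_nonempty with hKe | hKne
  · have h0 := HasDeg.zero μ hU hUb hF (y := y) (fun x hx heq => by
      have := hmemK x hx heq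
      rw [hKe] at this
      exact this)
    refine ⟨0, ?_⟩
    rw [HasDeg.unique μ hU hUb (hF.mono frontier_subset_closure) hk h0]
    simp
  -- apply the splitting lemma
  have hKcs : CompactSpace K := isCompact_iff_compactSpace.mp hKc
  have hKtd : TotallyDisconnectedSpace K := totallyDisconnectedSpace_subtype_iff.mpr htd
  set TK : ℤ_[p] → K → K := fun a x => ⟨T a x, hTK a x x.2⟩ with hTKdef
  have hTKc : Continuous (fun q : ℤ_[p] × K => TK q.1 q.2) := by
    apply Continuous.subtype_mk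
    have h1 : Continuous (fun q : ℤ_[p] × K => ((q.1, (q.2 : V)) : ℤ_[p] × V)) := by fun_prop
    exact hTc.comp_continuous h1 (fun q => ⟨mem_univ _, hclUQ (hUcl q.2.2.1)⟩)
  obtain ⟨A, hAc, hAcov, hAd⟩ := exists_split hTKc
    (fun x => Subtype.ext (hT0 x x.2.1)) (fun a b x => Subtype.ext (hTadd a b x x.2.1))
    (fun x => by
      obtain ⟨a, ha⟩ := hfix x x.2.1 x.2.2
      exact ⟨a, fun h => ha (congrArg Subtype.val h)⟩)
  set A' : Set V := Subtype.val '' A with hA'
  have hA'K : A' ⊆ K := by rintro _ ⟨x, -, rfl⟩; exact x.2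
  have hA'c : IsCompact A' := (hAc.isClosed.isCompact).image continuous_subtype_val
  have hTaK : ∀ a, ContinuousOn (T a) (closure Q) := by
    intro a
    have h1 : Continuous (fun x : V => ((a, x) : ℤ_[p] × V)) := by fun_prop
    exact hTc.comp h1.continuousOn (fun x hx => ⟨mem_univ _, hx⟩)
  set C : ℕ → Set V := fun i => T (i : ℤ_[p]) '' A' with hC
  have hCc : ∀ i < p, IsCompact (C i) := fun i _ =>
    hA'c.image_of_continuousOn ((hTaK i).mono fun x hx => hclUQ (hUcl (hA'K hx).1))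
  have hCd : ∀ i < p, ∀ j < p, i ≠ j → Disjoint (C i) (C j) := by
    intro i hi j hj hij
    rw [Set.disjoint_left]
    rintro _ ⟨_, ⟨z, hz, rfl⟩, rfl⟩ ⟨_, ⟨w, hw, rfl⟩, hzw⟩
    exact hAd i hi j hj hij z hz w hw (Subtype.ext hzw.symm)
  have hCcov : ∀ x ∈ K, ∃ i < p, x ∈ C i := by
    intro x hx
    obtain ⟨i, hi, z, hz, hzx⟩ := hAcov ⟨x, hx⟩
    exact ⟨i, hi, z, ⟨z, hz, rfl⟩, congrArg Subtype.val hzx⟩
  obtain ⟨O, hOo, hCO, hOd⟩ := exists_disjoint_open p hCc hCd
  have hTUo : ∀ i : ℕ, ContinuousOn (T (i : ℤ_[p])) U := fun i =>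
    (hTaK i).mono (hUQ.trans subset_closure)
  -- the fundamental open set
  set N : Set V := ⋂ i ∈ Finset.range p, (U ∩ T (i : ℤ_[p]) ⁻¹' (O i)) with hN
  have hNo : IsOpen N := by
    apply isOpen_biInter_finset
    intro i hi
    exact (hTUo i).isOpen_inter_preimage hU (hOo i (Finset.mem_range.mp hi))
  have hA'N : A' ⊆ N := by
    intro x hx
    apply mem_iInter₂.mpr
    intro i hi
    exact ⟨(hA'K hx).1, hCO i (Finset.mem_range.mp hi) ⟨x, hx, rfl⟩⟩
  have hNmem : ∀ x ∈ N, ∀ i < p, x ∈ U ∧ T (i : ℤ_[p]) x ∈ O i := fun x hx i hi =>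
    mem_iInter₂.mp hx i (Finset.mem_range.mpr hi)
  obtain ⟨Z, hZc, hA'Z, hZN⟩ := exists_compact_between hA'c hNo hA'N
  set U₀ : Set V := interior Z with hU₀
  have hU₀o : IsOpen U₀ := isOpen_interior
  have hU₀cl : closure U₀ ⊆ N :=
    (closure_minimal interior_subset hZc.isClosed).trans hZN
  have hNU : N ⊆ U := fun x hx => (hNmem x hx 0 hp.out.pos).1
  have hU₀U : U₀ ⊆ U := subset_closure.trans (hU₀cl.trans hNU)
  have hU₀b : Bornology.IsBounded U₀ := hUb.subset hU₀U
  have hKU₀ : ∀ x ∈ closure U₀, F x = y → x ∈ A' := by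
    intro x hx heq
    have hxN := hU₀cl hx
    obtain ⟨j, hj, hxj⟩ := hCcov x ⟨hNU hxN, heq⟩
    have h1 : x ∈ O 0 := by
      have := (hNmem x hxN 0 hp.out.pos).2
      rwa [Nat.cast_zero, hT0 x (hNU hxN)] at this
    have h2 : x ∈ O j := hCO j hj hxj
    have hj0 : j = 0 := by
      by_contra hne
      exact Set.disjoint_left.mp (hOd j hj 0 hp.out.pos hne) h2 h1
    subst hj0
    obtain ⟨z, hz, hzx⟩ := hxj
    rw [Nat.cast_zero, hT0 z (hA'K hz).1] at hzx
    rwa [← hzx]
  set W : ℕ → Set V := fun i => T (i : ℤ_[p]) '' U₀ with hW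
  have hWo : ∀ i, IsOpen (W i) := fun i => hTo i U₀ (hU₀U.trans hUQ) hU₀o
  have hWU : ∀ i, W i ⊆ U := by
    rintro i _ ⟨x, hx, rfl⟩; exact hTU _ x (hU₀U hx)
  have hWb : ∀ i, Bornology.IsBounded (W i) := fun i => hUb.subset (hWU i)
  have hWO : ∀ i < p, W i ⊆ O i := by
    rintro i hi _ ⟨x, hx, rfl⟩
    exact (hNmem x (hU₀cl (subset_closure hx)) i hi).2
  have hCW : ∀ i, C i ⊆ W i := fun i => image_mono hA'Z
  have hWfr : ∀ i < p, ∀ x ∈ frontier (W i), F x ≠ y := by
    intro i hi x hx heq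
    have hxK : x ∈ K := hmemK x (closure_mono (hWU i) (frontier_subset_closure hx)) heq
    obtain ⟨j, hj, hxj⟩ := hCcov x hxK
    have hxW : x ∈ W j := hCW j hxj
    by_cases hij : j = i
    · subst hij
      rw [(hWo j).frontier_eq] at hx
      exact hx.2 hxW
    · have hdis : Disjoint (W j) (W i) := (hOd j hj i hi hij).mono (hWO j hj) (hWO i hi)
      exact Set.disjoint_left.mp (hdis.closure_right (hWo j)) hxW (frontier_subset_closure hx)
  have hex : ∀ i, ∃ κ : ℝ, i < p → HasDeg μ (W i) F y κ := by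
    intro i
    by_cases hi : i < p
    · obtain ⟨κ, hκ⟩ := HasDeg.exists μ (hWo i) (hWb i) (F := F)
        (hF.mono (frontier_subset_closure.trans (closure_mono (hWU i)))) (hWfr i hi)
      exact ⟨κ, fun _ => hκ⟩
    · exact ⟨0, fun h => absurd h hi⟩
  choose κ hκ using hex
  have hsum := HasDeg.sum μ (Finset.range p) hU hUb (W := W) (fun i _ => hWo i) (fun i _ => hWU i)
    (by
      intro i hi j hj hij
      simp only [Finset.coe_range, mem_Iio] at hi hj
      exact (hOd i hi j hj hij).mono (hWO i hi) (hWO j hj)) hF (y := y)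
    (fun x hx heq => by
      obtain ⟨i, hi, hxi⟩ := hCcov x (hmemK x hx heq)
      exact ⟨i, Finset.mem_range.mpr hi, hCW i hxi⟩) (k := κ)
    (fun i hi => hκ i (Finset.mem_range.mp hi))
  have hkeq := HasDeg.unique μ hU hUb (hF.mono frontier_subset_closure) hk hsum
  -- global extensions
  obtain ⟨Fg, hFg, hFgeq⟩ := exists_tietze isClosed_closure hF
  have hgex : ∀ a : ℤ_[p], ∃ g : V → V, Continuous g ∧ ∀ x ∈ closure Q, g x = T a x := fun a =>
    exists_tietze isClosed_closure (hTaK a)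
  choose g hgc hgeq using hgex
  obtain ⟨x₀, hx₀⟩ := hKne
  have hQn : Q.Nonempty := ⟨x₀, hUQ hx₀.1⟩
  have hQcl : Q ⊆ closure Q := subset_closure
  have hgim : ∀ a, ∀ O ⊆ Q, g a '' O = T a '' O := fun a O hO =>
    image_congr fun x hx => hgeq a x (hQcl (hO hx))
  have hsign : ∀ a : ℤ_[p], ∃ s : ℝ, (s = 1 ∨ s = -1) ∧ ∀ U' ⊆ Q, IsOpen U' → ∀ x ∈ U',
      HasDeg μ U' (g a) (g a x) s := by
    intro a
    apply exists_sign μ hQ hQb hQc hQn (hgc a)
    · intro x hx z hz h
      rw [hgeq a x hx, hgeq a z hz] at h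
      exact hTi a hx hz h
    · rw [hgim a Q Subset.rfl]
      exact hTo a Q Subset.rfl hQ
  choose s hs1 hs using hsign
  -- comparison of the degrees on the pieces
  have hW0 : W 0 = U₀ := by
    have : ∀ x ∈ U₀, T ((0 : ℕ) : ℤ_[p]) x = x := fun x hx => by
      rw [Nat.cast_zero]; exact hT0 x (hU₀U hx)
    ext x
    constructor
    · rintro ⟨z, hz, rfl⟩
      rw [this z hz]; exact hz
    · intro hx
      exact ⟨x, hx, this x hx⟩
  have hκ0 : HasDeg μ U₀ F y (κ 0) := by
    have := hκ 0 hp.out.pos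
    rwa [hW0] at this
  have hκs : ∀ i < p, κ 0 = s i * κ i := by
    intro i hi
    have hcomp := HasDeg.comp μ hU₀o hU₀b (hWo i) (hWb i) (hgc i) hFg (y := y) (s := s i)
      (k := κ i)
      (fun x hx heq => by
        have hxU : x ∈ U := hNU (hU₀cl hx)
        rw [hgeq i x (hQcl (hUQ hxU)), hFgeq _ (hUcl (hTU _ x hxU)), hFT _ x hxU] at heq
        rw [hgeq i x (hQcl (hUQ hxU))]
        exact ⟨x, hA'Z (hKU₀ x hx heq), rfl⟩)
      (fun x hx heq => by
        have hx' := frontier_subset_closure hx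
        have hxU : x ∈ U := hNU (hU₀cl hx')
        rw [hgeq i x (hQcl (hUQ hxU)), hFgeq _ (hUcl (hTU _ x hxU)), hFT _ x hxU] at heq
        rw [hU₀o.frontier_eq] at hx
        exact hx.2 (hA'Z (hKU₀ x hx' heq)))
      (fun z hz _ => by
        obtain ⟨x, hx, rfl⟩ := hz
        have := hs i U₀ (hU₀U.trans hUQ) hU₀o x hx
        rwa [hgeq i x (hQcl (hUQ (hU₀U hx)))] at this)
      ((hκ i hi).congr μ fun x hx => (hFgeq x (closure_mono (hWU i)
        (frontier_subset_closure hx))).symm)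
    have hcomp' := hcomp.congr μ (F' := F) (fun x hx => by
      have hxU : x ∈ U := hNU (hU₀cl (frontier_subset_closure hx))
      rw [hgeq i x (hQcl (hUQ hxU)), hFgeq _ (hUcl (hTU _ x hxU)), hFT _ x hxU])
    exact HasDeg.unique μ hU₀o hU₀b (hF.mono (frontier_subset_closure.trans
      (closure_mono hU₀U))) hκ0 hcomp'
  obtain ⟨m, hm⟩ := HasDeg.int μ hU₀o hU₀b (hF.mono (frontier_subset_closure.trans
      (closure_mono hU₀U))) hκ0
  have hκm : ∀ i < p, κ i = s i * m := by
    intro i hi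
    rw [← hm, hκs i hi]
    rcases hs1 i with h | h <;> rw [h] <;> ring
  rw [hkeq]
  rcases hp.out.eq_two_or_odd' with h2 | hodd
  · -- `p = 2`
    have hsum2 : ∑ i ∈ Finset.range p, κ i = κ 0 + κ 1 := by
      have : Finset.range p = Finset.range 2 := by rw [h2]
      rw [this, Finset.sum_range_succ, Finset.sum_range_one]
    rw [hsum2, hκm 0 hp.out.pos, hκm 1 hp.out.one_lt]
    have hs0 : s ((0 : ℕ) : ℤ_[p]) = 1 := by
      have h1 := hs ((0 : ℕ) : ℤ_[p]) U hUQ hU x₀ hx₀.1
      have h3 : g ((0 : ℕ) : ℤ_[p]) x₀ = x₀ := by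
        rw [hgeq _ x₀ (hQcl (hUQ hx₀.1)), Nat.cast_zero, hT0 x₀ hx₀.1]
      rw [h3] at h1
      have h4 := h1.congr μ (F' := fun x => x) (fun x hx => by
        have hx' : x ∈ closure U := frontier_subset_closure hx
        rw [hgeq _ x (hclUQ hx'), Nat.cast_zero]
        -- by continuity
        have hc1 : ContinuousOn (T (0 : ℤ_[p])) (closure U) := (hTaK 0).mono hclUQ
        have hc2 : EqOn (T (0 : ℤ_[p])) (fun x => x) (closure U) :=
          EqOn.of_subset_closure (fun x hx => hT0 x hx) hc1 continuousOn_id hUcl Subset.rfl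
        exact hc2 hx')
      exact HasDeg.unique μ hU hUb continuousOn_id h4 (HasDeg.id μ hU hUb hx₀.1)
    rw [hs0]
    rcases hs1 ((1 : ℕ) : ℤ_[p]) with h | h
    · exact ⟨m, by rw [h, h2]; push_cast; ring⟩
    · exact ⟨0, by rw [h]; push_cast; ring⟩
  · -- `p` odd
    have hunit : IsUnit (2 : ℤ_[p]) := by
      have h1 := isUnit_sub (p := p) (j := 2) (by norm_num) (by
        rcases hodd with ⟨q, hq⟩
        have := hp.out.two_le
        omega) 0
      simpa using h1
    obtain ⟨w, hw⟩ := hunit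
    have hsone : ∀ i < p, s i = 1 := by
      intro i hi
      set h : ℤ_[p] := i * (w⁻¹ : (ℤ_[p])ˣ) with hh
      have hhh : h + h = i := by
        rw [hh, ← mul_two, mul_assoc, ← hw, Units.inv_mul, mul_one]
      -- a small neighbourhood
      obtain ⟨r, hr, hrU⟩ := Metric.nhds_basis_closedBall.mem_iff.mp (hU.mem_nhds hx₀.1)
      set B : Set V := ball x₀ r with hB
      have hBU : closure B ⊆ U := (closure_ball_subset_closedBall).trans hrU
      have hBo : IsOpen B := isOpen_ball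
      have hBb : Bornology.IsBounded B := isBounded_ball
      have hBUs : B ⊆ U := subset_closure.trans hBU
      have hxB : x₀ ∈ B := mem_ball_self hr
      have hTB : T h '' B ⊆ U := by rintro _ ⟨x, hx, rfl⟩; exact hTU _ x (hBUs hx)
      have hgT : ∀ x ∈ U, g h x = T h x := fun x hx => hgeq h x (hQcl (hUQ hx))
      have hgg : ∀ x ∈ U, g h (g h x) = T (i : ℤ_[p]) x := by
        intro x hx
        rw [hgT x hx, hgT _ (hTU _ x hx), ← hTadd h h x hx, hhh]
      have hcomp := HasDeg.comp μ hBo hBb (hTo h B (hBUs.trans hUQ) hBo) (hUb.subset hTB)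
        (hgc h) (hgc h) (y := T (i : ℤ_[p]) x₀) (s := s h) (k := s h)
        (fun x hx heq => by
          have hxU := hBU hx
          rw [hgg x hxU] at heq
          have := hTi _ (hQcl (hUQ hxU)) (hQcl (hUQ hx₀.1)) heq
          rw [this, hgT x₀ hx₀.1]
          exact ⟨x₀, hxB, rfl⟩)
        (fun x hx heq => by
          have hxU := hBU (frontier_subset_closure hx)
          rw [hgg x hxU] at heq
          have := hTi _ (hQcl (hUQ hxU)) (hQcl (hUQ hx₀.1)) heq
          rw [hBo.frontier_eq] at hx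
          exact hx.2 (this ▸ hxB))
        (fun z hz _ => by
          obtain ⟨x, hx, rfl⟩ := hz
          have := hs h B (hBUs.trans hUQ) hBo x hx
          rwa [hgT x (hBUs hx)] at this)
        (by
          have := hs h (T h '' B) (hTB.trans hUQ) (hTo h B (hBUs.trans hUQ) hBo) (T h x₀)
            ⟨x₀, hxB, rfl⟩
          rwa [← hgT x₀ hx₀.1, hgg x₀ hx₀.1] at this)
      have hcomp' := hcomp.congr μ (F' := g (i : ℤ_[p])) (fun x hx => by
        have hxU := hBU (frontier_subset_closure hx)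
        rw [hgg x hxU, hgeq _ x (hQcl (hUQ hxU))])
      have hsi := hs (i : ℤ_[p]) B (hBUs.trans hUQ) hBo x₀ hxB
      rw [hgeq _ x₀ (hQcl (hUQ hx₀.1))] at hsi
      have := HasDeg.unique μ hBo hBb (hgc _).continuousOn hsi hcomp'
      rw [this]
      rcases hs1 h with h' | h' <;> rw [h'] <;> norm_num
    refine ⟨m, ?_⟩
    rw [Finset.sum_congr rfl (fun i hi => by
      rw [hκm i (Finset.mem_range.mp hi), hsone i (Finset.mem_range.mp hi), one_mul]),
      Finset.sum_const, Finset.card_range, nsmul_eq_mul]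

end Pool.Agent.Helper3.HS
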