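import Pool.Agent.Helper4.MKT.Weight
import Mathlib.Geometry.Manifold.SmoothApprox
import Mathlib.Geometry.Manifold.PartitionOfUnity
import Mathlib.Analysis.Complex.Tietze

/-!
# Degree theory, part 1: the degree integral of a smooth map
-/

set_option autoImplicit false
set_option linter.unusedSectionVars false
set_option linter.unusedVariables false

open Set MeasureTheory Metric Filter Topology
open scoped NNReal ENNReal Manifold

namespace Pool.Agent.Helper3.HS

open Pool.Agent.Helper4.MKT

variable {V : Type*} [NormedAddCommGroup V] [NormedSpace ℝ V] [FiniteDimensional ℝ V]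
  [MeasurableSpace V] [BorelSpace V] (μ : Measure V) [μ.IsAddHaarMeasure]

/-- The degree integral. -/
noncomputable def dint (U : Set V) (G : V → V) (φ : V → ℝ) : ℝ :=
  ∫ x in U, φ (G x) * (fderiv ℝ G x).det ∂μ

/-- A smooth cutoff function which is one near the compact set `C` and has support in `U`. -/
theorem exists_cutoff {C U : Set V} (hC : IsCompact C) (hU : IsOpen U) (hCU : C ⊆ U) :
    ∃ (χ : V → ℝ) (S : Set V), ContDiff ℝ 1 χ ∧ IsCompact S ∧ S ⊆ U ∧
      (∀ x ∈ C, ∀ᶠ y in 𝓝 x, χ y = 1) ∧ (∀ x ∉ S, χ x = 0) ∧ ∀ x, χ x ∈ Icc (0 : ℝ) 1 := by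
  have : ProperSpace V := FiniteDimensional.proper ℝ V
  obtain ⟨S, hS, hCS, hSU⟩ := exists_compact_between hC hU hCU
  obtain ⟨f, h1, h2, h3⟩ := exists_contMDiffMap_one_nhds_of_subset_interior (n := 1) 𝓘(ℝ, V)
    hC.isClosed hCS
  refine ⟨f, S, f.contMDiff.contDiff, hS, hSU, ?_, h2, h3⟩
  intro x hx
  exact (eventually_nhdsSet_iff_forall.mp h1) x hx

theorem contDiff_locallyLipschitzOn {G : V → V} (h : ContDiff ℝ 1 G) (O : Set V) :
    LocallyLipschitzOn O G :=
  (h.locallyLipschitz).locallyLipschitzOn

/-- Homotopy invariance of the degree integral. -/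
theorem dint_homotopy {U : Set V} (hU : IsOpen U) (hUb : Bornology.IsBounded U) {G₀ G₁ : V → V}
    (h0 : ContDiff ℝ 1 G₀) (h1 : ContDiff ℝ 1 G₁) {B : Set V} (hB : IsClosed B)
    (hseg : ∀ x ∈ frontier U, ∀ t ∈ Icc (0 : ℝ) 1, (1 - t) • G₀ x + t • G₁ x ∉ B)
    {φ : V → ℝ} (hφ : Measurable φ) {c : ℝ} (hc : ∀ x, |φ x| ≤ c) (hsupp : ∀ x ∉ B, φ x = 0) :
    dint μ U G₁ φ = dint μ U G₀ φ := by
  have : ProperSpace V := FiniteDimensional.proper ℝ V
  have hcl : IsCompact (closure U) := hUb.isCompact_closure
  -- the compact set where the homotopy meets `B`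
  set P : Set (V × ℝ) := (closure U ×ˢ Icc (0 : ℝ) 1) ∩
    {p | (1 - p.2) • G₀ p.1 + p.2 • G₁ p.1 ∈ B} with hP
  have hPc : IsCompact P := by
    apply (hcl.prod isCompact_Icc).inter_right
    apply hB.preimage
    have := h0.continuous
    have := h1.continuous
    fun_prop
  set C : Set V := Prod.fst '' P with hCdef
  have hCc : IsCompact C := hPc.image continuous_fst
  have hCU : C ⊆ U := by
    rintro x ⟨⟨x', t⟩, ⟨⟨hx, ht⟩, hb⟩, rfl⟩
    by_contra hxU
    have hf : x' ∈ frontier U := by
      rw [hU.frontier_eq]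
      exact ⟨hx, hxU⟩
    exact hseg x' hf t ht hb
  obtain ⟨χ, S, hχ, hS, hSU, hχ1, hχ0, hχI⟩ := exists_cutoff hCc hU hCU
  set H : V → V := fun x => G₀ x + χ x • (G₁ x - G₀ x) with hH
  have hHc : ContDiff ℝ 1 H := h0.add (hχ.smul (h1.sub h0))
  have key : dint μ U H φ = dint μ U G₀ φ := by
    have e := nl_weight_local μ hU hS hSU (contDiff_locallyLipschitzOn h0 U)
      (contDiff_locallyLipschitzOn hHc U) (fun x hx => by
        simp only [hH, hχ0 x hx.2, zero_smul, add_zero]) hφ hc
    have hout : ∀ x ∈ U \ S, φ (H x) * (fderiv ℝ H x).det = φ (G₀ x) * (fderiv ℝ G₀ x).det := by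
      intro x hx
      have hev : H =ᶠ[𝓝 x] G₀ := by
        filter_upwards [hS.isClosed.isOpen_compl.mem_nhds hx.2] with y hy
        simp only [hH, hχ0 y hy, zero_smul, add_zero]
      rw [hev.fderiv_eq, hev.eq_of_nhds]
    have hcongr : ∀ x ∉ S, x ∈ U → φ (H x) * (fderiv ℝ H x).det -
        φ (G₀ x) * (fderiv ℝ G₀ x).det = 0 := by
      intro x hx hxU
      rw [hout x ⟨hxU, hx⟩, sub_self]
    have hb : ∀ {G : V → V}, ContDiff ℝ 1 G →
        IntegrableOn (fun x => φ (G x) * (fderiv ℝ G x).det) U μ := by
      intro G hG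
      have hcont : Continuous fun x => (fderiv ℝ G x).det :=
        ContinuousLinearMap.continuous_det.comp (hG.continuous_fderiv one_ne_zero)
      obtain ⟨M, hM⟩ := hcl.exists_bound_of_continuousOn hcont.continuousOn
      apply Measure.integrableOn_of_bounded hUb.measure_lt_top.ne (M := c * M)
      · exact ((hφ.comp hG.continuous.measurable).mul hcont.measurable).aestronglyMeasurable
      · filter_upwards [ae_restrict_mem hU.measurableSet] with x hx
        rw [norm_mul, Real.norm_eq_abs]
        exact mul_le_mul (hc _) (hM x (subset_closure hx)) (norm_nonneg _)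
          ((abs_nonneg _).trans (hc 0))
    unfold dint
    rw [← sub_eq_zero, ← integral_sub (hb hHc) (hb h0)]
    rw [setIntegral_eq_of_subset_of_forall_sdiff_eq_zero hU.measurableSet hSU
      (fun x hx => hcongr x hx.2 hx.1)]
    rw [integral_sub ((hb hHc).mono_set hSU) ((hb h0).mono_set hSU), e, sub_self]
  rw [← key]
  unfold dint
  apply setIntegral_congr_fun hU.measurableSet
  intro x hx
  simp only
  by_cases hxC : x ∈ C
  · have hev : H =ᶠ[𝓝 x] G₁ := by
      filter_upwards [hχ1 x hxC] with y hy
      simp only [hH, hy, one_smul, add_sub_cancel]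
    rw [hev.fderiv_eq, hev.eq_of_nhds]
  · have hnot : ∀ t ∈ Icc (0 : ℝ) 1, (1 - t) • G₀ x + t • G₁ x ∉ B := by
      intro t ht hb
      exact hxC ⟨(x, t), ⟨⟨subset_closure hx, ht⟩, hb⟩, rfl⟩
    have e1 : φ (G₁ x) = 0 := by
      apply hsupp
      have := hnot 1 ⟨zero_le_one, le_rfl⟩
      simpa using this
    have e2 : φ (H x) = 0 := by
      apply hsupp
      have := hnot (χ x) (hχI x)
      have e3 : H x = (1 - χ x) • G₀ x + χ x • G₁ x := by
        simp only [hH]
        module
      rwa [e3]
    rw [e1, e2, zero_mul, zero_mul]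

theorem integrableOn_dint {U : Set V} (hU : MeasurableSet U) (hUb : Bornology.IsBounded U)
    {G : V → V} (hG : ContDiff ℝ 1 G) {φ : V → ℝ} (hφ : Measurable φ) {c : ℝ}
    (hc : ∀ x, |φ x| ≤ c) :
    IntegrableOn (fun x => φ (G x) * (fderiv ℝ G x).det) U μ := by
  have : ProperSpace V := FiniteDimensional.proper ℝ V
  have hcl : IsCompact (closure U) := hUb.isCompact_closure
  have hcont : Continuous fun x => (fderiv ℝ G x).det :=
    ContinuousLinearMap.continuous_det.comp (hG.continuous_fderiv one_ne_zero)
  obtain ⟨M, hM⟩ := hcl.exists_bound_of_continuousOn hcont.continuousOn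
  apply Measure.integrableOn_of_bounded hUb.measure_lt_top.ne (M := c * M)
  · exact ((hφ.comp hG.continuous.measurable).mul hcont.measurable).aestronglyMeasurable
  · filter_upwards [ae_restrict_mem hU] with x hx
    rw [norm_mul, Real.norm_eq_abs]
    exact mul_le_mul (hc _) (hM x (subset_closure hx)) (norm_nonneg _)
      ((abs_nonneg _).trans (hc 0))

/-- The degree integral is proportional to the integral of the test function. -/
theorem dint_symm {U : Set V} (hU : IsOpen U) (hUb : Bornology.IsBounded U) {G : V → V}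
    (hG : ContDiff ℝ 1 G) {y : V} {ε : ℝ} (hε : 0 < ε)
    (hfr : ∀ x ∈ frontier U, 2 * ε < dist (G x) y)
    {φ ψ : V → ℝ} (hφ : Measurable φ) (hψ : Measurable ψ) {c : ℝ} (hc : ∀ x, |φ x| ≤ c)
    (hc' : ∀ x, |ψ x| ≤ c) (hφ0 : ∀ x ∉ closedBall y ε, φ x = 0)
    (hψ0 : ∀ x ∉ closedBall y ε, ψ x = 0) :
    dint μ U G φ * ∫ x, ψ x ∂μ = dint μ U G ψ * ∫ x, φ x ∂μ := by
  have : ProperSpace V := FiniteDimensional.proper ℝ V
  have hcl : IsCompact (closure U) := hUb.isCompact_closure
  -- translation invariance
  have trans : ∀ {η : V → ℝ}, Measurable η → (∀ x, |η x| ≤ c) →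
      (∀ x ∉ closedBall y ε, η x = 0) → ∀ a : V, ‖a‖ ≤ ε →
      ∫ x in U, η (G x - a) * (fderiv ℝ G x).det ∂μ = dint μ U G η := by
    intro η hη hηc hη0 a ha
    have h1 : ContDiff ℝ 1 (fun x => G x - a) := hG.sub contDiff_const
    have := dint_homotopy μ hU hUb hG h1 (B := closedBall y ε) isClosed_closedBall
      (by
        intro x hx t ht hmem
        have h2 := hfr x hx
        rw [mem_closedBall] at hmem
        have h3 : (1 - t) • G x + t • (G x - a) = G x - t • a := by module
        rw [h3] at hmem
        have h4 : dist (G x) (G x - t • a) ≤ ε := by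
          rw [dist_eq_norm, sub_sub_cancel, norm_smul, Real.norm_of_nonneg ht.1]
          calc t * ‖a‖ ≤ 1 * ε := by
                apply mul_le_mul ht.2 ha (norm_nonneg _) zero_le_one
            _ = ε := one_mul _
        have h5 := dist_triangle (G x) (G x - t • a) y
        linarith) hη hηc hη0
    rw [← this]
    unfold dint
    congr 1
    funext x
    rw [fderiv_sub_const]
  set D : V → ℝ := fun x => (fderiv ℝ G x).det with hD
  have hcont : Continuous D :=
    ContinuousLinearMap.continuous_det.comp (hG.continuous_fderiv one_ne_zero)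
  obtain ⟨M, hM⟩ := hcl.exists_bound_of_continuousOn hcont.continuousOn
  have hc0 : 0 ≤ c := (abs_nonneg _).trans (hc 0)
  -- Fubini
  have fub : ∀ {η θ : V → ℝ}, Measurable η → (∀ x, |η x| ≤ c) →
      (∀ x ∉ closedBall y ε, η x = 0) → Measurable θ → (∀ x, |θ x| ≤ c) →
      (∀ x ∉ closedBall y ε, θ x = 0) →
      dint μ U G η * ∫ x, θ x ∂μ =
        ∫ x in U, (∫ a, θ (y + a) * η (G x - a) ∂μ) * D x ∂μ := by
    intro η θ hη hηc hη0 hθ hθc hθ0
    have e1 : ∫ x, θ x ∂μ = ∫ a, θ (y + a) ∂μ := (integral_add_left_eq_self θ y).symm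
    rw [e1, ← integral_const_mul]
    have e2 : ∀ a, dint μ U G η * θ (y + a) =
        ∫ x in U, θ (y + a) * η (G x - a) * D x ∂μ := by
      intro a
      by_cases ha : ‖a‖ ≤ ε
      · rw [← trans hη hηc hη0 a ha, mul_comm, ← integral_const_mul]
        congr 1
        funext x
        ring
      · have : θ (y + a) = 0 := by
          apply hθ0
          rw [mem_closedBall, dist_eq_norm, add_sub_cancel_left]
          exact ha
        rw [this]
        simp
    simp_rw [e2]
    rw [integral_integral_swap]
    · congr 1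
      funext x
      rw [integral_mul_const]
    · -- integrability on the product
      have hsub : Function.support (fun p : V × V => θ (y + p.1) * η (G p.2 - p.1) * D p.2) ⊆
          closedBall 0 ε ×ˢ univ := by
        intro p hp
        rw [Function.mem_support] at hp
        refine ⟨?_, mem_univ _⟩
        by_contra hn
        apply hp
        have : θ (y + p.1) = 0 := by
          apply hθ0
          rw [mem_closedBall, dist_eq_norm, add_sub_cancel_left]
          rwa [mem_closedBall, dist_zero_right] at hn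
        rw [this, zero_mul, zero_mul]
      have hmeas : Measurable (fun p : V × V => θ (y + p.1) * η (G p.2 - p.1) * D p.2) := by
        apply Measurable.mul
        · apply Measurable.mul
          · exact hθ.comp (measurable_const.add measurable_fst)
          · exact hη.comp ((hG.continuous.measurable.comp measurable_snd).sub measurable_fst)
        · exact hcont.measurable.comp measurable_snd
      have h3 : IntegrableOn (fun p : V × V => θ (y + p.1) * η (G p.2 - p.1) * D p.2)
          (closedBall 0 ε ×ˢ univ) (μ.prod (μ.restrict U)) := by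
        apply Measure.integrableOn_of_bounded (M := c * c * M)
        · rw [Measure.prod_prod, Measure.restrict_apply_univ]
          exact ENNReal.mul_ne_top measure_closedBall_lt_top.ne hUb.measure_lt_top.ne
        · exact hmeas.aestronglyMeasurable
        · have h4 : ∀ᵐ p ∂(μ.prod (μ.restrict U)), p.2 ∈ U := by
            have : (univ : Set V) ×ˢ U ∈ ae (μ.prod (μ.restrict U)) := by
              rw [mem_ae_iff]
              have : ((univ : Set V) ×ˢ U)ᶜ = univ ×ˢ Uᶜ := by
                ext p; simp
              rw [this, Measure.prod_prod, Measure.restrict_apply hU.measurableSet.compl,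
                compl_inter_self, measure_empty, mul_zero]
            filter_upwards [this] with p hp
            exact hp.2
          filter_upwards [ae_restrict_of_ae h4] with p hp
          rw [norm_mul, norm_mul, Real.norm_eq_abs, Real.norm_eq_abs]
          exact mul_le_mul (mul_le_mul (hθc _) (hηc _) (abs_nonneg _) hc0)
            (hM _ (subset_closure hp)) (norm_nonneg _) (by positivity)
      rwa [integrableOn_iff_integrable_of_support_subset hsub] at h3
  rw [fub hφ hc hφ0 hψ hc' hψ0, fub hψ hc' hψ0 hφ hc hφ0]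
  congr 1
  funext x
  congr 1
  rw [← integral_sub_left_eq_self (fun a => φ (y + a) * ψ (G x - a)) μ (G x - y)]
  congr 1
  funext a
  have h1 : y + (G x - y - a) = G x - a := by abel
  have h2 : G x - (G x - y - a) = y + a := by abel
  rw [h1, h2, mul_comm]

end Pool.Agent.Helper3.HS
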