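import Pool.Agent.Helper3.HS.Deg1

/-!
# Degree theory, part 2: the degree of a continuous map and its homotopy invariance
-/

set_option autoImplicit false
set_option linter.unusedSectionVars false
set_option linter.unusedVariables false

open Set MeasureTheory Metric Filter Topology
open scoped NNReal ENNReal Manifold

namespace Pool.Agent.Helper3.HS

variable {V : Type*} [NormedAddCommGroup V] [NormedSpace ℝ V] [FiniteDimensional ℝ V]
  [MeasurableSpace V] [BorelSpace V] (μ : Measure V) [μ.IsAddHaarMeasure]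

/-- `HasDeg μ U F y k`: the map `F`, defined on the closure of the bounded open set `U`, has degree
`k` over the point `y`, which does not lie in the image of the boundary. -/
def HasDeg (U : Set V) (F : V → V) (y : V) (k : ℝ) : Prop :=
  ∃ ε > 0, (∀ x ∈ frontier U, 4 * ε ≤ dist (F x) y) ∧
    ∀ G : V → V, ContDiff ℝ 1 G → (∀ x ∈ frontier U, dist (G x) (F x) < ε) →
      ∀ φ : V → ℝ, Measurable φ → (∃ c, ∀ x, |φ x| ≤ c) → (∀ x ∉ closedBall y ε, φ x = 0) →
        dint μ U G φ = k * ∫ x, φ x ∂μ

theorem exists_approx {K : Set V} (hK : IsClosed K) {F : V → V} (hF : ContinuousOn F K) {δ : ℝ}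
    (hδ : 0 < δ) : ∃ G : V → V, ContDiff ℝ 1 G ∧ ∀ x ∈ K, dist (G x) (F x) < δ := by
  obtain ⟨g, hg⟩ := ContinuousMap.exists_restrict_eq hK
    ⟨fun x : K => F x, continuousOn_iff_continuous_restrict.mp hF⟩
  obtain ⟨G, hG, hd, -⟩ := g.continuous.exists_contDiff_approx 1 (ε := fun _ => δ)
    continuous_const (fun _ => hδ)
  refine ⟨G, hG, fun x hx => ?_⟩
  have h1 : g x = F x := by
    exact congrArg (fun f => f ⟨x, hx⟩) hg
  rw [← h1]
  exact hd x

theorem isCompact_frontier' {U : Set V} (hUb : Bornology.IsBounded U) :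
    IsCompact (frontier U) := by
  have : ProperSpace V := FiniteDimensional.proper ℝ V
  exact hUb.isCompact_closure.of_isClosed_subset isClosed_frontier frontier_subset_closure

theorem exists_gap {X : Type*} [TopologicalSpace X] {K : Set X} (hK : IsCompact K) {F : X → V}
    (hF : ContinuousOn F K) {y : V} (hy : ∀ x ∈ K, F x ≠ y) :
    ∃ r > 0, ∀ x ∈ K, 4 * r ≤ dist (F x) y := by
  have h1 : IsClosed (F '' K) := (hK.image_of_continuousOn hF).isClosed
  have h2 : y ∈ (F '' K)ᶜ := by
    rintro ⟨x, hx, rfl⟩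
    exact hy x hx rfl
  obtain ⟨r, hr, hb⟩ := Metric.isOpen_iff.mp h1.isOpen_compl y h2
  refine ⟨r / 4, by positivity, fun x hx => ?_⟩
  by_contra hlt
  rw [not_le] at hlt
  exact hb (mem_ball.mpr (by linarith)) ⟨x, hx, rfl⟩

/-- The indicator function of a closed ball. -/
noncomputable def bind (y : V) (δ : ℝ) : V → ℝ := (closedBall y δ).indicator 1

theorem bind_measurable (y : V) (δ : ℝ) : Measurable (bind y δ) :=
  measurable_one.indicator measurableSet_closedBall

theorem bind_le (y : V) (δ : ℝ) (x : V) : |bind y δ x| ≤ 1 := by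
  unfold bind
  by_cases h : x ∈ closedBall y δ
  · rw [indicator_of_mem h]; simp
  · rw [indicator_of_notMem h]; simp

theorem bind_zero {y : V} {δ : ℝ} {x : V} (h : x ∉ closedBall y δ) : bind y δ x = 0 := by
  unfold bind
  rw [indicator_of_notMem h]

theorem bind_one {y : V} {δ : ℝ} {x : V} (h : x ∈ closedBall y δ) : bind y δ x = 1 := by
  unfold bind
  rw [indicator_of_mem h]; rfl

theorem integral_bind (y : V) (δ : ℝ) : ∫ x, bind y δ x ∂μ = μ.real (closedBall y δ) := by
  unfold bind
  rw [integral_indicator_one measurableSet_closedBall]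

theorem real_closedBall_pos (y : V) {δ : ℝ} (hδ : 0 < δ) : 0 < μ.real (closedBall y δ) := by
  have : ProperSpace V := FiniteDimensional.proper ℝ V
  exact ENNReal.toReal_pos (measure_closedBall_pos μ y hδ).ne' measure_closedBall_lt_top.ne

theorem HasDeg.eval {U : Set V} {F : V → V} {y : V} {k : ℝ} (h : HasDeg μ U F y k) :
    ∃ ε > 0, ∀ G : V → V, ContDiff ℝ 1 G → (∀ x ∈ frontier U, dist (G x) (F x) < ε) →
      ∀ δ ≤ ε, dint μ U G (bind y δ) = k * μ.real (closedBall y δ) := by
  obtain ⟨ε, hε, -, h⟩ := h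
  refine ⟨ε, hε, fun G hG hd δ hδ => ?_⟩
  rw [h G hG hd (bind y δ) (bind_measurable y δ) ⟨1, bind_le y δ⟩ (fun x hx => bind_zero
    (fun hx' => hx (closedBall_subset_closedBall hδ hx'))), integral_bind]

theorem dint_shift (U : Set V) (G : V → V) (y : V) (φ : V → ℝ) :
    dint μ U (fun x => G x - y) φ = dint μ U G (fun z => φ (z - y)) := by
  unfold dint
  congr 1
  funext x
  rw [fderiv_sub_const]

/-- Existence of the degree. -/
theorem HasDeg.exists {U : Set V} (hU : IsOpen U) (hUb : Bornology.IsBounded U) {F : V → V}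
    (hF : ContinuousOn F (frontier U)) {y : V} (hy : ∀ x ∈ frontier U, F x ≠ y) :
    ∃ k, HasDeg μ U F y k := by
  obtain ⟨ε, hε, hgap⟩ := exists_gap (isCompact_frontier' hUb) hF hy
  obtain ⟨G₀, hG₀, hd₀⟩ := exists_approx isClosed_frontier hF hε
  have hfr : ∀ {G : V → V}, (∀ x ∈ frontier U, dist (G x) (F x) < ε) →
      ∀ x ∈ frontier U, 2 * ε < dist (G x) y := by
    intro G hG x hx
    have h1 := hgap x hx
    have h2 := hG x hx
    have h3 := dist_triangle (F x) (G x) y
    rw [dist_comm (F x) (G x)] at h3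
    linarith
  refine ⟨dint μ U G₀ (bind y ε) / μ.real (closedBall y ε), ε, hε, hgap, ?_⟩
  intro G hG hd φ hφ hc hφ0
  obtain ⟨c, hc⟩ := hc
  have e1 : dint μ U G φ = dint μ U G₀ φ := by
    apply dint_homotopy μ hU hUb hG₀ hG (B := closedBall y ε) isClosed_closedBall _ hφ hc hφ0
    intro x hx t ht hmem
    have h1 := hgap x hx
    have h2 := hd x hx
    have h3 := hd₀ x hx
    have h4 : (1 - t) • G₀ x + t • G x ∈ ball (F x) ε :=
      convex_ball (F x) ε (mem_ball.mpr h3) (mem_ball.mpr h2) (by linarith [ht.2]) ht.1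
        (by ring)
    rw [mem_ball] at h4
    rw [mem_closedBall] at hmem
    have h5 := dist_triangle (F x) ((1 - t) • G₀ x + t • G x) y
    rw [dist_comm (F x) ((1 - t) • G₀ x + t • G x)] at h5
    linarith
  rw [e1]
  have hpos := real_closedBall_pos μ y hε
  have e2 := dint_symm μ hU hUb hG₀ hε (hfr hd₀) hφ (bind_measurable y ε) (c := max c 1)
    (fun x => (hc x).trans (le_max_left _ _)) (fun x => (bind_le y ε x).trans (le_max_right _ _))
    hφ0 (fun x hx => bind_zero hx)
  rw [integral_bind] at e2
  field_simp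
  linarith

theorem HasDeg.unique {U : Set V} (hU : IsOpen U) (hUb : Bornology.IsBounded U) {F : V → V}
    (hF : ContinuousOn F (frontier U)) {y : V} {k k' : ℝ} (h : HasDeg μ U F y k)
    (h' : HasDeg μ U F y k') : k = k' := by
  obtain ⟨ε, hε, h⟩ := h.eval
  obtain ⟨ε', hε', h'⟩ := h'.eval
  have hm : 0 < min ε ε' := lt_min hε hε'
  obtain ⟨G, hG, hd⟩ := exists_approx isClosed_frontier hF hm
  have e1 := h G hG (fun x hx => (hd x hx).trans_le (min_le_left _ _)) (min ε ε') (min_le_left _ _)
  have e2 := h' G hG (fun x hx => (hd x hx).trans_le (min_le_right _ _)) (min ε ε')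
    (min_le_right _ _)
  have hpos := real_closedBall_pos μ y hm
  rw [e1] at e2
  exact mul_right_cancel₀ hpos.ne' e2

/-- Homotopy invariance of the degree. -/
theorem HasDeg.homotopy {U : Set V} (hU : IsOpen U) (hUb : Bornology.IsBounded U) {F F' : V → V}
    (hF : ContinuousOn F (frontier U)) (hF' : ContinuousOn F' (frontier U)) {y y' : V} {k : ℝ}
    (h : HasDeg μ U F y k)
    (hseg : ∀ x ∈ frontier U, ∀ t ∈ Icc (0 : ℝ) 1, (1 - t) • (F x - y) + t • (F' x - y') ≠ 0) :
    HasDeg μ U F' y' k := by
  obtain ⟨k', h'⟩ := HasDeg.exists μ hU hUb hF' (y := y') (by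
    intro x hx heq
    apply hseg x hx 1 ⟨zero_le_one, le_rfl⟩
    rw [heq]; simp)
  suffices k' = k by rwa [this] at h'
  obtain ⟨ε, hε, h⟩ := h.eval
  obtain ⟨ε', hε', h'⟩ := h'.eval
  obtain ⟨r, hr, hgap⟩ := exists_gap (K := frontier U ×ˢ Icc (0 : ℝ) 1)
    ((isCompact_frontier' hUb).prod isCompact_Icc)
    (F := fun p : V × ℝ => (1 - p.2) • (F p.1 - y) + p.2 • (F' p.1 - y')) (y := 0)
    (by
      have h1 : ContinuousOn (fun p : V × ℝ => F p.1) (frontier U ×ˢ Icc (0 : ℝ) 1) :=
        hF.comp continuousOn_fst (fun p hp => hp.1)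
      have h2 : ContinuousOn (fun p : V × ℝ => F' p.1) (frontier U ×ˢ Icc (0 : ℝ) 1) :=
        hF'.comp continuousOn_fst (fun p hp => hp.1)
      exact ((continuousOn_const.sub continuousOn_snd).smul (h1.sub continuousOn_const)).add
        (continuousOn_snd.smul (h2.sub continuousOn_const)))
    (fun p hp => hseg p.1 hp.1 p.2 hp.2)
  set δ := min r (min ε ε') with hδ
  have hδ0 : 0 < δ := lt_min hr (lt_min hε hε')
  have hδε : δ ≤ ε := (min_le_right _ _).trans (min_le_left _ _)
  have hδε' : δ ≤ ε' := (min_le_right _ _).trans (min_le_right _ _)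
  obtain ⟨G, hG, hd⟩ := exists_approx isClosed_frontier hF hδ0
  obtain ⟨G', hG', hd'⟩ := exists_approx isClosed_frontier hF' hδ0
  have e1 := h G hG (fun x hx => (hd x hx).trans_le hδε) δ hδε
  have e2 := h' G' hG' (fun x hx => (hd' x hx).trans_le hδε') δ hδε'
  have e3 := dint_homotopy μ hU hUb (G₀ := fun x => G x - y) (G₁ := fun x => G' x - y')
    (hG.sub contDiff_const) (hG'.sub contDiff_const) (B := closedBall 0 δ) isClosed_closedBall
    (by
      intro x hx t ht hmem
      have h1 := hgap (x, t) ⟨hx, ht⟩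
      simp only at h1
      have h2 : dist ((1 - t) • (G x - y) + t • (G' x - y'))
          ((1 - t) • (F x - y) + t • (F' x - y')) ≤ δ := by
        rw [dist_eq_norm]
        have e : (1 - t) • (G x - y) + t • (G' x - y') -
            ((1 - t) • (F x - y) + t • (F' x - y')) =
            (1 - t) • (G x - F x) + t • (G' x - F' x) := by module
        rw [e]
        have a1 : ‖G x - F x‖ ≤ δ := by rw [← dist_eq_norm]; exact (hd x hx).le
        have a2 : ‖G' x - F' x‖ ≤ δ := by rw [← dist_eq_norm]; exact (hd' x hx).le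
        calc ‖(1 - t) • (G x - F x) + t • (G' x - F' x)‖
            ≤ ‖(1 - t) • (G x - F x)‖ + ‖t • (G' x - F' x)‖ := norm_add_le _ _
          _ = (1 - t) * ‖G x - F x‖ + t * ‖G' x - F' x‖ := by
              rw [norm_smul, norm_smul, Real.norm_of_nonneg (by linarith [ht.2]),
                Real.norm_of_nonneg ht.1]
          _ ≤ (1 - t) * δ + t * δ := by
              have := ht.1
              have : 0 ≤ 1 - t := by linarith [ht.2]
              gcongr
          _ = δ := by ring
      have h3 := dist_triangle ((1 - t) • (F x - y) + t • (F' x - y'))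
        ((1 - t) • (G x - y) + t • (G' x - y')) 0
      rw [dist_comm ((1 - t) • (F x - y) + t • (F' x - y'))
        ((1 - t) • (G x - y) + t • (G' x - y'))] at h3
      rw [mem_closedBall] at hmem
      have h4 : δ ≤ r := min_le_left _ _
      linarith)
    (bind_measurable 0 δ) (bind_le 0 δ) (fun x hx => bind_zero hx)
  rw [dint_shift, dint_shift] at e3
  have hb : ∀ z : V, (fun x => bind 0 δ (x - z)) = bind z δ := by
    intro z
    funext x
    by_cases hx : x ∈ closedBall z δ
    · rw [bind_one hx, bind_one]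
      rw [mem_closedBall, dist_zero_right, ← dist_eq_norm]
      exact hx
    · rw [bind_zero hx, bind_zero]
      rw [mem_closedBall, dist_zero_right, ← dist_eq_norm]
      exact hx
  rw [hb, hb, e1, e2] at e3
  have hv : μ.real (closedBall y' δ) = μ.real (closedBall y δ) := by
    rw [measureReal_def, measureReal_def, Measure.addHaar_closedBall_center,
      Measure.addHaar_closedBall_center μ y]
  rw [hv] at e3
  exact mul_right_cancel₀ (real_closedBall_pos μ y hδ0).ne' e3

/-- The identity has degree one. -/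
theorem HasDeg.id {U : Set V} (hU : IsOpen U) (hUb : Bornology.IsBounded U) {y : V}
    (hy : y ∈ U) : HasDeg μ U (fun x => x) y 1 := by
  obtain ⟨k, hk⟩ := HasDeg.exists μ hU hUb (F := fun x => x) continuousOn_id (y := y) (by
    intro x hx heq
    rw [hU.frontier_eq] at hx
    rw [heq] at hx
    exact hx.2 hy)
  suffices k = 1 by rwa [this] at hk
  obtain ⟨ε, hε, h⟩ := hk.eval
  obtain ⟨r, hr, hb⟩ := Metric.isOpen_iff.mp hU y hy
  set δ := min ε (r / 2) with hδ
  have hδ0 : 0 < δ := lt_min hε (by positivity)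
  have e1 := h (fun x => x) contDiff_id (fun x hx => by rw [dist_self]; exact hε) δ (min_le_left _ _)
  have hsub : closedBall y δ ⊆ U := by
    refine Subset.trans ?_ hb
    intro x hx
    rw [mem_closedBall] at hx
    rw [mem_ball]
    have : δ ≤ r / 2 := min_le_right _ _
    linarith
  have e2 : dint μ U (fun x => x) (bind y δ) = μ.real (closedBall y δ) := by
    unfold dint
    have : ∀ x : V, bind y δ x * (fderiv ℝ (fun x : V => x) x).det = bind y δ x := by
      intro x
      rw [fderiv_id']
      simp [ContinuousLinearMap.det]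
    simp_rw [this]
    rw [← integral_bind μ y δ]
    apply setIntegral_eq_integral_of_forall_compl_eq_zero
    intro x hx
    exact bind_zero fun hx' => hx (hsub hx')
  rw [e2] at e1
  have hpos := real_closedBall_pos μ y hδ0
  have : 1 * μ.real (closedBall y δ) = k * μ.real (closedBall y δ) := by rw [one_mul]; exact e1
  exact (mul_right_cancel₀ hpos.ne' this).symm

/-- A map that misses `y` has degree zero. -/
theorem HasDeg.zero {U : Set V} (hU : IsOpen U) (hUb : Bornology.IsBounded U) {F : V → V}
    (hF : ContinuousOn F (closure U)) {y : V} (hy : ∀ x ∈ closure U, F x ≠ y) :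
    HasDeg μ U F y 0 := by
  have : ProperSpace V := FiniteDimensional.proper ℝ V
  obtain ⟨k, hk⟩ := HasDeg.exists μ hU hUb (hF.mono frontier_subset_closure) (y := y)
    (fun x hx => hy x (frontier_subset_closure hx))
  suffices k = 0 by rwa [this] at hk
  obtain ⟨ε, hε, h⟩ := hk.eval
  obtain ⟨r, hr, hgap⟩ := exists_gap hUb.isCompact_closure hF hy
  set δ := min ε r with hδ
  have hδ0 : 0 < δ := lt_min hε hr
  obtain ⟨G, hG, hd⟩ := exists_approx isClosed_closure hF hδ0
  have e1 := h G hG (fun x hx => (hd x (frontier_subset_closure hx)).trans_le (min_le_left _ _)) δ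
    (min_le_left _ _)
  have e2 : dint μ U G (bind y δ) = 0 := by
    unfold dint
    apply setIntegral_eq_zero_of_forall_eq_zero
    intro x hx
    rw [bind_zero, zero_mul]
    intro hmem
    rw [mem_closedBall] at hmem
    have h1 := hgap x (subset_closure hx)
    have h2 := hd x (subset_closure hx)
    have h3 := dist_triangle (F x) (G x) y
    rw [dist_comm (F x) (G x)] at h3
    have h4 : δ ≤ r := min_le_right _ _
    linarith
  rw [e2] at e1
  have hpos := real_closedBall_pos μ y hδ0
  rcases mul_eq_zero.mp e1.symm with h | h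
  · exact h
  · exact absurd h hpos.ne'

end Pool.Agent.Helper3.HS
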