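import Pool.Agent.Helper3.HS.Deg2

/-!
# Degree theory, part 3: additivity and integrality
-/

set_option autoImplicit false
set_option linter.unusedSectionVars false
set_option linter.unusedVariables false

open Set MeasureTheory Metric Filter Topology
open scoped NNReal ENNReal Manifold Function

namespace Pool.Agent.Helper3.HS

variable {V : Type*} [NormedAddCommGroup V] [NormedSpace ℝ V] [FiniteDimensional ℝ V]
  [MeasurableSpace V] [BorelSpace V] (μ : Measure V) [μ.IsAddHaarMeasure]

theorem exists_pos_le_finset {ι : Type*} (s : Finset ι) (e : ι → ℝ) (h : ∀ i ∈ s, 0 < e i) :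
    ∃ δ > 0, ∀ i ∈ s, δ ≤ e i := by
  classical
  induction s using Finset.induction_on with
  | empty => exact ⟨1, one_pos, by simp⟩
  | insert a s ha ih =>
    obtain ⟨δ, hδ, hs⟩ := ih (fun i hi => h i (Finset.mem_insert_of_mem hi))
    refine ⟨min δ (e a), lt_min hδ (h a (Finset.mem_insert_self _ _)), fun i hi => ?_⟩
    rcases Finset.mem_insert.mp hi with rfl | hi
    · exact min_le_right _ _
    · exact (min_le_left _ _).trans (hs i hi)

/-- Additivity of the degree. -/
theorem HasDeg.sum {ι : Type*} (s : Finset ι) {U : Set V} (hU : IsOpen U)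
    (hUb : Bornology.IsBounded U) {W : ι → Set V} (hW : ∀ i ∈ s, IsOpen (W i))
    (hWU : ∀ i ∈ s, W i ⊆ U) (hdisj : (s : Set ι).Pairwise (Function.onFun Disjoint W)) {F : V → V}
    (hF : ContinuousOn F (closure U)) {y : V}
    (hcov : ∀ x ∈ closure U, F x = y → ∃ i ∈ s, x ∈ W i) {k : ι → ℝ}
    (hk : ∀ i ∈ s, HasDeg μ (W i) F y (k i)) : HasDeg μ U F y (∑ i ∈ s, k i) := by
  have : ProperSpace V := FiniteDimensional.proper ℝ V
  obtain ⟨K, hK⟩ := HasDeg.exists μ hU hUb (hF.mono frontier_subset_closure) (y := y) (by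
    intro x hx heq
    obtain ⟨i, hi, hxi⟩ := hcov x (frontier_subset_closure hx) heq
    rw [hU.frontier_eq] at hx
    exact hx.2 (hWU i hi hxi))
  suffices K = ∑ i ∈ s, k i by rwa [this] at hK
  obtain ⟨ε, hε, h⟩ := hK.eval
  have hev : ∀ i, i ∈ s → ∃ e > 0, ∀ G : V → V, ContDiff ℝ 1 G →
      (∀ x ∈ frontier (W i), dist (G x) (F x) < e) →
      ∀ δ ≤ e, dint μ (W i) G (bind y δ) = k i * μ.real (closedBall y δ) := fun i hi =>
    (hk i hi).eval
  choose! e he hev using hev
  obtain ⟨δ₁, hδ₁, hle⟩ := exists_pos_le_finset s e he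
  have hopen : IsOpen (⋃ i ∈ s, W i) := isOpen_biUnion hW
  obtain ⟨r, hr, hgap⟩ := exists_gap (K := closure U \ ⋃ i ∈ s, W i)
    (hUb.isCompact_closure.diff hopen) (hF.mono sdiff_subset) (y := y) (by
      intro x hx heq
      obtain ⟨i, hi, hxi⟩ := hcov x hx.1 heq
      exact hx.2 (mem_biUnion hi hxi))
  set δ := min ε (min δ₁ r) with hδ
  have hδ0 : 0 < δ := lt_min hε (lt_min hδ₁ hr)
  obtain ⟨G, hG, hd⟩ := exists_approx isClosed_closure hF hδ0
  have e1 := h G hG (fun x hx => (hd x (frontier_subset_closure hx)).trans_le (min_le_left _ _)) δ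
    (min_le_left _ _)
  have e2 : ∀ i ∈ s, dint μ (W i) G (bind y δ) = k i * μ.real (closedBall y δ) := by
    intro i hi
    have hle' : δ ≤ e i := (min_le_right _ _).trans ((min_le_left _ _).trans (hle i hi))
    exact hev i hi G hG (fun x hx => (hd x (closure_mono (hWU i hi)
      (frontier_subset_closure hx))).trans_le hle') δ hle'
  have e3 : dint μ U G (bind y δ) = ∑ i ∈ s, dint μ (W i) G (bind y δ) := by
    unfold dint
    rw [setIntegral_eq_of_subset_of_forall_sdiff_eq_zero hU.measurableSet
      (iUnion₂_subset hWU)]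
    · rw [integral_biUnion_finset s (fun i hi => (hW i hi).measurableSet) hdisj]
      intro i hi
      exact (integrableOn_dint μ hU.measurableSet hUb hG (bind_measurable y δ)
        (bind_le y δ)).mono_set (hWU i hi)
    · intro x hx
      rw [bind_zero, zero_mul]
      intro hmem
      rw [mem_closedBall] at hmem
      have h1 := hgap x ⟨subset_closure hx.1, hx.2⟩
      have h2 := hd x (subset_closure hx.1)
      have h3 := dist_triangle (F x) (G x) y
      rw [dist_comm (F x) (G x)] at h3
      have h4 : δ ≤ r := (min_le_right _ _).trans (min_le_right _ _)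
      linarith
  rw [e1, Finset.sum_congr rfl e2, ← Finset.sum_mul] at e3
  exact mul_right_cancel₀ (real_closedBall_pos μ y hδ0).ne' e3

theorem exists_regular_value {G : V → V} (hG : ContDiff ℝ 1 G) (y : V) {r : ℝ} (hr : 0 < r) :
    ∃ y' ∈ ball y r, ∀ x, G x = y' → (fderiv ℝ G x).det ≠ 0 := by
  let μ : Measure V := Measure.addHaar
  have hz := addHaar_image_eq_zero_of_det_fderivWithin_eq_zero μ
    (s := {x | (fderiv ℝ G x).det = 0}) (f := G) (f' := fun x => fderiv ℝ G x)
    (fun x _ => ((hG.differentiable one_ne_zero x).hasFDerivAt).hasFDerivWithinAt)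
    (fun x hx => hx)
  have hpos : 0 < μ (ball y r) := measure_ball_pos μ y hr
  have hne : ¬ (ball y r ⊆ G '' {x | (fderiv ℝ G x).det = 0}) := by
    intro hsub
    have := measure_mono (μ := μ) hsub
    rw [hz] at this
    exact absurd this (not_le.mpr hpos)
  obtain ⟨y', hy', hn⟩ := not_subset.mp hne
  refine ⟨y', hy', fun x hx hdet => hn ⟨x, hdet, hx⟩⟩

/-- The degree is an integer. -/
theorem HasDeg.int {U : Set V} (hU : IsOpen U) (hUb : Bornology.IsBounded U) {F : V → V}
    (hF : ContinuousOn F (frontier U)) {y : V} {k : ℝ} (h : HasDeg μ U F y k) :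
    ∃ m : ℤ, k = m := by
  classical
  have : ProperSpace V := FiniteDimensional.proper ℝ V
  have : CompleteSpace V := FiniteDimensional.complete ℝ V
  obtain ⟨ε, hε, hfr, h⟩ := h
  obtain ⟨G, hG, hd⟩ := exists_approx isClosed_frontier hF hε
  obtain ⟨y', hy', hreg⟩ := exists_regular_value hG y (half_pos hε)
  have hcl : IsCompact (closure U) := hUb.isCompact_closure
  -- the fibre
  set S : Set V := {x | x ∈ closure U ∧ G x = y'} with hS
  have hSU : S ⊆ U := by
    intro x hx
    by_contra hxU
    have hxf : x ∈ frontier U := by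
      rw [hU.frontier_eq]; exact ⟨hx.1, hxU⟩
    have h1 := hfr x hxf
    have h2 := hd x hxf
    rw [hx.2] at h2
    rw [mem_ball] at hy'
    have h3 := dist_triangle (F x) y' y
    rw [dist_comm (F x) y'] at h3
    linarith
  have hSc : IsCompact S := by
    have : S = closure U ∩ G ⁻¹' {y'} := by
      ext x; simp [hS]
    rw [this]
    exact hcl.inter_right (isClosed_singleton.preimage hG.continuous)
  -- local structure
  have hloc : ∀ x ∈ S, ∃ O : Set V, IsOpen O ∧ x ∈ O ∧ O ⊆ U ∧ InjOn G O ∧
      (∀ z ∈ O, 0 < (fderiv ℝ G x).det * (fderiv ℝ G z).det) ∧ ∀ O' ⊆ O, IsOpen O' → IsOpen (G '' O') := by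
    intro x hx
    have hdet := hreg x hx.2
    have hst : HasStrictFDerivAt G (fderiv ℝ G x) x :=
      hG.contDiffAt.hasStrictFDerivAt one_ne_zero
    have hst' : HasStrictFDerivAt G
        (((fderiv ℝ G x).toContinuousLinearEquivOfDetNeZero hdet : V ≃L[ℝ] V) : V →L[ℝ] V) x := by
      rw [ContinuousLinearMap.coe_toContinuousLinearEquivOfDetNeZero]
      exact hst
    set e := hst'.toOpenPartialHomeomorph G with he
    have hcont : Continuous fun z => (fderiv ℝ G x).det * (fderiv ℝ G z).det :=
      continuous_const.mul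
        (ContinuousLinearMap.continuous_det.comp (hG.continuous_fderiv one_ne_zero))
    refine ⟨e.source ∩ U ∩ {z | 0 < (fderiv ℝ G x).det * (fderiv ℝ G z).det},
      (e.open_source.inter hU).inter (isOpen_lt continuous_const hcont),
      ⟨⟨hst'.mem_toOpenPartialHomeomorph_source, hSU hx⟩, mul_self_pos.mpr hdet⟩,
      fun z hz => hz.1.2, fun a ha b hb hab => e.injOn ha.1.1 hb.1.1 hab, fun z hz => hz.2, ?_⟩
    intro O' hO' hO'o
    exact e.isOpen_image_of_subset_source hO'o (fun z hz => (hO' hz).1.1)
  choose! O hOo hxO hOU hinj hsign hOopen using hloc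
  -- finiteness of the fibre
  have hfin : S.Finite := by
    obtain ⟨t, ht⟩ := hSc.elim_finite_subcover (fun x : S => O x) (fun x => hOo x x.2)
      (fun x hx => mem_iUnion.mpr ⟨⟨x, hx⟩, hxO x hx⟩)
    apply (t.finite_toSet.image (fun x : S => (x : V))).subset
    intro x hx
    obtain ⟨i, hi, hxi⟩ := mem_iUnion₂.mp (ht hx)
    refine ⟨i, hi, ?_⟩
    exact hinj i i.2 (hxO i i.2) hxi (i.2.2.trans hx.2.symm)
  obtain ⟨T, hT, hTd⟩ := hfin.t2_separation
  set W : V → Set V := fun x => O x ∩ T x with hWdef
  set s : Finset V := hfin.toFinset with hs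
  have hmem : ∀ x, x ∈ s ↔ x ∈ S := fun x => hfin.mem_toFinset
  have hWo : ∀ x ∈ s, IsOpen (W x) := fun x hx => (hOo x ((hmem x).mp hx)).inter (hT x).2
  have hWU : ∀ x ∈ s, W x ⊆ U := fun x hx => inter_subset_left.trans (hOU x ((hmem x).mp hx))
  have hWd : (s : Set V).Pairwise (Function.onFun Disjoint W) := by
    intro a ha b hb hab
    have := hTd ((hmem a).mp ha) ((hmem b).mp hb) hab
    exact this.mono inter_subset_right inter_subset_right
  have hxW : ∀ x ∈ s, x ∈ W x := fun x hx => ⟨hxO x ((hmem x).mp hx), (hT x).1⟩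
  -- choose the radius
  obtain ⟨r, hr, hgap⟩ := exists_gap (K := closure U \ ⋃ x ∈ s, W x)
    (hcl.diff (isOpen_biUnion hWo)) (hG.continuous.continuousOn) (y := y') (by
      intro x hx heq
      exact hx.2 (mem_biUnion (x := x) ((hmem x).mpr ⟨hx.1, heq⟩)
        (hxW x ((hmem x).mpr ⟨hx.1, heq⟩))))
  have hball : ∀ x, x ∈ s → ∃ e > 0, closedBall y' e ⊆ G '' (W x) := by
    intro x hx
    have hx' := (hmem x).mp hx
    have ho : IsOpen (G '' W x) := hOopen x hx' _ inter_subset_left (hWo x hx)
    obtain ⟨e, he, hb⟩ := Metric.isOpen_iff.mp ho y' ⟨x, hxW x hx, hx'.2⟩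
    exact ⟨e / 2, by positivity, (closedBall_subset_ball (by linarith)).trans hb⟩
  choose! e he hball using hball
  obtain ⟨δ₁, hδ₁, hle⟩ := exists_pos_le_finset s e he
  set δ := min (ε / 2) (min δ₁ r) with hδ
  have hδ0 : 0 < δ := lt_min (half_pos hε) (lt_min hδ₁ hr)
  have e1 := h G hG hd (bind y' δ) (bind_measurable y' δ) ⟨1, bind_le y' δ⟩ (by
    intro x hx
    apply bind_zero
    intro hx'
    apply hx
    rw [mem_closedBall] at hx' ⊢
    rw [mem_ball] at hy'
    have h1 := dist_triangle x y' y
    have h2 : δ ≤ ε / 2 := min_le_left _ _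
    linarith)
  rw [integral_bind] at e1
  have e3 : dint μ U G (bind y' δ) = ∑ x ∈ s, dint μ (W x) G (bind y' δ) := by
    unfold dint
    rw [setIntegral_eq_of_subset_of_forall_sdiff_eq_zero hU.measurableSet
      (iUnion₂_subset hWU)]
    · rw [integral_biUnion_finset s (fun i hi => (hWo i hi).measurableSet) hWd]
      intro i hi
      exact (integrableOn_dint μ hU.measurableSet hUb hG (bind_measurable y' δ)
        (bind_le y' δ)).mono_set (hWU i hi)
    · intro x hx
      rw [bind_zero, zero_mul]
      intro hmem'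
      rw [mem_closedBall] at hmem'
      have h1 := hgap x ⟨subset_closure hx.1, hx.2⟩
      have h4 : δ ≤ r := (min_le_right _ _).trans (min_le_right _ _)
      linarith
  have e4 : ∀ x ∈ s, dint μ (W x) G (bind y' δ) =
      SignType.sign (fderiv ℝ G x).det * μ.real (closedBall y' δ) := by
    intro x hx
    have hx' := (hmem x).mp hx
    have hdx := hreg x hx'.2
    have hle' : δ ≤ e x := (min_le_right _ _).trans ((min_le_left _ _).trans (hle x hx))
    have hchange := integral_image_eq_integral_abs_det_fderiv_smul μ (hWo x hx).measurableSet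
      (f := G) (f' := fun z => fderiv ℝ G z)
      (fun z _ => ((hG.differentiable one_ne_zero z).hasFDerivAt).hasFDerivWithinAt)
      ((hinj x hx').mono inter_subset_left) (bind y' δ)
    have hl : ∫ z in G '' W x, bind y' δ z ∂μ = μ.real (closedBall y' δ) := by
      rw [← integral_bind μ y' δ]
      apply setIntegral_eq_integral_of_forall_compl_eq_zero
      intro z hz
      exact bind_zero fun hz' => hz (hball x hx (closedBall_subset_closedBall hle' hz'))
    rw [hl] at hchange
    rw [hchange, ← integral_const_mul]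
    unfold dint
    apply setIntegral_congr_fun (hWo x hx).measurableSet
    intro z hz
    simp only [smul_eq_mul]
    have hs := hsign x hx' z hz.1
    rcases lt_or_gt_of_ne hdx with hneg | hpos
    · have hz' : (fderiv ℝ G z).det < 0 := by
        by_contra hcon
        rw [not_lt] at hcon
        nlinarith
      rw [sign_neg hneg, abs_of_neg hz']
      simp only [SignType.coe_neg, SignType.coe_one]
      ring
    · have hz' : 0 < (fderiv ℝ G z).det := by
        by_contra hcon
        rw [not_lt] at hcon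
        nlinarith
      rw [sign_pos hpos, abs_of_pos hz']
      simp only [SignType.coe_one]
      ring
  rw [e1, Finset.sum_congr rfl e4, ← Finset.sum_mul] at e3
  have e5 := mul_right_cancel₀ (real_closedBall_pos μ y' hδ0).ne' e3
  refine ⟨∑ x ∈ s, ((SignType.sign (fderiv ℝ G x).det : SignType) : ℤ), ?_⟩
  rw [e5]
  push_cast
  apply Finset.sum_congr rfl
  intro x hx
  rcases (SignType.sign (fderiv ℝ G x).det) with _ | _ | _ <;> simp

end Pool.Agent.Helper3.HS
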