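import Pool.Agent.Helper3.HS.Deg3

/-!
# Degree theory, part 4: composition and injective maps
-/

set_option autoImplicit false
set_option linter.unusedSectionVars false
set_option linter.unusedVariables false

open Set MeasureTheory Metric Filter Topology
open scoped NNReal ENNReal Manifold Function

namespace Pool.Agent.Helper3.HS

variable {V : Type*} [NormedAddCommGroup V] [NormedSpace ℝ V] [FiniteDimensional ℝ V]
  [MeasurableSpace V] [BorelSpace V] (μ : Measure V) [μ.IsAddHaarMeasure]

theorem HasDeg.congr {U : Set V} {F F' : V → V} {y : V} {k : ℝ} (h : HasDeg μ U F y k)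
    (heq : ∀ x ∈ frontier U, F x = F' x) : HasDeg μ U F' y k := by
  obtain ⟨ε, hε, hfr, h⟩ := h
  refine ⟨ε, hε, fun x hx => by rw [← heq x hx]; exact hfr x hx, fun G hG hd => h G hG ?_⟩
  intro x hx
  rw [heq x hx]
  exact hd x hx

theorem HasDeg.ne {U : Set V} {F : V → V} {y : V} {k : ℝ} (h : HasDeg μ U F y k) :
    ∀ x ∈ frontier U, F x ≠ y := by
  obtain ⟨ε, hε, hfr, h⟩ := h
  intro x hx heq
  have := hfr x hx
  rw [heq, dist_self] at this
  linarith

theorem dint_cover {U : Set V} (hU : IsOpen U) (hUb : Bornology.IsBounded U) {G : V → V}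
    (hG : ContDiff ℝ 1 G) {s : ℝ} (T : Finset (V × ℝ))
    (hT : ∀ p ∈ T, ∀ φ : V → ℝ, Measurable φ → (∃ c, ∀ x, |φ x| ≤ c) →
      (∀ x ∉ closedBall p.1 p.2, φ x = 0) → dint μ U G φ = s * ∫ x, φ x ∂μ) :
    ∀ φ : V → ℝ, Measurable φ → (∃ c, ∀ x, |φ x| ≤ c) →
      (∀ x, φ x ≠ 0 → ∃ p ∈ T, x ∈ closedBall p.1 p.2) → dint μ U G φ = s * ∫ x, φ x ∂μ := by
  classical
  have : ProperSpace V := FiniteDimensional.proper ℝ V
  induction T using Finset.induction_on with
  | empty =>
    intro φ hφ hc hsup
    have h0 : φ = fun _ => 0 := by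
      funext x
      by_contra hne
      obtain ⟨p, hp, -⟩ := hsup x hne
      simp at hp
    rw [h0]
    simp [dint]
  | insert p T hp ih =>
    intro φ hφ hc hsup
    obtain ⟨c, hc⟩ := hc
    have hB : MeasurableSet (closedBall p.1 p.2) := measurableSet_closedBall
    set φ₁ : V → ℝ := (closedBall p.1 p.2).indicator φ with hφ₁
    set φ₂ : V → ℝ := (closedBall p.1 p.2)ᶜ.indicator φ with hφ₂
    have hsum : ∀ x, φ x = φ₁ x + φ₂ x := by
      intro x
      have := congrFun (indicator_self_add_compl (closedBall p.1 p.2) φ) x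
      rw [← this]; rfl
    have hm₁ : Measurable φ₁ := hφ.indicator hB
    have hm₂ : Measurable φ₂ := hφ.indicator hB.compl
    have hc₁ : ∀ x, |φ₁ x| ≤ |c| := by
      intro x
      rw [hφ₁]
      by_cases hx : x ∈ closedBall p.1 p.2
      · rw [indicator_of_mem hx]; exact (hc x).trans (le_abs_self _)
      · rw [indicator_of_notMem hx, abs_zero]; exact abs_nonneg _
    have hc₂ : ∀ x, |φ₂ x| ≤ |c| := by
      intro x
      rw [hφ₂]
      by_cases hx : x ∈ (closedBall p.1 p.2)ᶜ
      · rw [indicator_of_mem hx]; exact (hc x).trans (le_abs_self _)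
      · rw [indicator_of_notMem hx, abs_zero]; exact abs_nonneg _
    have hz₁ : ∀ x ∉ closedBall p.1 p.2, φ₁ x = 0 := fun x hx => indicator_of_notMem hx _
    have e1 := hT p (Finset.mem_insert_self _ _) φ₁ hm₁ ⟨|c|, hc₁⟩ hz₁
    have hz₂ : ∀ x, φ₂ x ≠ 0 → ∃ q ∈ T, x ∈ closedBall q.1 q.2 := by
      intro x hx
      have hx1 : x ∈ (closedBall p.1 p.2)ᶜ := by
        by_contra hn
        exact hx (indicator_of_notMem hn _)
      have hx2 : φ x ≠ 0 := by
        rw [hφ₂, indicator_of_mem hx1] at hx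
        exact hx
      obtain ⟨q, hq, hxq⟩ := hsup x hx2
      rcases Finset.mem_insert.mp hq with rfl | hq
      · exact absurd hxq hx1
      · exact ⟨q, hq, hxq⟩
    have e2 := ih (fun q hq => hT q (Finset.mem_insert_of_mem hq)) φ₂ hm₂ ⟨|c|, hc₂⟩ hz₂
    have e3 : dint μ U G φ = dint μ U G φ₁ + dint μ U G φ₂ := by
      unfold dint
      rw [← integral_add (integrableOn_dint μ hU.measurableSet hUb hG hm₁ hc₁)
        (integrableOn_dint μ hU.measurableSet hUb hG hm₂ hc₂)]
      congr 1
      funext x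
      rw [hsum, add_mul]
    have hbT : ∃ R : ℝ, ∀ q ∈ insert p T, closedBall q.1 q.2 ⊆ closedBall 0 R := by
      have : Bornology.IsBounded (⋃ q ∈ (insert p T : Finset (V × ℝ)), closedBall q.1 q.2) := by
        rw [Bornology.isBounded_biUnion_finset]
        intro q hq
        exact isBounded_closedBall
      obtain ⟨R, hR⟩ := this.subset_closedBall 0
      exact ⟨R, fun q hq => (subset_biUnion_of_mem (u := fun q : V × ℝ => closedBall q.1 q.2)
        hq).trans hR⟩
    obtain ⟨R, hR⟩ := hbT
    have hint : ∀ {η : V → ℝ}, Measurable η → (∀ x, |η x| ≤ |c|) →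
        (∀ x, η x ≠ 0 → ∃ q ∈ insert p T, x ∈ closedBall q.1 q.2) → Integrable η μ := by
      intro η hη hηc hηs
      have h1 : IntegrableOn η (closedBall 0 R) μ :=
        Measure.integrableOn_of_bounded measure_closedBall_lt_top.ne hη.aestronglyMeasurable
          (ae_of_all _ hηc)
      rwa [integrableOn_iff_integrable_of_support_subset] at h1
      intro x hx
      obtain ⟨q, hq, hxq⟩ := hηs x hx
      exact hR q hq hxq
    have e4 : ∫ x, φ x ∂μ = ∫ x, φ₁ x ∂μ + ∫ x, φ₂ x ∂μ := by
      rw [← integral_add (hint hm₁ hc₁ ?_) (hint hm₂ hc₂ ?_)]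
      · congr 1
        funext x
        exact hsum x
      · intro x hx
        refine ⟨p, Finset.mem_insert_self _ _, ?_⟩
        by_contra hn
        exact hx (hz₁ x hn)
      · intro x hx
        obtain ⟨q, hq, hxq⟩ := hz₂ x hx
        exact ⟨q, Finset.mem_insert_of_mem hq, hxq⟩
    rw [e3, e4, e1, e2, mul_add]

/-- The composition formula. -/
theorem HasDeg.comp {U W : Set V} (hU : IsOpen U) (hUb : Bornology.IsBounded U)
    (hW : IsOpen W) (hWb : Bornology.IsBounded W) {g F : V → V} (hg : Continuous g)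
    (hF : Continuous F) {y : V} {s k : ℝ} (hcov : ∀ x ∈ closure U, F (g x) = y → g x ∈ W)
    (hUfr : ∀ x ∈ frontier U, F (g x) ≠ y)
    (hs : ∀ z ∈ W, F z = y → HasDeg μ U g z s) (hk : HasDeg μ W F y k) :
    HasDeg μ U (fun x => F (g x)) y (s * k) := by
  classical
  have : ProperSpace V := FiniteDimensional.proper ℝ V
  have : CompleteSpace V := FiniteDimensional.complete ℝ V
  have hclU : IsCompact (closure U) := hUb.isCompact_closure
  have hclW : IsCompact (closure W) := hWb.isCompact_closure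
  obtain ⟨κ, hκ⟩ := HasDeg.exists μ hU hUb (F := fun x => F (g x)) (hF.comp hg).continuousOn hUfr
  suffices κ = s * k by rwa [this] at hκ
  obtain ⟨ε₀, hε₀, hκ'⟩ := hκ.eval
  obtain ⟨ε₁, hε₁, hk'⟩ := hk.eval
  have hfrW : ∀ z ∈ frontier W, F z ≠ y := hk.ne
  -- the fibre in `W`
  set C : Set V := closure W ∩ F ⁻¹' {y} with hC
  have hCc : IsCompact C := hclW.inter_right (isClosed_singleton.preimage hF)
  have hCW : C ⊆ W := by
    intro z hz
    by_contra hzW
    exact hfrW z (by rw [hW.frontier_eq]; exact ⟨hz.1, hzW⟩) hz.2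
  -- cover of the fibre by balls
  have hloc : ∀ z ∈ C, ∃ e > 0, ∀ G : V → V, ContDiff ℝ 1 G →
      (∀ x ∈ frontier U, dist (G x) (g x) < e) →
      ∀ φ : V → ℝ, Measurable φ → (∃ c, ∀ x, |φ x| ≤ c) → (∀ x ∉ closedBall z e, φ x = 0) →
        dint μ U G φ = s * ∫ x, φ x ∂μ := by
    intro z hz
    obtain ⟨e, he, -, h⟩ := hs z (hCW hz) hz.2
    exact ⟨e, he, h⟩
  choose! e he hloc using hloc
  obtain ⟨t, htC, ht⟩ := hCc.elim_nhds_subcover (fun z => ball z (e z))
    (fun z hz => ball_mem_nhds z (he z hz))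
  obtain ⟨η₁, hη₁, hηle⟩ := exists_pos_le_finset t e (fun z hz => he z (htC z hz))
  set O : Set V := ⋃ z ∈ t, ball z (e z) with hO
  have hOo : IsOpen O := isOpen_biUnion fun z _ => isOpen_ball
  have hCWO : C ⊆ W ∩ O := fun z hz => ⟨hCW hz, ht hz⟩
  obtain ⟨Z, hZc, hCZ, hZW⟩ := exists_compact_between hCc (hW.inter hOo) hCWO
  -- gaps
  obtain ⟨r₁, hr₁, hgap₁⟩ := exists_gap (K := closure W \ interior Z)
    (hclW.diff isOpen_interior) hF.continuousOn (y := y) (by
      intro z hz heq
      exact hz.2 (hCZ ⟨hz.1, heq⟩))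
  obtain ⟨r₂, hr₂, hgap₂⟩ := exists_gap (K := closure U \ g ⁻¹' (interior Z))
    (hclU.diff (isOpen_interior.preimage hg)) (F := fun x => F (g x)) (hF.comp hg).continuousOn
    (y := y) (by
      intro x hx heq
      have h1 := hcov x hx.1 heq
      exact hx.2 (hCZ ⟨subset_closure h1, heq⟩))
  set r := min (min r₁ r₂) (min (ε₀ / 2) ε₁) with hr
  have hr0 : 0 < r := lt_min (lt_min hr₁ hr₂) (lt_min (half_pos hε₀) hε₁)
  have hrr₁ : r ≤ r₁ := (min_le_left _ _).trans (min_le_left _ _)
  have hrr₂ : r ≤ r₂ := (min_le_left _ _).trans (min_le_right _ _)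
  have hrε₀ : r ≤ ε₀ / 2 := (min_le_right _ _).trans (min_le_left _ _)
  have hrε₁ : r ≤ ε₁ := (min_le_right _ _).trans (min_le_right _ _)
  -- uniform continuity
  have hunif := (hclU.image hg).uniformContinuousAt_of_continuousAt F
    (fun a _ => hF.continuousAt) (dist_mem_uniformity hr0)
  obtain ⟨η₂, hη₂, hη₂'⟩ := Metric.mem_uniformity_dist.mp hunif
  obtain ⟨η₃, hη₃, hη₃'⟩ := hZc.exists_thickening_subset_open (hW.inter hOo) hZW
  set η := min η₁ (min η₂ η₃) with hη
  have hη0 : 0 < η := lt_min hη₁ (lt_min hη₂ hη₃)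
  obtain ⟨Gg, hGg, hdg, -⟩ := hg.exists_contDiff_approx 1 (ε := fun _ => η) continuous_const
    (fun _ => hη0)
  obtain ⟨GF, hGF, hdF, -⟩ := hF.exists_contDiff_approx 1 (ε := fun _ => r) continuous_const
    (fun _ => hr0)
  have hclose : ∀ x ∈ closure U, dist (GF (Gg x)) (F (g x)) < 2 * r := by
    intro x hx
    have h1 := hdF (Gg x)
    have h2 : dist (F (g x)) (F (Gg x)) < r := by
      apply hη₂' (a := g x) (b := Gg x)
      · rw [dist_comm]
        exact (hdg x).trans_le ((min_le_right _ _).trans (min_le_left _ _))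
      · exact ⟨x, hx, rfl⟩
    have h3 := dist_triangle (GF (Gg x)) (F (Gg x)) (F (g x))
    rw [dist_comm (F (Gg x)) (F (g x))] at h3
    linarith
  have hloc₁ : ∀ x ∈ closure U, dist (GF (Gg x)) y ≤ r → Gg x ∈ W ∩ O := by
    intro x hx hle
    have hgx : g x ∈ interior Z := by
      by_contra hn
      have h1 := hgap₂ x ⟨hx, hn⟩
      have h2 := hclose x hx
      have h3 := dist_triangle (F (g x)) (GF (Gg x)) y
      rw [dist_comm (F (g x)) (GF (Gg x))] at h3
      linarith
    apply hη₃'
    rw [mem_thickening_iff]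
    exact ⟨g x, interior_subset hgx, (hdg x).trans_le ((min_le_right _ _).trans
      (min_le_right _ _))⟩
  have hloc₂ : ∀ z ∈ closure W, dist (GF z) y ≤ r → z ∈ W ∩ O := by
    intro z hz hle
    have hzZ : z ∈ interior Z := by
      by_contra hn
      have h1 := hgap₁ z ⟨hz, hn⟩
      have h2 := hdF z
      have h3 := dist_triangle (F z) (GF z) y
      rw [dist_comm (F z) (GF z)] at h3
      linarith
    exact hZW (interior_subset hzZ)
  -- the transported test function
  set ψ : V → ℝ := (W ∩ O).indicator (fun z => bind y r (GF z) * (fderiv ℝ GF z).det) with hψ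
  have hWO : MeasurableSet (W ∩ O) := (hW.inter hOo).measurableSet
  have hdetc : Continuous fun z => (fderiv ℝ GF z).det :=
    ContinuousLinearMap.continuous_det.comp (hGF.continuous_fderiv one_ne_zero)
  have hψm : Measurable ψ :=
    (((bind_measurable y r).comp hGF.continuous.measurable).mul hdetc.measurable).indicator hWO
  obtain ⟨M, hM⟩ := hclW.exists_bound_of_continuousOn hdetc.continuousOn
  have hψb : ∀ z, |ψ z| ≤ |M| := by
    intro z
    rw [hψ]
    by_cases hz : z ∈ W ∩ O
    · rw [indicator_of_mem hz, abs_mul]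
      calc |bind y r (GF z)| * |(fderiv ℝ GF z).det| ≤ 1 * |M| := by
            apply mul_le_mul (bind_le _ _ _) _ (abs_nonneg _) zero_le_one
            have := hM z (subset_closure hz.1)
            rw [Real.norm_eq_abs] at this
            exact this.trans (le_abs_self _)
        _ = |M| := one_mul _
    · rw [indicator_of_notMem hz, abs_zero]; exact abs_nonneg _
  have hψs : ∀ z, ψ z ≠ 0 → ∃ p ∈ t.image (fun z => (z, e z)), z ∈ closedBall p.1 p.2 := by
    intro z hz
    have hz1 : z ∈ W ∩ O := by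
      by_contra hn
      exact hz (indicator_of_notMem hn _)
    obtain ⟨w, hw, hzw⟩ := mem_iUnion₂.mp hz1.2
    exact ⟨(w, e w), Finset.mem_image.mpr ⟨w, hw, rfl⟩, ball_subset_closedBall hzw⟩
  have e1 : dint μ U Gg ψ = s * ∫ z, ψ z ∂μ := by
    apply dint_cover μ hU hUb hGg (t.image (fun z => (z, e z))) _ ψ hψm ⟨|M|, hψb⟩ hψs
    intro p hp φ hφ hc hφ0
    obtain ⟨w, hw, rfl⟩ := Finset.mem_image.mp hp
    exact hloc w (htC w hw) Gg hGg (fun x hx => (hdg x).trans_le
      ((min_le_left _ _).trans (hηle w hw))) φ hφ hc hφ0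
  have e2 : dint μ U Gg ψ = dint μ U (fun x => GF (Gg x)) (bind y r) := by
    unfold dint
    apply setIntegral_congr_fun hU.measurableSet
    intro x hx
    simp only
    have hchain : fderiv ℝ (fun x => GF (Gg x)) x = (fderiv ℝ GF (Gg x)).comp (fderiv ℝ Gg x) :=
      fderiv_comp x (hGF.differentiable one_ne_zero _) (hGg.differentiable one_ne_zero _)
    rw [hchain, Pool.Agent.Helper4.MKT.det_comp_apply]
    by_cases hz : Gg x ∈ W ∩ O
    · rw [hψ, indicator_of_mem hz]
      ring
    · rw [hψ, indicator_of_notMem hz]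
      have : bind y r (GF (Gg x)) = 0 := by
        apply bind_zero
        intro hmem
        exact hz (hloc₁ x (subset_closure hx) hmem)
      rw [this]
      ring
  have e3 : ∫ z, ψ z ∂μ = dint μ W GF (bind y r) := by
    rw [hψ, integral_indicator hWO]
    unfold dint
    symm
    apply setIntegral_eq_of_subset_of_forall_sdiff_eq_zero hW.measurableSet inter_subset_left
    intro z hz
    have : bind y r (GF z) = 0 := by
      apply bind_zero
      intro hmem
      exact hz.2 (hloc₂ z (subset_closure hz.1) hmem)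
    rw [this, zero_mul]
  have e4 := hk' GF hGF (fun z hz => (hdF z).trans_le hrε₁) r hrε₁
  have e5 := hκ' (fun x => GF (Gg x)) (hGF.comp hGg) (fun x hx => by
    have := hclose x (frontier_subset_closure hx)
    linarith) r (by linarith)
  rw [e2, e5, e3, e4, ← mul_assoc] at e1
  exact mul_right_cancel₀ (real_closedBall_pos μ y hr0).ne' e1

/-- The degree is locally constant in the target point. -/
theorem HasDeg.nhds {U : Set V} (hU : IsOpen U) (hUb : Bornology.IsBounded U) {F : V → V}
    (hF : ContinuousOn F (frontier U)) {y : V} {k : ℝ} (h : HasDeg μ U F y k) :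
    ∀ᶠ y' in 𝓝 y, HasDeg μ U F y' k := by
  obtain ⟨r, hr, hgap⟩ := exists_gap (isCompact_frontier' hUb) hF h.ne
  filter_upwards [ball_mem_nhds y hr] with y' hy'
  apply h.homotopy μ hU hUb hF hF
  intro x hx t ht heq
  have h1 := hgap x hx
  rw [mem_ball] at hy'
  have h2 : F x - y = t • (y' - y) := by
    have h3 : (1 - t) • (F x - y) + t • (F x - y') = (F x - y) - t • (y' - y) := by module
    rw [h3] at heq
    exact sub_eq_zero.mp heq
  rw [dist_eq_norm, h2, norm_smul, Real.norm_of_nonneg ht.1] at h1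
  rw [dist_eq_norm] at hy'
  have h4 : t * ‖y' - y‖ ≤ 1 * ‖y' - y‖ := by
    apply mul_le_mul_of_nonneg_right ht.2 (norm_nonneg _)
  linarith

/-- An injective map with open image has constant degree `1` or `-1`, also on open subsets. -/
theorem exists_sign {Q : Set V} (hQ : IsOpen Q) (hQb : Bornology.IsBounded Q)
    (hQc : IsPreconnected Q) (hQn : Q.Nonempty) {g : V → V} (hg : Continuous g)
    (hinj : InjOn g (closure Q)) (hop : IsOpen (g '' Q)) :
    ∃ s : ℝ, (s = 1 ∨ s = -1) ∧ ∀ U ⊆ Q, IsOpen U → ∀ x ∈ U, HasDeg μ U g (g x) s := by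
  classical
  have : ProperSpace V := FiniteDimensional.proper ℝ V
  have hclQ : IsCompact (closure Q) := hQb.isCompact_closure
  have hsubc : Q ⊆ closure Q := subset_closure
  have hfr : ∀ x ∈ Q, ∀ z ∈ frontier Q, g z ≠ g x := by
    intro x hx z hz heq
    have := hinj (frontier_subset_closure hz) (hsubc hx) heq
    rw [hQ.frontier_eq] at hz
    exact hz.2 (this ▸ hx)
  -- constancy
  obtain ⟨x₀, hx₀⟩ := hQn
  obtain ⟨s, hs⟩ := HasDeg.exists μ hQ hQb hg.continuousOn (y := g x₀) (hfr x₀ hx₀)
  have hconst : ∀ x ∈ Q, HasDeg μ Q g (g x) s := by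
    set A : Set V := {z | HasDeg μ Q g z s} with hA
    set B : Set V := {z | ∃ k, k ≠ s ∧ HasDeg μ Q g z k} with hB
    have hAo : IsOpen A := isOpen_iff_mem_nhds.mpr fun z hz =>
      HasDeg.nhds μ hQ hQb hg.continuousOn hz
    have hBo : IsOpen B := by
      rw [isOpen_iff_mem_nhds]
      rintro z ⟨k, hk, hz⟩
      filter_upwards [HasDeg.nhds μ hQ hQb hg.continuousOn hz] with z' hz'
      exact ⟨k, hk, hz'⟩
    have hAB : Disjoint A B := by
      rw [Set.disjoint_left]
      rintro z hz ⟨k, hk, hz'⟩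
      exact hk (HasDeg.unique μ hQ hQb hg.continuousOn hz' hz)
    have hsub : g '' Q ⊆ A ∪ B := by
      rintro _ ⟨x, hx, rfl⟩
      obtain ⟨k, hk⟩ := HasDeg.exists μ hQ hQb hg.continuousOn (y := g x) (hfr x hx)
      by_cases h : k = s
      · left; rw [h] at hk; exact hk
      · right; exact ⟨k, h, hk⟩
    have hpre : IsPreconnected (g '' Q) := hQc.image g hg.continuousOn
    rcases hpre.subset_or_subset hAo hBo hAB hsub with h | h
    · exact fun x hx => h ⟨x, hx, rfl⟩
    · obtain ⟨k, hk, hk'⟩ := h ⟨x₀, hx₀, rfl⟩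
      exact absurd (HasDeg.unique μ hQ hQb hg.continuousOn hk' hs) hk
  refine ⟨s, ?_, ?_⟩
  · -- the inverse map
    have he : IsClosedEmbedding (fun x : closure Q => g x) := by
      have : CompactSpace (closure Q) := isCompact_iff_compactSpace.mp hclQ
      apply Continuous.isClosedEmbedding (hg.comp continuous_subtype_val)
      intro a b hab
      exact Subtype.ext (hinj a.2 b.2 hab)
    obtain ⟨h, hh⟩ := ContinuousMap.exists_extension he
      ⟨fun x : closure Q => (x : V), continuous_subtype_val⟩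
    have hinv : ∀ x ∈ closure Q, h (g x) = x := fun x hx =>
      congrArg (fun f => f ⟨x, hx⟩) hh
    have hWb : Bornology.IsBounded (g '' Q) :=
      (hclQ.image hg).isBounded.subset (image_mono hsubc)
    have hfrW : ∀ z ∈ frontier (g '' Q), h z ≠ x₀ := by
      intro z hz heq
      rw [hop.frontier_eq] at hz
      have h1 : z ∈ g '' closure Q := by
        have : closure (g '' Q) ⊆ g '' closure Q :=
          closure_minimal (image_mono hsubc) (hclQ.image hg).isClosed
        exact this hz.1
      obtain ⟨w, hw, rfl⟩ := h1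
      rw [hinv w hw] at heq
      apply hz.2
      exact ⟨w, heq ▸ hx₀, rfl⟩
    obtain ⟨k, hk⟩ := HasDeg.exists μ hop hWb h.continuous.continuousOn (y := x₀) hfrW
    have hcomp := HasDeg.comp μ hQ hQb hop hWb hg h.continuous (y := x₀) (s := s) (k := k)
      (fun x hx heq => by
        rw [hinv x hx] at heq
        exact ⟨x, heq ▸ hx₀, rfl⟩)
      (fun x hx heq => by
        rw [hinv x (frontier_subset_closure hx)] at heq
        rw [hQ.frontier_eq] at hx
        exact hx.2 (heq ▸ hx₀))
      (fun z hz _ => by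
        obtain ⟨x, hx, rfl⟩ := hz
        exact hconst x hx) hk
    have hid := hcomp.congr μ (F' := fun x => x)
      (fun x hx => hinv x (frontier_subset_closure hx))
    have h1 : s * k = 1 := HasDeg.unique μ hQ hQb continuousOn_id hid (HasDeg.id μ hQ hQb hx₀)
    obtain ⟨m, rfl⟩ := HasDeg.int μ hQ hQb hg.continuousOn hs
    obtain ⟨n, rfl⟩ := HasDeg.int μ hop hWb h.continuous.continuousOn hk
    have h2 : m * n = 1 := by exact_mod_cast h1
    rcases Int.eq_one_or_neg_one_of_mul_eq_one h2 with rfl | rfl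
    · left; simp
    · right; simp
  · intro U hUQ hU x hx
    have hUb : Bornology.IsBounded U := hQb.subset hUQ
    have hclU : closure U ⊆ closure Q := closure_mono hUQ
    obtain ⟨k, hk⟩ := HasDeg.exists μ hU hUb (F := g) hg.continuousOn (y := g x) (by
      intro z hz heq
      have := hinj (hclU (frontier_subset_closure hz)) (hsubc (hUQ hx)) heq
      rw [hU.frontier_eq] at hz
      exact hz.2 (this ▸ hx))
    have hsum := HasDeg.sum μ (Finset.univ : Finset Unit) hQ hQb (W := fun _ => U)
      (fun _ _ => hU) (fun _ _ => hUQ) (fun a _ b _ hab => (hab (Subsingleton.elim a b)).elim)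
      hg.continuousOn (y := g x) (fun z hz heq => ⟨(), Finset.mem_univ _, by
        have := hinj hz (hsubc (hUQ hx)) heq
        exact this ▸ hx⟩) (k := fun _ => k) (fun _ _ => hk)
    simp only [Finset.univ_unique, Finset.sum_const, Finset.card_singleton, one_smul] at hsum
    have := HasDeg.unique μ hQ hQb hg.continuousOn hsum (hconst x (hUQ hx))
    rw [← this]
    exact hk

end Pool.Agent.Helper3.HS
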