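import Pool.Agent.Helper3.HS.Local
import Pool.Agent.Helper3.HS.UC2

/-!
# The global theorem
-/

set_option autoImplicit false
set_option linter.unusedSectionVars false
set_option linter.unusedVariables false

open Set MeasureTheory Metric Filter Topology
open scoped NNReal ENNReal

namespace Pool.Agent.Helper3.HS

variable {d : ℕ} {X : Type*} [MetricSpace X] {G : Type*} [Group G] [TopologicalSpace G]
  [MulAction G X]

/-- Multiplication by `c` as an endomorphism of the additive group of `p`-adic integers. -/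
noncomputable def mulHom {p : ℕ} [Fact p.Prime] (c : ℤ_[p]) :
    Multiplicative ℤ_[p] →* Multiplicative ℤ_[p] :=
  AddMonoidHom.toMultiplicative (AddMonoidHom.mulLeft c)

theorem mulHom_ofAdd {p : ℕ} [Fact p.Prime] (c a : ℤ_[p]) :
    mulHom c (Multiplicative.ofAdd a) = Multiplicative.ofAdd (c * a) := rfl

theorem continuous_mulHom {p : ℕ} [Fact p.Prime] (c : ℤ_[p]) : Continuous (mulHom c) := by
  have : (mulHom c : Multiplicative ℤ_[p] → Multiplicative ℤ_[p]) =
      fun a => Multiplicative.ofAdd (c * Multiplicative.toAdd a) := rfl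
  rw [this]
  exact continuous_ofAdd.comp (continuous_const.mul continuous_toAdd)

/-- A continuous homomorphism maps the multiples of a high power of `p` near the identity. -/
theorem exists_pow_mem {p : ℕ} [Fact p.Prime] {θ : Multiplicative ℤ_[p] →* G}
    (hθ : Continuous θ) {V : Set G} (hV : V ∈ 𝓝 (1 : G)) :
    ∃ k : ℕ, ∀ a : ℤ_[p], θ (Multiplicative.ofAdd ((p : ℤ_[p]) ^ k * a)) ∈ V := by
  have h1 : Tendsto (fun a : ℤ_[p] => θ (Multiplicative.ofAdd a)) (𝓝 0) (𝓝 1) := by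
    have h0 : θ (Multiplicative.ofAdd (0 : ℤ_[p])) = 1 := by rw [ofAdd_zero, map_one]
    have := (hθ.comp continuous_ofAdd).tendsto (0 : ℤ_[p])
    simp only [Function.comp_apply, h0] at this
    exact this
  obtain ⟨δ, hδ, hball⟩ := Metric.mem_nhds_iff.mp (h1 hV)
  obtain ⟨k, hk⟩ := PadicInt.exists_pow_neg_lt p hδ
  refine ⟨k, fun a => ?_⟩
  apply hball
  rw [mem_ball_zero_iff, norm_mul, norm_pow, PadicInt.norm_p, inv_pow]
  have h2 : ‖a‖ ≤ 1 := PadicInt.norm_le_one a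
  have h3 : (0 : ℝ) ≤ ((p : ℝ) ^ k)⁻¹ := by positivity
  calc ((p : ℝ) ^ k)⁻¹ * ‖a‖ ≤ ((p : ℝ) ^ k)⁻¹ * 1 := mul_le_mul_of_nonneg_left h2 h3
    _ = (p : ℝ) ^ (-(k : ℤ)) := by rw [mul_one, zpow_neg, zpow_natCast]
    _ < δ := hk

variable [IsTopologicalGroup G] [ContinuousSMul G X]

theorem descend [MeasurableSpace X] [BorelSpace X] [BaireSpace G]
    (hH : ∀ g : G, ∀ x ∈ regPts (d + 1) X, ∃ α s : ℝ, 0 < s ∧ (d : ℝ) < α * s ∧ s ≤ d + 1 ∧
      HajlaszAt (d + 1) α s (fun y => g • y) x)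
    {p : ℕ} [Fact p.Prime] {θ : Multiplicative ℤ_[p] →* G} (hθ : Continuous θ) {x₁ : X}
    (hx₁ : x₁ ∈ regPts (d + 1) X)
    (hcl : x₁ ∈ closure {x | ∀ᶠ x' in 𝓝 x, ∀ a : ℤ_[p], θ (Multiplicative.ofAdd a) • x' = x'}) :
    ∀ᶠ x in 𝓝 x₁, ∀ a : ℤ_[p], θ (Multiplicative.ofAdd a) • x = x := by
  obtain ⟨V, hV, N, hN, hloc⟩ := local_theorem hx₁ (fun g => hH g x₁ hx₁)
  obtain ⟨k, hk⟩ := exists_pow_mem hθ hV
  have hPk : ∀ᶠ x in 𝓝 x₁, ∀ a : ℤ_[p], θ (Multiplicative.ofAdd ((p : ℤ_[p]) ^ k * a)) • x = x := by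
    filter_upwards [hN] with x hx a
    exact hloc p (θ.comp (mulHom ((p : ℤ_[p]) ^ k))) (hθ.comp (continuous_mulHom _))
      (fun a => hk (Multiplicative.toAdd a)) (Multiplicative.ofAdd a) x hx
  have hdesc : ∀ j : ℕ, (∀ᶠ x in 𝓝 x₁, ∀ a : ℤ_[p],
      θ (Multiplicative.ofAdd ((p : ℤ_[p]) ^ j * a)) • x = x) →
      ∀ᶠ x in 𝓝 x₁, ∀ a : ℤ_[p], θ (Multiplicative.ofAdd a) • x = x := by
    intro j
    induction j with
    | zero =>
      intro h
      simpa using h
    | succ j ih =>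
      intro h
      apply ih
      have h1 := uc_local hx₁ (θ := θ.comp (mulHom ((p : ℤ_[p]) ^ j)))
        (hθ.comp (continuous_mulHom _)) hH
      simp only [MonoidHom.comp_apply, mulHom_ofAdd] at h1
      apply h1
      · filter_upwards [h] with x hx a
        have := hx a
        rwa [pow_succ, mul_assoc] at this
      · refine closure_mono ?_ hcl
        intro x hx
        filter_upwards [hx] with x' hx' a
        exact hx' _
  exact hdesc k hPk

/-- **The global theorem.** -/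
theorem global_theorem [MeasurableSpace X] [BorelSpace X] [BaireSpace G] [FaithfulSMul G X]
    (hdense : Dense (regPts (d + 1) X)) (hconn : IsPreconnected (regPts (d + 1) X))
    (hH : ∀ g : G, ∀ x ∈ regPts (d + 1) X, ∃ α s : ℝ, 0 < s ∧ (d : ℝ) < α * s ∧ s ≤ d + 1 ∧
      HajlaszAt (d + 1) α s (fun y => g • y) x) :
    ∃ V ∈ 𝓝 (1 : G), ∀ (p : ℕ) [Fact p.Prime] (θ : Multiplicative ℤ_[p] →* G),
      Continuous θ → (∀ a, θ a ∈ V) → ∀ a, θ a = 1 := by
  rcases (regPts (d + 1) X).eq_empty_or_nonempty with hem | ⟨x₀, hx₀⟩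
  · refine ⟨univ, univ_mem, fun p _ θ _ _ a => ?_⟩
    have hX : IsEmpty X := by
      rw [hem] at hdense
      by_contra hne
      rw [not_isEmpty_iff] at hne
      exact absurd hdense.nonempty not_nonempty_empty
    apply FaithfulSMul.eq_of_smul_eq_smul (α := X)
    intro x
    exact (hX.false x).elim
  obtain ⟨V, hV, N, hN, hloc⟩ := local_theorem hx₀ (fun g => hH g x₀ hx₀)
  refine ⟨V, hV, fun p _ θ hθ hθV => ?_⟩
  set O : Set X := {x | ∀ᶠ x' in 𝓝 x, ∀ a : ℤ_[p], θ (Multiplicative.ofAdd a) • x' = x'} with hO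
  have hOo : IsOpen O := isOpen_setOfPred_eventually_nhds
  have hx₀O : x₀ ∈ O := by
    change ∀ᶠ x' in 𝓝 x₀, ∀ a : ℤ_[p], θ (Multiplicative.ofAdd a) • x' = x'
    filter_upwards [hN] with x hx a
    exact hloc p θ hθ hθV (Multiplicative.ofAdd a) x hx
  have hsub : regPts (d + 1) X ⊆ O := by
    apply hconn.subset_of_closure_inter_subset hOo ⟨x₀, hx₀, hx₀O⟩
    rintro x ⟨hxc, hxr⟩
    exact descend hH hθ hxr hxc
  intro a
  apply FaithfulSMul.eq_of_smul_eq_smul (α := X)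
  intro x
  rw [one_smul]
  have h1 : closure (regPts (d + 1) X) ⊆
      {x : X | ∀ a : ℤ_[p], θ (Multiplicative.ofAdd a) • x = x} :=
    closure_minimal (fun x hx => (hsub hx).self_of_nhds) (isClosed_fixed θ)
  exact h1 (hdense x) (Multiplicative.toAdd a)

/-- There is no copy of the `p`-adic integers. -/
theorem no_injective {V : Set G} (hV : V ∈ 𝓝 (1 : G))
    (h : ∀ (p : ℕ) [Fact p.Prime] (θ : Multiplicative ℤ_[p] →* G),
      Continuous θ → (∀ a, θ a ∈ V) → ∀ a, θ a = 1) (p : ℕ) [hp : Fact p.Prime]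
    (θ : Multiplicative ℤ_[p] →* G) (hθ : Continuous θ) : ¬ Function.Injective θ := by
  intro hinj
  obtain ⟨k, hk⟩ := exists_pow_mem hθ hV
  have h1 := h p (θ.comp (mulHom ((p : ℤ_[p]) ^ k))) (hθ.comp (continuous_mulHom _))
    (fun a => hk (Multiplicative.toAdd a)) (Multiplicative.ofAdd 1)
  rw [MonoidHom.comp_apply, mulHom_ofAdd, mul_one] at h1
  have h2 : Multiplicative.ofAdd ((p : ℤ_[p]) ^ k) = 1 := hinj (by rw [h1, map_one])
  have h3 : ((p : ℤ_[p]) ^ k) = 0 := h2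
  have h4 : (p : ℤ_[p]) ≠ 0 := by
    exact_mod_cast hp.out.ne_zero
  exact pow_ne_zero k h4 h3

end Pool.Agent.Helper3.HS
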