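import Mathlib

/-!
# Morrey's inequality for Hajłasz functions on a cube
-/

set_option autoImplicit false
set_option linter.unusedSectionVars false
set_option linter.unusedVariables false

open Set MeasureTheory Metric Filter Topology
open scoped NNReal ENNReal

namespace Pool.Agent.Helper3.HS

/-- The constant in Morrey's inequality. -/
noncomputable def morreyC (d : ℕ) (α s : ℝ) : ℝ :=
  (2 * (2 * 2 ^ ((d : ℝ) / s)) / (1 - 2 ^ (-(α - d / s)))) ^ s

theorem morreyC_nonneg {d : ℕ} {α s : ℝ} (hs : 0 < s) (hα : (d : ℝ) < α * s) :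
    0 ≤ morreyC d α s := by
  unfold morreyC
  apply Real.rpow_nonneg
  apply div_nonneg (by positivity)
  have h1 : 0 < α - d / s := by
    rw [sub_pos, div_lt_iff₀ hs]; exact hα
  have h2 : (2 : ℝ) ^ (-(α - d / s)) ≤ 1 := Real.rpow_le_one_of_one_le_of_nonpos (by norm_num)
    (by linarith)
  linarith

variable {d : ℕ}

/-- **Morrey's inequality** on a cube. -/
theorem morrey {Y : Type*} [PseudoEMetricSpace Y] {a : Fin d → ℝ} {h : ℝ} (hh : 0 < h)
    {α s : ℝ} (hα0 : 0 < α) (hs : 0 < s) (hαs : (d : ℝ) < α * s)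
    {f : (Fin d → ℝ) → Y} (hf : ContinuousOn f (Icc a (fun k => a k + h)))
    {ρ : (Fin d → ℝ) → ℝ≥0∞} (hρ : Measurable ρ)
    (hfρ : ∀ x ∈ Icc a (fun k => a k + h), ∀ z ∈ Icc a (fun k => a k + h),
      edist (f x) (f z) ≤ edist x z ^ α * (ρ x + ρ z)) :
    Metric.ediam (f '' Icc a (fun k => a k + h)) ^ s ≤
      ENNReal.ofReal (morreyC d α s) * ENNReal.ofReal (h ^ (α * s - d)) *
        ∫⁻ w in Icc a (fun k => a k + h), ρ w ^ s := by
  set S : Set (Fin d → ℝ) := Icc a (fun k => a k + h) with hS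
  set I : ℝ≥0∞ := ∫⁻ w in S, ρ w ^ s with hI
  have hδ : 0 < α - d / s := by
    rw [sub_pos, div_lt_iff₀ hs]; exact hαs
  set δ : ℝ := α - d / s with hδdef
  -- subcubes
  set sub : (Fin d → ℝ) → ℕ → Set (Fin d → ℝ) := fun x k =>
    Icc (fun i => x i + (2 : ℝ)⁻¹ ^ k * (a i - x i))
      (fun i => x i + (2 : ℝ)⁻¹ ^ k * (a i + h - x i)) with hsub
  have hpow : ∀ k : ℕ, 0 < (2 : ℝ)⁻¹ ^ k := fun k => by positivity
  have hpow1 : ∀ k : ℕ, (2 : ℝ)⁻¹ ^ k ≤ 1 := fun k => pow_le_one₀ (by norm_num) (by norm_num)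
  have hsubS : ∀ x ∈ S, ∀ k, sub x k ⊆ S := by
    intro x hx k z hz
    rw [hS, mem_Icc, Pi.le_def, Pi.le_def] at hx ⊢
    rw [hsub, mem_Icc, Pi.le_def, Pi.le_def] at hz
    constructor
    · intro i
      have h1 := hz.1 i
      have h2 := hx.1 i
      have h3 := hpow1 k
      try simp only at h1
      nlinarith [hpow k]
    · intro i
      have h1 := hz.2 i
      have h2 := hx.2 i
      have h3 := hpow1 k
      try simp only at h1 h2 ⊢
      nlinarith [hpow k]
  have hsubmono : ∀ x ∈ S, ∀ k, sub x (k + 1) ⊆ sub x k := by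
    intro x hx k z hz
    rw [hS, mem_Icc, Pi.le_def, Pi.le_def] at hx
    rw [hsub, mem_Icc, Pi.le_def, Pi.le_def] at hz ⊢
    have h4 : (2 : ℝ)⁻¹ ^ (k + 1) = (2 : ℝ)⁻¹ ^ k / 2 := by rw [pow_succ]; ring
    constructor
    · intro i
      have h1 := hz.1 i
      have h2 := hx.1 i
      try simp only at h1 ⊢
      rw [h4] at h1
      nlinarith [hpow k]
    · intro i
      have h1 := hz.2 i
      have h2 := hx.2 i
      try simp only at h1 h2 ⊢
      rw [h4] at h1
      nlinarith [hpow k]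
  have hsub0 : ∀ x, sub x 0 = S := by
    intro x
    simp only [hsub, hS, pow_zero, one_mul, add_sub_cancel]
  have hedist : ∀ x k, ∀ z ∈ sub x k, ∀ w ∈ sub x k,
      edist z w ≤ ENNReal.ofReal ((2 : ℝ)⁻¹ ^ k * h) := by
    intro x k z hz w hw
    rw [edist_dist]
    apply ENNReal.ofReal_le_ofReal
    rw [dist_pi_le_iff (by positivity)]
    intro i
    rw [hsub, mem_Icc, Pi.le_def, Pi.le_def] at hz hw
    have h1 := hz.1 i
    have h2 := hz.2 i
    have h3 := hw.1 i
    have h4 := hw.2 i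
    try simp only at h1 h2 h3 h4
    rw [Real.dist_eq, abs_le]
    constructor <;> nlinarith [hpow k]
  have hxsub : ∀ x ∈ S, ∀ k, x ∈ sub x k := by
    intro x hx k
    rw [hS, mem_Icc, Pi.le_def, Pi.le_def] at hx
    rw [hsub, mem_Icc, Pi.le_def, Pi.le_def]
    constructor
    · intro i
      have h2 := hx.1 i
      try simp only
      nlinarith [hpow k]
    · intro i
      have h2 := hx.2 i
      try simp only at h2 ⊢
      nlinarith [hpow k]
  have hvol : ∀ x k, volume (sub x k) = ENNReal.ofReal (((2 : ℝ)⁻¹ ^ k * h) ^ d) := by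
    intro x k
    rw [hsub, Real.volume_Icc_pi]
    have : ∀ i : Fin d, x i + (2 : ℝ)⁻¹ ^ k * (a i + h - x i) -
        (x i + (2 : ℝ)⁻¹ ^ k * (a i - x i)) = (2 : ℝ)⁻¹ ^ k * h := fun i => by ring
    simp_rw [this]
    rw [Finset.prod_const, Finset.card_univ, Fintype.card_fin, ENNReal.ofReal_pow (by positivity)]
  -- good points
  have hgood : ∀ x ∈ S, ∀ k, ∃ z ∈ sub x k,
      ρ z ≤ ENNReal.ofReal (((2 : ℝ)⁻¹ ^ k * h) ^ (-(d / s) : ℝ)) * I ^ (1 / s) := by
    intro x hx k
    have hbase : 0 < (2 : ℝ)⁻¹ ^ k * h := by positivity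
    obtain ⟨z, hz, hle⟩ := exists_le_setLAverage (μ := volume) (s := sub x k)
      (f := fun w => ρ w ^ s) (by
        rw [hvol]
        simp only [ne_eq, ENNReal.ofReal_eq_zero, not_le]
        positivity) (by rw [hvol]; exact ENNReal.ofReal_ne_top) (hρ.pow_const s).aemeasurable
    refine ⟨z, hz, ?_⟩
    rw [setLAverage_eq, hvol] at hle
    have h1 : ∫⁻ w in sub x k, ρ w ^ s ≤ I := lintegral_mono_set (hsubS x hx k)
    have h2 : ρ z ^ s ≤ I / ENNReal.ofReal (((2 : ℝ)⁻¹ ^ k * h) ^ d) :=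
      hle.trans (ENNReal.div_le_div_right h1 _)
    have h3 : ρ z = (ρ z ^ s) ^ (1 / s) := by
      rw [← ENNReal.rpow_mul, mul_one_div_cancel hs.ne', ENNReal.rpow_one]
    rw [h3]
    refine (ENNReal.rpow_le_rpow h2 (by positivity)).trans_eq ?_
    rw [ENNReal.div_eq_inv_mul, ENNReal.mul_rpow_of_nonneg _ _ (by positivity),
      ← ENNReal.ofReal_inv_of_pos (by positivity), ENNReal.ofReal_rpow_of_pos (by positivity)]
    congr 2
    rw [← Real.rpow_natCast, ← Real.rpow_neg hbase.le, ← Real.rpow_mul hbase.le]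
    congr 1
    ring
  -- a common starting point
  have haS : a ∈ S := by
    rw [hS, mem_Icc]
    exact ⟨le_rfl, fun k => by simp only; linarith⟩
  obtain ⟨z₀, hz₀S, hz₀⟩ := hgood a haS 0
  rw [hsub0] at hz₀S
  set q : ℝ := 2 ^ (-δ) with hq
  have hq0 : 0 < q := by positivity
  have hq1 : q < 1 := Real.rpow_lt_one_of_one_lt_of_neg (by norm_num) (by linarith)
  set A : ℝ := (2 * 2 ^ ((d : ℝ) / s)) * h ^ δ with hA
  have hA0 : 0 ≤ A := by positivity
  have hdist : ∀ x ∈ S, edist (f z₀) (f x) ≤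
      ENNReal.ofReal (A / (1 - q)) * I ^ (1 / s) := by
    intro x hx
    choose z hz hρz using hgood x hx
    set zz : ℕ → (Fin d → ℝ) := fun k => if k = 0 then z₀ else z k with hzz
    have hzzsub : ∀ k, zz k ∈ sub x k := by
      intro k
      simp only [hzz]
      split_ifs with hk
      · subst hk; rw [hsub0]; exact hz₀S
      · exact hz k
    have hzzρ : ∀ k, ρ (zz k) ≤
        ENNReal.ofReal (((2 : ℝ)⁻¹ ^ k * h) ^ (-(d / s) : ℝ)) * I ^ (1 / s) := by
      intro k
      simp only [hzz]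
      split_ifs with hk
      · subst hk; exact hz₀
      · exact hρz k
    have hzzS : ∀ k, zz k ∈ S := fun k => hsubS x hx k (hzzsub k)
    have htend : Tendsto zz atTop (𝓝 x) := by
      rw [tendsto_iff_edist_tendsto_0]
      have h1 : Tendsto (fun k : ℕ => ENNReal.ofReal ((2 : ℝ)⁻¹ ^ k * h)) atTop (𝓝 0) := by
        rw [← ENNReal.ofReal_zero]
        apply ENNReal.tendsto_ofReal
        have := (tendsto_pow_atTop_nhds_zero_of_lt_one (r := (2 : ℝ)⁻¹) (by norm_num)
          (by norm_num)).mul_const h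
        rwa [zero_mul] at this
      exact tendsto_of_tendsto_of_tendsto_of_le_of_le tendsto_const_nhds h1
        (fun _ => zero_le) (fun k => hedist x k _ (hzzsub k) _ (hxsub x hx k))
    have htendf : Tendsto (fun k => f (zz k)) atTop (𝓝 (f x)) := by
      apply (hf x hx).tendsto.comp
      rw [tendsto_nhdsWithin_iff]
      exact ⟨htend, Eventually.of_forall hzzS⟩
    have hstep : ∀ k, edist (f (zz k)) (f (zz k.succ)) ≤
        ENNReal.ofReal (A * q ^ k) * I ^ (1 / s) := by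
      intro k
      have hbk : 0 < (2 : ℝ)⁻¹ ^ k * h := by positivity
      have hbk' : 0 < (2 : ℝ)⁻¹ ^ (k + 1) * h := by positivity
      have h1 := hfρ _ (hzzS k) _ (hzzS (k + 1))
      have h2 : edist (zz k) (zz (k + 1)) ^ α ≤ ENNReal.ofReal (((2 : ℝ)⁻¹ ^ k * h) ^ α) := by
        rw [← ENNReal.ofReal_rpow_of_pos hbk]
        exact ENNReal.rpow_le_rpow (hedist x k _ (hzzsub k) _
          (hsubmono x hx k (hzzsub (k + 1)))) hα0.le
      have h3 : ρ (zz k) + ρ (zz (k + 1)) ≤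
          ENNReal.ofReal (2 * ((2 : ℝ)⁻¹ ^ (k + 1) * h) ^ (-(d / s) : ℝ)) * I ^ (1 / s) := by
        have h4 : ((2 : ℝ)⁻¹ ^ k * h) ^ (-(d / s) : ℝ) ≤
            ((2 : ℝ)⁻¹ ^ (k + 1) * h) ^ (-(d / s) : ℝ) := by
          have h5 : (2 : ℝ)⁻¹ ^ (k + 1) * h ≤ (2 : ℝ)⁻¹ ^ k * h := by
            have : (2 : ℝ)⁻¹ ^ (k + 1) ≤ (2 : ℝ)⁻¹ ^ k := by
              rw [pow_succ]
              have := hpow k
              linarith
            gcongr
          have h6 : 0 ≤ (d : ℝ) / s := by positivity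
          exact Real.rpow_le_rpow_of_nonpos hbk' h5 (by linarith)
        calc ρ (zz k) + ρ (zz (k + 1))
            ≤ ENNReal.ofReal (((2 : ℝ)⁻¹ ^ (k + 1) * h) ^ (-(d / s) : ℝ)) * I ^ (1 / s) +
              ENNReal.ofReal (((2 : ℝ)⁻¹ ^ (k + 1) * h) ^ (-(d / s) : ℝ)) * I ^ (1 / s) := by
                apply add_le_add _ (hzzρ (k + 1))
                refine (hzzρ k).trans ?_
                gcongr
          _ = _ := by
                rw [← add_mul, ← ENNReal.ofReal_add (by positivity) (by positivity), two_mul]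
      refine h1.trans ((mul_le_mul' h2 h3).trans_eq ?_)
      rw [← mul_assoc, ← ENNReal.ofReal_mul (by positivity)]
      congr 2
      -- real computation
      rw [hA, hq, Real.mul_rpow (by positivity) hh.le, Real.mul_rpow (by positivity) hh.le]
      have e1 : ((2 : ℝ)⁻¹ ^ k) ^ α = (2 : ℝ) ^ (-(k * α)) := by
        rw [inv_pow, ← Real.rpow_natCast, ← Real.rpow_neg (by norm_num), ← Real.rpow_mul
          (by norm_num)]
        congr 1; ring
      have e2 : ((2 : ℝ)⁻¹ ^ (k + 1)) ^ (-(d / s) : ℝ) = (2 : ℝ) ^ ((k + 1) * (d / s)) := by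
        rw [inv_pow, ← Real.rpow_natCast, ← Real.rpow_neg (by norm_num), ← Real.rpow_mul
          (by norm_num)]
        congr 1; push_cast; ring
      have e3 : ((2 : ℝ) ^ (-δ)) ^ k = (2 : ℝ) ^ (-(k * δ)) := by
        rw [← Real.rpow_natCast, ← Real.rpow_mul (by norm_num)]
        congr 1; ring
      rw [e1, e2, e3]
      have e4 : h ^ α * h ^ (-(d / s) : ℝ) = h ^ δ := by
        rw [← Real.rpow_add hh, hδdef]; congr 1
      have e5 : (2 : ℝ) ^ (-(k * α)) * (2 : ℝ) ^ ((k + 1) * (d / s)) =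
          (2 : ℝ) ^ ((d : ℝ) / s) * (2 : ℝ) ^ (-(k * δ)) := by
        rw [← Real.rpow_add (by norm_num), ← Real.rpow_add (by norm_num), hδdef]
        congr 1; ring
      calc (2 : ℝ) ^ (-(k * α)) * h ^ α * (2 * ((2 : ℝ) ^ ((k + 1) * (d / s)) *
            h ^ (-(d / s) : ℝ)))
          = 2 * ((2 : ℝ) ^ (-(k * α)) * (2 : ℝ) ^ ((k + 1) * (d / s))) *
            (h ^ α * h ^ (-(d / s) : ℝ)) := by ring
        _ = _ := by rw [e4, e5]; ring
    have hsum := edist_le_tsum_of_edist_le_of_tendsto₀ _ hstep htendf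
    have hz0 : zz 0 = z₀ := by simp [hzz]
    rw [hz0] at hsum
    refine hsum.trans_eq ?_
    rw [ENNReal.tsum_mul_right]
    congr 1
    have : ∀ k : ℕ, ENNReal.ofReal (A * q ^ k) = ENNReal.ofReal A * ENNReal.ofReal q ^ k := by
      intro k
      rw [ENNReal.ofReal_mul hA0, ENNReal.ofReal_pow hq0.le]
    simp_rw [this]
    rw [ENNReal.tsum_mul_left, ENNReal.tsum_geometric, div_eq_mul_inv, ENNReal.ofReal_mul hA0,
      ENNReal.ofReal_inv_of_pos (by linarith), ENNReal.ofReal_sub 1 hq0.le, ENNReal.ofReal_one]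
  have hdiam : Metric.ediam (f '' S) ≤ ENNReal.ofReal (2 * (A / (1 - q))) * I ^ (1 / s) := by
    apply Metric.ediam_le
    rintro _ ⟨x, hx, rfl⟩ _ ⟨y, hy, rfl⟩
    calc edist (f x) (f y) ≤ edist (f x) (f z₀) + edist (f z₀) (f y) := edist_triangle _ _ _
      _ ≤ ENNReal.ofReal (A / (1 - q)) * I ^ (1 / s) +
          ENNReal.ofReal (A / (1 - q)) * I ^ (1 / s) := by
          apply add_le_add _ (hdist y hy)
          rw [edist_comm]
          exact hdist x hx
      _ = _ := by
          have : 0 ≤ A / (1 - q) := div_nonneg hA0 (by linarith)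
          rw [← add_mul, ← ENNReal.ofReal_add this this, two_mul]
  calc Metric.ediam (f '' S) ^ s
      ≤ (ENNReal.ofReal (2 * (A / (1 - q))) * I ^ (1 / s)) ^ s :=
        ENNReal.rpow_le_rpow hdiam hs.le
    _ = ENNReal.ofReal ((2 * (A / (1 - q))) ^ s) * I := by
        have h1 : 0 ≤ 2 * (A / (1 - q)) := by
          have : 0 ≤ A / (1 - q) := div_nonneg hA0 (by linarith)
          linarith
        rw [ENNReal.mul_rpow_of_nonneg _ _ hs.le, ENNReal.ofReal_rpow_of_nonneg h1 hs.le,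
          ← ENNReal.rpow_mul, one_div_mul_cancel hs.ne', ENNReal.rpow_one]
    _ = _ := by
        rw [← ENNReal.ofReal_mul (morreyC_nonneg hs hαs)]
        congr 2
        unfold morreyC
        have h1 : 2 * (A / (1 - q)) = (2 * (2 * 2 ^ ((d : ℝ) / s)) / (1 - 2 ^ (-(α - d / s)))) *
            h ^ δ := by
          rw [hA, hq, hδdef]; ring
        have h2 : 0 < 1 - (2 : ℝ) ^ (-(α - d / s)) := by
          have : (2 : ℝ) ^ (-(α - d / s)) = q := by rw [hq, hδdef]
          rw [this]; linarith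
        rw [h1, Real.mul_rpow (by positivity) (by positivity), ← Real.rpow_mul hh.le]
        congr 2
        rw [hδdef]
        field_simp

end Pool.Agent.Helper3.HS
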