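import Mathlib

/-!
# The paraboloid coordinates
-/

set_option autoImplicit false
set_option linter.unusedSectionVars false
set_option linter.unusedVariables false

open Set Metric Filter Topology
open scoped NNReal ENNReal

namespace Pool.Agent.Helper3.HS

variable {ι : Type*} [Fintype ι]

/-- The Euclidean quadratic form. -/
def qf (x : ι → ℝ) : ℝ := ∑ i, x i ^ 2

/-- The Euclidean inner product. -/
def bf (x y : ι → ℝ) : ℝ := ∑ i, x i * y i

theorem continuous_qf : Continuous (qf : (ι → ℝ) → ℝ) := by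
  unfold qf
  fun_prop

theorem qf_nonneg (x : ι → ℝ) : 0 ≤ qf x := Finset.sum_nonneg fun i _ => sq_nonneg _

theorem qf_eq_zero {x : ι → ℝ} (h : qf x = 0) : x = 0 := by
  funext i
  have h1 := (Finset.sum_eq_zero_iff_of_nonneg (fun i _ => sq_nonneg (x i))).mp h i
    (Finset.mem_univ i)
  exact pow_eq_zero_iff (two_ne_zero) |>.mp h1

theorem qf_zero : qf (0 : ι → ℝ) = 0 := by
  unfold qf; simp

theorem qf_pos {x : ι → ℝ} (h : x ≠ 0) : 0 < qf x :=
  lt_of_le_of_ne (qf_nonneg x) fun h' => h (qf_eq_zero h'.symm)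

theorem qf_add (x y : ι → ℝ) : qf (x + y) = qf x + 2 * bf x y + qf y := by
  unfold qf bf
  rw [Finset.mul_sum, ← Finset.sum_add_distrib, ← Finset.sum_add_distrib]
  apply Finset.sum_congr rfl
  intro i _
  simp only [Pi.add_apply]
  ring

theorem qf_smul (t : ℝ) (x : ι → ℝ) : qf (t • x) = t ^ 2 * qf x := by
  unfold qf
  rw [Finset.mul_sum]
  apply Finset.sum_congr rfl
  intro i _
  simp only [Pi.smul_apply, smul_eq_mul]
  ring

theorem bf_self (x : ι → ℝ) : bf x x = qf x := by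
  unfold bf qf
  apply Finset.sum_congr rfl
  intro i _
  ring

theorem bf_add_left (x y z : ι → ℝ) : bf (x + y) z = bf x z + bf y z := by
  unfold bf
  rw [← Finset.sum_add_distrib]
  apply Finset.sum_congr rfl
  intro i _
  simp only [Pi.add_apply]
  ring

theorem bf_smul_left (t : ℝ) (x z : ι → ℝ) : bf (t • x) z = t * bf x z := by
  unfold bf
  rw [Finset.mul_sum]
  apply Finset.sum_congr rfl
  intro i _
  simp only [Pi.smul_apply, smul_eq_mul]
  ring

theorem norm_lt_of_qf_lt {x : ι → ℝ} {r : ℝ} (hr : 0 < r) (h : qf x < r ^ 2) : ‖x‖ < r := by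
  rw [pi_norm_lt_iff hr]
  intro i
  have h1 : x i ^ 2 ≤ qf x := Finset.single_le_sum (f := fun i => x i ^ 2)
    (fun i _ => sq_nonneg _) (Finset.mem_univ i)
  rw [Real.norm_eq_abs]
  exact abs_lt_of_sq_lt_sq (h1.trans_lt h) hr.le

theorem qf_sub_le {x y : ι → ℝ} {R : ℝ} (hx : ‖x‖ ≤ R) (hy : ‖y‖ ≤ R) :
    |qf x - qf y| ≤ 2 * Fintype.card ι * R * ‖x - y‖ := by
  unfold qf
  rw [← Finset.sum_sub_distrib]
  refine (Finset.abs_sum_le_sum_abs _ _).trans ?_
  have h1 : ∀ i ∈ Finset.univ, |x i ^ 2 - y i ^ 2| ≤ 2 * R * ‖x - y‖ := by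
    intro i _
    have e : x i ^ 2 - y i ^ 2 = (x i + y i) * (x i - y i) := by ring
    rw [e, abs_mul]
    have h2 : |x i| ≤ R := (norm_le_pi_norm x i).trans hx
    have h3 : |y i| ≤ R := (norm_le_pi_norm y i).trans hy
    have h4 : |x i - y i| ≤ ‖x - y‖ := norm_le_pi_norm (x - y) i
    have h5 : |x i + y i| ≤ 2 * R := (abs_add_le _ _).trans (by linarith)
    exact mul_le_mul h5 h4 (abs_nonneg _) ((abs_nonneg _).trans h5)
  refine (Finset.sum_le_sum h1).trans_eq ?_
  rw [Finset.sum_const, Finset.card_univ, nsmul_eq_mul]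
  ring

/-- The paraboloid coordinates at the point `c` with direction `ν`. -/
noncomputable def parab (c ν : ι → ℝ) (x : ι → ℝ) : ι → ℝ := (x - c) + (qf (x - c) / qf ν) • ν

theorem continuous_parab (c ν : ι → ℝ) : Continuous (parab c ν) := by
  unfold parab
  have h1 : Continuous (fun x : ι → ℝ => qf (x - c)) := continuous_qf.comp (by fun_prop)
  exact (continuous_id.sub continuous_const).add ((h1.div_const _).smul continuous_const)

theorem parab_self (c ν : ι → ℝ) : parab c ν c = 0 := by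
  unfold parab
  rw [sub_self, qf_zero, zero_div, zero_smul, add_zero]

theorem bf_parab {c ν : ι → ℝ} (hν : 0 < qf ν) (x : ι → ℝ) :
    bf (parab c ν x) ν = bf (x - c) ν + qf (x - c) := by
  unfold parab
  rw [bf_add_left, bf_smul_left, bf_self, div_mul_cancel₀ _ hν.ne']

theorem bf_parab_pos {c ν z : ι → ℝ} (hν : 0 < qf ν) (hz : ν = c - z) {x : ι → ℝ} (hx : x ≠ c)
    (h : qf ν ≤ qf (x - z)) : 0 < bf (parab c ν x) ν := by
  rw [bf_parab hν]
  have h1 : x - z = (x - c) + ν := by rw [hz]; abel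
  rw [h1, qf_add] at h
  have h2 : 0 < qf (x - c) := qf_pos (sub_ne_zero.mpr hx)
  linarith

theorem parab_sub {c ν : ι → ℝ} (hν : 0 < qf ν) {x y : ι → ℝ} {R : ℝ} (hx : ‖x - c‖ ≤ R)
    (hy : ‖y - c‖ ≤ R) : ‖(parab c ν x - parab c ν y) - (x - y)‖ ≤
      (2 * Fintype.card ι * R * ‖ν‖ / qf ν) * ‖x - y‖ := by
  unfold parab
  have e : (x - c + (qf (x - c) / qf ν) • ν - (y - c + (qf (y - c) / qf ν) • ν)) - (x - y) =
      ((qf (x - c) - qf (y - c)) / qf ν) • ν := by
    rw [sub_div, sub_smul]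
    abel
  rw [e, norm_smul, Real.norm_eq_abs, abs_div, abs_of_pos hν]
  have h1 := qf_sub_le hx hy
  have h2 : (x - c) - (y - c) = x - y := by abel
  rw [h2] at h1
  calc |qf (x - c) - qf (y - c)| / qf ν * ‖ν‖
      ≤ (2 * Fintype.card ι * R * ‖x - y‖) / qf ν * ‖ν‖ := by gcongr
    _ = _ := by ring

end Pool.Agent.Helper3.HS
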