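import Pool.Agent.Helper3.HS.Morrey

/-!
# Slices of a cube and the slice variation
-/

set_option autoImplicit false
set_option linter.unusedSectionVars false
set_option linter.unusedVariables false

open Set MeasureTheory Metric Filter Topology
open scoped NNReal ENNReal Function

namespace Pool.Agent.Helper3.HS

variable {d : ℕ}

/-- The point with `i`-th coordinate `t` and the other coordinates given by `w`. -/
def slc (i : Fin (d + 1)) (t : ℝ) (w : Fin d → ℝ) : Fin (d + 1) → ℝ :=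
  Fin.insertNth (α := fun _ => ℝ) i t w

theorem slc_same (i : Fin (d + 1)) (t : ℝ) (w : Fin d → ℝ) : slc i t w i = t := by
  simp [slc]

theorem slc_succAbove (i : Fin (d + 1)) (t : ℝ) (w : Fin d → ℝ) (k : Fin d) :
    slc i t w (i.succAbove k) = w k := by
  simp [slc]

theorem slc_removeNth (i : Fin (d + 1)) (x : Fin (d + 1) → ℝ) :
    slc i (x i) (fun k => x (i.succAbove k)) = x := by
  funext j
  rcases Fin.eq_self_or_eq_succAbove i j with rfl | ⟨k, rfl⟩
  · rw [slc_same]
  · rw [slc_succAbove]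

theorem continuous_slc (i : Fin (d + 1)) :
    Continuous (fun q : ℝ × (Fin d → ℝ) => slc i q.1 q.2) := by
  rw [continuous_pi_iff]
  intro j
  rcases Fin.eq_self_or_eq_succAbove i j with rfl | ⟨k, rfl⟩
  · simp_rw [slc_same]; exact continuous_fst
  · simp_rw [slc_succAbove]; exact (continuous_apply k).comp continuous_snd

theorem edist_slc (i : Fin (d + 1)) (t : ℝ) (w w' : Fin d → ℝ) :
    edist (slc i t w) (slc i t w') = edist w w' := by
  apply le_antisymm
  · rw [edist_pi_le_iff]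
    intro j
    rcases Fin.eq_self_or_eq_succAbove i j with rfl | ⟨k, rfl⟩
    · rw [slc_same, slc_same, edist_self]; exact zero_le
    · rw [slc_succAbove, slc_succAbove]; exact edist_le_pi_edist w w' k
  · rw [edist_pi_le_iff]
    intro k
    rw [← slc_succAbove i t w k, ← slc_succAbove i t w' k]
    exact edist_le_pi_edist _ _ _

/-- The lower corner of the slices of the cube. -/
def corner (u₀ : Fin (d + 1) → ℝ) (r : ℝ) (i : Fin (d + 1)) : Fin d → ℝ :=
  fun k => u₀ (i.succAbove k) - r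

/-- A cell of a slice. -/
def cell (l : Fin d → ℝ) (h : ℝ) (c : Fin d → ℕ) : Set (Fin d → ℝ) :=
  Icc (fun k => l k + h * c k) (fun k => l k + h * c k + h)

/-- The full slice. -/
def fullSlice (u₀ : Fin (d + 1) → ℝ) (r : ℝ) (i : Fin (d + 1)) : Set (Fin d → ℝ) :=
  Icc (corner u₀ r i) (fun k => corner u₀ r i k + 2 * r)

theorem slc_mem_closedBall {u₀ : Fin (d + 1) → ℝ} {r : ℝ} (hr : 0 < r) {i : Fin (d + 1)} {t : ℝ}
    (ht : t ∈ Icc (u₀ i - r) (u₀ i + r)) {w : Fin d → ℝ} (hw : w ∈ fullSlice u₀ r i) :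
    slc i t w ∈ closedBall u₀ r := by
  rw [mem_closedBall, dist_pi_le_iff hr.le]
  intro j
  rcases Fin.eq_self_or_eq_succAbove i j with rfl | ⟨k, rfl⟩
  · rw [slc_same, Real.dist_eq, abs_le]
    constructor <;> linarith [ht.1, ht.2]
  · rw [slc_succAbove, Real.dist_eq, abs_le]
    rw [fullSlice, mem_Icc, Pi.le_def, Pi.le_def] at hw
    have h1 := hw.1 k
    have h2 := hw.2 k
    unfold corner at h1 h2
    constructor <;> linarith

theorem mem_closedBall_coord {u₀ : Fin (d + 1) → ℝ} {r : ℝ} (hr : 0 < r) {x : Fin (d + 1) → ℝ}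
    (hx : x ∈ closedBall u₀ r) (i : Fin (d + 1)) : x i ∈ Icc (u₀ i - r) (u₀ i + r) := by
  rw [mem_closedBall, dist_pi_le_iff hr.le] at hx
  have := hx i
  rw [Real.dist_eq, abs_le] at this
  constructor <;> linarith

theorem mem_fullSlice_of_mem {u₀ : Fin (d + 1) → ℝ} {r : ℝ} (hr : 0 < r) {x : Fin (d + 1) → ℝ}
    (hx : x ∈ closedBall u₀ r) (i : Fin (d + 1)) :
    (fun k => x (i.succAbove k)) ∈ fullSlice u₀ r i := by
  rw [fullSlice, mem_Icc, Pi.le_def, Pi.le_def]
  constructor
  · intro k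
    have := (mem_closedBall_coord hr hx (i.succAbove k)).1
    unfold corner; linarith
  · intro k
    have := (mem_closedBall_coord hr hx (i.succAbove k)).2
    unfold corner; linarith

theorem cell_subset {u₀ : Fin (d + 1) → ℝ} {r : ℝ} (hr : 0 < r) (i : Fin (d + 1)) {N : ℕ}
    (hN : 0 < N) {c : Fin d → ℕ} (hc : ∀ k, c k < N) :
    cell (corner u₀ r i) (2 * r / N) c ⊆ fullSlice u₀ r i := by
  intro w hw
  rw [cell, mem_Icc, Pi.le_def, Pi.le_def] at hw
  rw [fullSlice, mem_Icc, Pi.le_def, Pi.le_def]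
  have hN' : (0 : ℝ) < N := by exact_mod_cast hN
  have hh : 0 < 2 * r / N := by positivity
  constructor
  · intro k
    have h1 := hw.1 k
    try simp only at h1
    have : 0 ≤ 2 * r / N * (c k : ℝ) := by positivity
    linarith
  · intro k
    have h2 := hw.2 k
    try simp only at h2 ⊢
    have h3 : (c k : ℝ) + 1 ≤ N := by exact_mod_cast hc k
    have h4 : 2 * r / N * ((c k : ℝ) + 1) ≤ 2 * r / N * N := by gcongr
    rw [div_mul_cancel₀ _ hN'.ne'] at h4
    linarith

theorem exists_cell {u₀ : Fin (d + 1) → ℝ} {r : ℝ} (hr : 0 < r) (i : Fin (d + 1)) {N : ℕ}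
    (hN : 0 < N) {w : Fin d → ℝ} (hw : w ∈ fullSlice u₀ r i) :
    ∃ c : Fin d → Fin N, w ∈ cell (corner u₀ r i) (2 * r / N) (fun k => (c k : ℕ)) := by
  rw [fullSlice, mem_Icc, Pi.le_def, Pi.le_def] at hw
  have hN' : (0 : ℝ) < N := by exact_mod_cast hN
  have hh : 0 < 2 * r / N := by positivity
  have key : ∀ k : Fin d, ∃ c : Fin N, corner u₀ r i k + 2 * r / N * (c : ℕ) ≤ w k ∧
      w k ≤ corner u₀ r i k + 2 * r / N * (c : ℕ) + 2 * r / N := by
    intro k
    have h1 := hw.1 k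
    have h2 := hw.2 k
    try simp only at h2
    set v := (w k - corner u₀ r i k) / (2 * r / N) with hv
    have hv0 : 0 ≤ v := div_nonneg (by linarith) hh.le
    have hvw : w k = corner u₀ r i k + 2 * r / N * v := by
      rw [hv, mul_div_cancel₀ _ hh.ne']; ring
    have hvN : v ≤ N := by
      rw [hv, div_le_iff₀ hh]
      have : (N : ℝ) * (2 * r / N) = 2 * r := by field_simp
      linarith
    by_cases hlt : v < N
    · refine ⟨⟨⌊v⌋₊, (Nat.floor_lt hv0).mpr hlt⟩, ?_, ?_⟩
      · simp only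
        have := Nat.floor_le hv0
        rw [hvw]
        gcongr
      · simp only
        have := (Nat.lt_floor_add_one v).le
        rw [hvw]
        have h5 : 2 * r / N * v ≤ 2 * r / N * ((⌊v⌋₊ : ℝ) + 1) := by gcongr
        linarith
    · have hvN' : v = N := le_antisymm hvN (not_lt.mp hlt)
      refine ⟨⟨N - 1, by omega⟩, ?_, ?_⟩
      · simp only
        rw [hvw, hvN', Nat.cast_sub (by omega)]
        push_cast
        nlinarith
      · simp only
        rw [hvw, hvN', Nat.cast_sub (by omega)]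
        push_cast
        linarith
  choose c hc using key
  refine ⟨c, ?_⟩
  rw [cell, mem_Icc, Pi.le_def, Pi.le_def]
  exact ⟨fun k => (hc k).1, fun k => (hc k).2⟩

/-- The cells do not overlap, up to null sets. -/
theorem sum_cell_le {u₀ : Fin (d + 1) → ℝ} {r : ℝ} (hr : 0 < r) (i : Fin (d + 1)) {N : ℕ}
    (hN : 0 < N) (g : (Fin d → ℝ) → ℝ≥0∞) :
    ∑ c : Fin d → Fin N, ∫⁻ w in cell (corner u₀ r i) (2 * r / N) (fun k => (c k : ℕ)), g w ≤
      ∫⁻ w in fullSlice u₀ r i, g w := by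
  have hN' : (0 : ℝ) < N := by exact_mod_cast hN
  have hh : 0 < 2 * r / N := by positivity
  set ico : (Fin d → Fin N) → Set (Fin d → ℝ) := fun c =>
    pi univ fun k => Ico (corner u₀ r i k + 2 * r / N * ((c k : ℕ) : ℝ))
      (corner u₀ r i k + 2 * r / N * ((c k : ℕ) : ℝ) + 2 * r / N) with hico
  have h1 : ∀ c : Fin d → Fin N,
      ∫⁻ w in cell (corner u₀ r i) (2 * r / N) (fun k => (c k : ℕ)), g w =
        ∫⁻ w in ico c, g w := by
    intro c
    apply setLIntegral_congr
    exact (Measure.univ_pi_Ico_ae_eq_Icc (μ := fun _ : Fin d => (volume : Measure ℝ))).symm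
  rw [Finset.sum_congr rfl (fun c _ => h1 c)]
  have hmeas : ∀ c, MeasurableSet (ico c) := fun c =>
    MeasurableSet.univ_pi fun k => measurableSet_Ico
  have hdisj : Pairwise (Disjoint on ico) := by
    intro c c' hcc'
    rw [Function.onFun, Set.disjoint_left]
    intro w hw hw'
    apply hcc'
    funext k
    have a1 := hw k (mem_univ k)
    have a2 := hw' k (mem_univ k)
    rw [mem_Ico] at a1 a2
    apply Fin.ext
    have b1 : 2 * r / N * ((c k : ℕ) : ℝ) < 2 * r / N * (((c' k : ℕ) : ℝ) + 1) := by linarith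
    have b2 : 2 * r / N * ((c' k : ℕ) : ℝ) < 2 * r / N * (((c k : ℕ) : ℝ) + 1) := by linarith
    have b3 : ((c k : ℕ) : ℝ) < ((c' k : ℕ) : ℝ) + 1 := lt_of_mul_lt_mul_left b1 hh.le
    have b4 : ((c' k : ℕ) : ℝ) < ((c k : ℕ) : ℝ) + 1 := lt_of_mul_lt_mul_left b2 hh.le
    have b5 : (c k : ℕ) < (c' k : ℕ) + 1 := by exact_mod_cast b3
    have b6 : (c' k : ℕ) < (c k : ℕ) + 1 := by exact_mod_cast b4
    omega
  have h2 : ∑ c : Fin d → Fin N, ∫⁻ w in ico c, g w = ∫⁻ w in ⋃ c, ico c, g w := by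
    rw [lintegral_iUnion hmeas hdisj, tsum_fintype]
  rw [h2]
  apply lintegral_mono_set
  apply iUnion_subset
  intro c w hw
  apply cell_subset hr i hN (c := fun k => (c k : ℕ)) (fun k => (c k).2)
  rw [cell, mem_Icc, Pi.le_def, Pi.le_def]
  exact ⟨fun k => (hw k (mem_univ k)).1, fun k => (hw k (mem_univ k)).2.le⟩

/-- Fubini for the slices. -/
theorem lintegral_slices {u₀ : Fin (d + 1) → ℝ} {r : ℝ} (hr : 0 < r) (i : Fin (d + 1))
    {g : (Fin (d + 1) → ℝ) → ℝ≥0∞} (hg : Measurable g) :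
    ∫⁻ t in Icc (u₀ i - r) (u₀ i + r), ∫⁻ w in fullSlice u₀ r i, g (slc i t w) ≤
      ∫⁻ x in closedBall u₀ r, g x := by
  set e : ℝ × (Fin d → ℝ) ≃ᵐ (Fin (d + 1) → ℝ) :=
    (MeasurableEquiv.piFinSuccAbove (fun _ => ℝ) i).symm with he
  have hme : MeasurePreserving e := (volume_preserving_piFinSuccAbove (fun _ : Fin (d + 1) => ℝ) i).symm _
  have hes : ∀ q : ℝ × (Fin d → ℝ), e q = slc i q.1 q.2 := fun q => rfl
  have hslm : Measurable (fun q : ℝ × (Fin d → ℝ) => slc i q.1 q.2) := (continuous_slc i).measurable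
  have h1 : ∫⁻ t in Icc (u₀ i - r) (u₀ i + r), ∫⁻ w in fullSlice u₀ r i, g (slc i t w) =
      ∫⁻ q in Icc (u₀ i - r) (u₀ i + r) ×ˢ fullSlice u₀ r i, g (e q) := by
    rw [Measure.volume_eq_prod, ← Measure.prod_restrict, lintegral_prod]
    · rfl
    · exact (hg.comp e.measurable).aemeasurable
  rw [h1]
  have h2 : ∫⁻ x in closedBall u₀ r, g x = ∫⁻ q in e ⁻¹' (closedBall u₀ r), g (e q) := by
    rw [← hme.setLIntegral_comp_preimage measurableSet_closedBall hg]
  rw [h2]
  apply lintegral_mono_set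
  intro q hq
  rw [mem_preimage, hes]
  exact slc_mem_closedBall hr hq.1 hq.2

/-- The diameter of the image of a cell. -/
noncomputable def cellDiam (f : (Fin (d + 1) → ℝ) → (Fin (d + 1) → ℝ)) (u₀ : Fin (d + 1) → ℝ)
    (r : ℝ) (N : ℕ) (i : Fin (d + 1)) (t : ℝ) (c : Fin d → ℕ) : ℝ≥0∞ :=
  Metric.ediam ((fun w => f (slc i t w)) '' cell (corner u₀ r i) (2 * r / N) c)

/-- The slice variation. -/
noncomputable def SV (f : (Fin (d + 1) → ℝ) → (Fin (d + 1) → ℝ)) (u₀ : Fin (d + 1) → ℝ) (r : ℝ)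
    (N : ℕ) : ℝ≥0∞ :=
  ∑ i, ∫⁻ t in Icc (u₀ i - r) (u₀ i + r),
    ∑ c : Fin d → Fin N, cellDiam f u₀ r N i t (fun k => (c k : ℕ)) ^ (d + 1)

theorem SV_hajlasz {u₀ : Fin (d + 1) → ℝ} {r : ℝ} (hr : 0 < r) {α s : ℝ} (hα0 : 0 < α)
    (hs : 0 < s) (hαs : (d : ℝ) < α * s) (hsn : s ≤ d + 1)
    {f : (Fin (d + 1) → ℝ) → (Fin (d + 1) → ℝ)} (hf : ContinuousOn f (closedBall u₀ r))
    {ρ : (Fin (d + 1) → ℝ) → ℝ≥0∞} (hρ : Measurable ρ)
    (hfρ : ∀ x ∈ closedBall u₀ r, ∀ z ∈ closedBall u₀ r,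
      edist (f x) (f z) ≤ edist x z ^ α * (ρ x + ρ z)) {N : ℕ} (hN : 0 < N) :
    SV f u₀ r N ≤ (d + 1) * (Metric.ediam (f '' closedBall u₀ r) ^ ((d + 1 : ℝ) - s) *
      (ENNReal.ofReal (morreyC d α s) * ENNReal.ofReal ((2 * r / N) ^ (α * s - d)) *
        ∫⁻ x in closedBall u₀ r, ρ x ^ s)) := by
  have hN' : (0 : ℝ) < N := by exact_mod_cast hN
  have hh : 0 < 2 * r / N := by positivity
  set D := Metric.ediam (f '' closedBall u₀ r) with hD
  have hsm : ∀ i, Measurable (fun q : ℝ × (Fin d → ℝ) => slc i q.1 q.2) := fun i =>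
    (continuous_slc i).measurable
  unfold SV
  have key : ∀ i : Fin (d + 1), ∫⁻ t in Icc (u₀ i - r) (u₀ i + r),
      ∑ c : Fin d → Fin N, cellDiam f u₀ r N i t (fun k => (c k : ℕ)) ^ (d + 1) ≤
      D ^ ((d + 1 : ℝ) - s) * (ENNReal.ofReal (morreyC d α s) *
        ENNReal.ofReal ((2 * r / N) ^ (α * s - d)) * ∫⁻ x in closedBall u₀ r, ρ x ^ s) := by
    intro i
    have hpt : ∀ t ∈ Icc (u₀ i - r) (u₀ i + r),
        ∑ c : Fin d → Fin N, cellDiam f u₀ r N i t (fun k => (c k : ℕ)) ^ (d + 1) ≤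
        D ^ ((d + 1 : ℝ) - s) * (ENNReal.ofReal (morreyC d α s) *
          ENNReal.ofReal ((2 * r / N) ^ (α * s - d))) *
          ∫⁻ w in fullSlice u₀ r i, ρ (slc i t w) ^ s := by
      intro t ht
      have hcell : ∀ c : Fin d → Fin N, cellDiam f u₀ r N i t (fun k => (c k : ℕ)) ^ (d + 1) ≤
          D ^ ((d + 1 : ℝ) - s) * (ENNReal.ofReal (morreyC d α s) *
          ENNReal.ofReal ((2 * r / N) ^ (α * s - d))) *
          ∫⁻ w in cell (corner u₀ r i) (2 * r / N) (fun k => (c k : ℕ)), ρ (slc i t w) ^ s := by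
        intro c
        set x := cellDiam f u₀ r N i t (fun k => (c k : ℕ)) with hx
        have hsub : cell (corner u₀ r i) (2 * r / N) (fun k => (c k : ℕ)) ⊆ fullSlice u₀ r i :=
          cell_subset hr i hN (fun k => (c k).2)
        have hxD : x ≤ D := by
          apply Metric.ediam_mono
          rintro _ ⟨w, hw, rfl⟩
          exact ⟨_, slc_mem_closedBall hr ht (hsub hw), rfl⟩
        have hmor : x ^ s ≤ ENNReal.ofReal (morreyC d α s) *
            ENNReal.ofReal ((2 * r / N) ^ (α * s - d)) *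
            ∫⁻ w in cell (corner u₀ r i) (2 * r / N) (fun k => (c k : ℕ)),
              ρ (slc i t w) ^ s := by
          apply morrey (a := fun k => corner u₀ r i k + 2 * r / N * ((c k : ℕ) : ℝ)) hh hα0 hs
            hαs (f := fun w => f (slc i t w)) (ρ := fun w => ρ (slc i t w))
          · apply hf.comp
            · exact ((continuous_slc i).comp (continuous_const.prodMk continuous_id)).continuousOn
            · intro w hw
              exact slc_mem_closedBall hr ht (hsub hw)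
          · exact hρ.comp ((hsm i).comp (measurable_const.prodMk measurable_id))
          · intro w hw w' hw'
            have := hfρ _ (slc_mem_closedBall hr ht (hsub hw)) _
              (slc_mem_closedBall hr ht (hsub hw'))
            rwa [edist_slc] at this
        have hpow : x ^ (d + 1) = x ^ ((d + 1 : ℝ) - s) * x ^ s := by
          rw [← ENNReal.rpow_add_of_nonneg _ _ (by linarith) hs.le, sub_add_cancel]
          have : ((d : ℝ) + 1) = ((d + 1 : ℕ) : ℝ) := by push_cast; ring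
          rw [this, ENNReal.rpow_natCast]
        rw [hpow, mul_assoc]
        apply mul_le_mul'
        · exact ENNReal.rpow_le_rpow hxD (by linarith)
        · exact hmor
      refine (Finset.sum_le_sum fun c _ => hcell c).trans ?_
      rw [← Finset.mul_sum]
      gcongr
      exact sum_cell_le hr i hN _
    calc ∫⁻ t in Icc (u₀ i - r) (u₀ i + r),
        ∑ c : Fin d → Fin N, cellDiam f u₀ r N i t (fun k => (c k : ℕ)) ^ (d + 1)
        ≤ ∫⁻ t in Icc (u₀ i - r) (u₀ i + r), D ^ ((d + 1 : ℝ) - s) *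
          (ENNReal.ofReal (morreyC d α s) * ENNReal.ofReal ((2 * r / N) ^ (α * s - d))) *
          ∫⁻ w in fullSlice u₀ r i, ρ (slc i t w) ^ s :=
          setLIntegral_mono' measurableSet_Icc hpt
      _ = D ^ ((d + 1 : ℝ) - s) *
          (ENNReal.ofReal (morreyC d α s) * ENNReal.ofReal ((2 * r / N) ^ (α * s - d))) *
          ∫⁻ t in Icc (u₀ i - r) (u₀ i + r), ∫⁻ w in fullSlice u₀ r i, ρ (slc i t w) ^ s := by
          rw [lintegral_const_mul]
          have : Measurable (fun q : ℝ × (Fin d → ℝ) => ρ (slc i q.1 q.2) ^ s) :=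
            (hρ.comp (hsm i)).pow_const s
          exact this.lintegral_prod_right'
      _ ≤ _ := by
          rw [← mul_assoc, ← mul_assoc]
          rw [← mul_assoc]
          gcongr
          exact lintegral_slices hr i (hρ.pow_const s)
  refine (Finset.sum_le_sum fun i _ => key i).trans ?_
  rw [Finset.sum_const, Finset.card_univ, Fintype.card_fin, nsmul_eq_mul]
  push_cast
  exact le_rfl

end Pool.Agent.Helper3.HS
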