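import Pool.Agent.Helper3.HS.AvgFibre
import Pool.Agent.Helper3.HS.ChartAct
import Pool.Agent.Helper3.HS.Pull
import Pool.Agent.Helper3.HS.Parab

/-!
# Unique continuation: the core
-/

set_option autoImplicit false
set_option linter.unusedSectionVars false
set_option linter.unusedVariables false

open Set MeasureTheory Metric Filter Topology
open scoped NNReal ENNReal

namespace Pool.Agent.Helper3.HS

variable {d : ℕ} {X : Type*} [MetricSpace X] {G : Type*} [Group G] [TopologicalSpace G]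
  [MulAction G X] [ContinuousSMul G X] {p : ℕ} [hp : Fact p.Prime]

/-- The linear functional `x ↦ ⟨x, ν⟩`. -/
noncomputable def bfL {ι : Type*} [Fintype ι] (ν : ι → ℝ) : (ι → ℝ) →L[ℝ] ℝ :=
  ∑ i, (ν i) • (ContinuousLinearMap.proj i : (ι → ℝ) →L[ℝ] ℝ)

theorem bfL_apply {ι : Type*} [Fintype ι] (ν x : ι → ℝ) : bfL ν x = bf x ν := by
  unfold bfL bf
  rw [ContinuousLinearMap.sum_apply]
  apply Finset.sum_congr rfl
  intro i _
  simp [mul_comm]

theorem uc_core {e : OpenPartialHomeomorph X (Fin (d + 1) → ℝ)}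
    {θ : Multiplicative ℤ_[p] →* G} {c ν : Fin (d + 1) → ℝ} {σ : ℝ} (hθ : Continuous θ)
    (hσ : 0 < σ) (hB : closedBall c σ ⊆ e.target)
    (hsrc : ∀ a : ℤ_[p], ∀ u ∈ closedBall c σ, θ (Multiplicative.ofAdd a) • e.symm u ∈ e.source)
    {K : ℝ≥0∞} (hK : K ≠ ∞) {ε : ℝ} (hε : 0 < ε)
    (hSV : ∀ a, ∀ N : ℕ, 0 < N → SV (act e θ a) c σ N ≤ K * ENNReal.ofReal ((N : ℝ) ^ (-ε)))
    (hfix : ∀ a, act e θ a c = c) (hν : 0 < qf ν)
    (hsmall : 2 * Fintype.card (Fin (d + 1)) * σ * ‖ν‖ / qf ν ≤ 1 / 2)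
    (hpos : ∀ u ∈ closedBall c σ, (∃ a, act e θ a u ≠ u) →
      ∀ a, 0 < bf (parab c ν (act e θ a u)) ν)
    (hmov : ∀ δ > 0, ∃ u ∈ ball c δ, ∃ a, act e θ a u ≠ u) : False := by
  set φ := parab c ν with hφ
  have hφc : Continuous φ := continuous_parab c ν
  have hφ0 : φ c = 0 := parab_self c ν
  -- the two-sided Lipschitz bound on the small ball
  have hφl : ∀ u ∈ closedBall c σ, ∀ v ∈ closedBall c σ,
      ‖(φ u - φ v) - (u - v)‖ ≤ 1 / 2 * ‖u - v‖ := by
    intro u hu v hv
    rw [mem_closedBall, dist_eq_norm] at hu hv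
    exact (parab_sub hν hu hv).trans (mul_le_mul_of_nonneg_right hsmall (norm_nonneg _))
  have hφi : ∀ u ∈ closedBall c σ, ∀ v ∈ closedBall c σ, ‖u - v‖ ≤ 2 * ‖φ u - φ v‖ := by
    intro u hu v hv
    have h1 := hφl u hu v hv
    have h2 : ‖u - v‖ ≤ ‖φ u - φ v‖ + ‖(φ u - φ v) - (u - v)‖ := by
      have h3 : u - v = (φ u - φ v) - ((φ u - φ v) - (u - v)) := by abel
      calc ‖u - v‖ = ‖(φ u - φ v) - ((φ u - φ v) - (u - v))‖ := by rw [← h3]
        _ ≤ _ := norm_sub_le _ _
    linarith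
  -- the averaged map
  set Γ : ℤ_[p] → (Fin (d + 1) → ℝ) → (Fin (d + 1) → ℝ) := fun a u =>
    φ (act e θ a (clamp c σ u)) with hΓ
  have hact : ContinuousOn (fun q : ℤ_[p] × (Fin (d + 1) → ℝ) => act e θ q.1 q.2)
      (univ ×ˢ closedBall c σ) := act_continuousOn hθ hB hsrc
  have hΓc : Continuous (fun q : ℤ_[p] × (Fin (d + 1) → ℝ) => Γ q.1 q.2) := by
    apply hφc.comp
    exact hact.comp_continuous (f := fun q : ℤ_[p] × (Fin (d + 1) → ℝ) => (q.1, clamp c σ q.2))
      (continuous_fst.prodMk ((continuous_clamp c σ).comp continuous_snd))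
      (fun q => ⟨mem_univ _, clamp_mem hσ _⟩)
  -- a bounded set that contains everything
  obtain ⟨R, hR⟩ : ∃ R, ∀ a, ∀ u ∈ closedBall c σ, ‖act e θ a u - c‖ ≤ R := by
    have h1 : IsCompact ((fun q : ℤ_[p] × (Fin (d + 1) → ℝ) => act e θ q.1 q.2) ''
        (univ ×ˢ closedBall c σ)) :=
      (isCompact_univ.prod (isCompact_closedBall _ _)).image_of_continuousOn hact
    obtain ⟨R, hR⟩ := h1.isBounded.subset_closedBall c
    refine ⟨R, fun a u hu => ?_⟩
    have := hR ⟨(a, u), ⟨mem_univ _, hu⟩, rfl⟩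
    rwa [mem_closedBall, dist_eq_norm] at this
  have hR0 : 0 ≤ R := (norm_nonneg _).trans (hR 0 c (mem_closedBall_self hσ.le))
  set L : ℝ := 1 + 2 * Fintype.card (Fin (d + 1)) * R * ‖ν‖ / qf ν with hL
  have hL0 : 0 ≤ L := by positivity
  have hφL : ∀ a, LipschitzOnWith (Real.toNNReal L) φ (act e θ a '' closedBall c σ) := by
    intro a
    apply LipschitzOnWith.of_dist_le_mul
    rintro _ ⟨u, hu, rfl⟩ _ ⟨v, hv, rfl⟩
    rw [Real.coe_toNNReal L hL0, dist_eq_norm, dist_eq_norm]
    have h1 := parab_sub hν (hR a u hu) (hR a v hv)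
    have h2 : ‖φ (act e θ a u) - φ (act e θ a v)‖ ≤
        ‖(φ (act e θ a u) - φ (act e θ a v)) - (act e θ a u - act e θ a v)‖ +
          ‖act e θ a u - act e θ a v‖ := by
      have := norm_add_le ((φ (act e θ a u) - φ (act e θ a v)) - (act e θ a u - act e θ a v))
        (act e θ a u - act e θ a v)
      rwa [sub_add_cancel] at this
    rw [hL, add_mul, one_mul]
    linarith
  have hΓSV : ∀ a, ∀ N : ℕ, 0 < N → SV (Γ a) c σ N ≤
      (((Real.toNNReal L : ℝ≥0) : ℝ≥0∞) ^ (d + 1) * K) * ENNReal.ofReal ((N : ℝ) ^ (-ε)) := by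
    intro a N hN
    have h4 : SV (Γ a) c σ N = SV (fun u => φ (act e θ a u)) c σ N := by
      apply SV_congr hσ hN
      intro u hu
      rw [hΓ]
      simp only
      rw [clamp_of_mem hσ hu]
    rw [h4, mul_assoc]
    exact (SV_lipschitz hσ hN (hφL a)).trans (mul_le_mul' le_rfl (hSV a N hN))
  obtain ⟨F, hFc, ⟨Z, hZ, hZtd⟩, hFinv, hFclose, hFpos⟩ := avg_fibre hΓc hσ
    (ENNReal.mul_ne_top (ENNReal.pow_ne_top ENNReal.coe_ne_top) hK) hε hΓSV
  -- the invariant set
  set U := invSet e θ c σ with hU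
  have hUo : IsOpen U := invSet_isOpen hθ hB hsrc
  have hUQ : U ⊆ ball c σ := fun u hu => hu.1
  have hUb : Bornology.IsBounded U := isBounded_ball.subset hUQ
  have hUcl : closure U ⊆ closedBall c σ :=
    closure_minimal (hUQ.trans ball_subset_closedBall) isClosed_closedBall
  have hcU : c ∈ U := ⟨mem_ball_self hσ, fun a => by rw [hfix a]; exact mem_ball_self hσ⟩
  have hcB : c ∈ closedBall c σ := mem_closedBall_self hσ.le
  have hFfix : ∀ u ∈ closedBall c σ, (∀ a, act e θ a u = u) → F u = φ u := by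
    intro u hu hfu
    have h4 : dist (F u) (φ u) ≤ 0 := by
      apply hFclose
      intro a
      rw [hΓ]
      simp only
      rw [clamp_of_mem hσ hu, hfu a, dist_self]
    exact dist_le_zero.mp h4
  have hFact : ∀ a, ∀ u ∈ U, F (act e θ a u) = F u := by
    intro b u hu
    apply hFinv u (act e θ b u) b
    intro a
    rw [hΓ]
    simp only
    have hub : act e θ b u ∈ closedBall c σ := ball_subset_closedBall (hu.2 b)
    have huc : u ∈ closedBall c σ := ball_subset_closedBall hu.1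
    rw [clamp_of_mem hσ hub, clamp_of_mem hσ huc, act_add hsrc a b huc]
  have hfr : ∀ u ∈ frontier U, u ∈ closedBall c σ ∧ u ≠ c := by
    intro u hu
    refine ⟨hUcl (frontier_subset_closure hu), fun hub => ?_⟩
    rw [hUo.frontier_eq] at hu
    exact hu.2 (hub ▸ hcU)
  -- the degree of `φ`
  have hdeg₁ : HasDeg volume U φ 0 1 := by
    apply HasDeg.homotopy volume hUo hUb continuousOn_id hφc.continuousOn
      (HasDeg.id volume hUo hUb hcU)
    intro u hu t ht heq
    obtain ⟨huB, huc⟩ := hfr u hu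
    have h1 := hφl u huB c hcB
    rw [hφ0] at h1
    have h2 : (u - c) = -(t • ((φ u - 0) - (u - c))) := by
      have : (1 - t) • (u - c) + t • (φ u - 0) = (u - c) + t • ((φ u - 0) - (u - c)) := by module
      simp only [id] at heq
      rw [this] at heq
      exact eq_neg_of_add_eq_zero_left heq
    have h3 : ‖u - c‖ ≤ 1 / 2 * ‖u - c‖ := by
      calc ‖u - c‖ = ‖t • ((φ u - 0) - (u - c))‖ := by
            conv_lhs => rw [h2]
            rw [norm_neg]
        _ = t * ‖(φ u - 0) - (u - c)‖ := by rw [norm_smul, Real.norm_of_nonneg ht.1]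
        _ ≤ 1 * ‖(φ u - 0) - (u - c)‖ := mul_le_mul_of_nonneg_right ht.2 (norm_nonneg _)
        _ ≤ 1 / 2 * ‖u - c‖ := by rw [one_mul]; exact h1
    have h4 : 0 < ‖u - c‖ := norm_pos_iff.mpr (sub_ne_zero.mpr huc)
    linarith
  have hdeg₀ : HasDeg volume U F 0 1 := by
    apply HasDeg.homotopy volume hUo hUb hφc.continuousOn hFc.continuousOn hdeg₁
    intro u hu t ht heq
    obtain ⟨huB, huc⟩ := hfr u hu
    rw [sub_zero, sub_zero] at heq
    by_cases hfu : ∀ a, act e θ a u = u
    · rw [hFfix u huB hfu, ← add_smul, sub_add_cancel, one_smul] at heq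
      have h1 := hφi u huB c hcB
      rw [heq, hφ0, sub_zero, norm_zero, mul_zero] at h1
      exact huc (sub_eq_zero.mp (norm_le_zero_iff.mp h1))
    · push Not at hfu
      have h1 := hpos u huB hfu
      have h2 : 0 < bfL ν (F u) := by
        apply hFpos
        intro a
        rw [hΓ]
        simp only
        rw [clamp_of_mem hσ huB, bfL_apply]
        exact h1 a
      have h3 : 0 < bfL ν (φ u) := by
        rw [bfL_apply]
        have := h1 0
        rwa [act_zero hB huB] at this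
      have h4 : bfL ν ((1 - t) • φ u + t • F u) = 0 := by rw [heq, map_zero]
      rw [map_add, map_smul, map_smul, smul_eq_mul, smul_eq_mul] at h4
      rcases eq_or_lt_of_le ht.1 with h5 | h5
      · rw [← h5] at h4
        linarith
      · have h6 : 0 < t * bfL ν (F u) := mul_pos h5 h2
        have h7 : 0 ≤ (1 - t) * bfL ν (φ u) := mul_nonneg (by linarith [ht.2]) h3.le
        linarith
  -- the choice of the point
  have hev : ∀ᶠ u in 𝓝 c, HasDeg volume U F (φ u) 1 ∧ u ∈ U := by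
    have h1 := HasDeg.nhds volume hUo hUb hFc.continuousOn hdeg₀
    rw [← hφ0] at h1
    exact ((hφc.tendsto c).eventually h1).and (hUo.mem_nhds hcU)
  obtain ⟨δ, hδ, hδU⟩ := Metric.eventually_nhds_iff_ball.mp hev
  set M : Set (Fin (d + 1) → ℝ) := ball c δ ∩ {u | ∃ a, act e θ a u ≠ u} with hM
  have hMU : M ⊆ U := fun u hu => (hδU u hu.1).2
  have hMB : M ⊆ closedBall c σ := hMU.trans (hUQ.trans ball_subset_closedBall)
  have hMo : IsOpen M := by
    have h4 : M = ⋃ a : ℤ_[p], (ball c δ ∩ (fun u => act e θ a u - u) ⁻¹' {0}ᶜ) := by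
      ext u
      simp only [hM, mem_inter_iff, mem_iUnion, mem_preimage, mem_compl_iff, mem_singleton_iff,
        sub_eq_zero]
      constructor
      · rintro ⟨h5, a, ha⟩; exact ⟨a, h5, ha⟩
      · rintro ⟨a, h5, ha⟩; exact ⟨h5, a, ha⟩
    rw [h4]
    apply isOpen_iUnion
    intro a
    apply ContinuousOn.isOpen_inter_preimage _ isOpen_ball isOpen_compl_singleton
    have h5 : Continuous (fun x : Fin (d + 1) → ℝ => ((a, x) : ℤ_[p] × (Fin (d + 1) → ℝ))) := by
      fun_prop
    have h6 : ContinuousOn (fun u => act e θ a u) (closedBall c σ) :=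
      hact.comp h5.continuousOn (fun x hx => ⟨mem_univ _, hx⟩)
    exact (h6.sub continuousOn_id).mono
      (fun u hu => ball_subset_closedBall (hUQ (hδU u hu).2))
  obtain ⟨u₁, hu₁, hu₁'⟩ := hmov δ hδ
  have hMne : u₁ ∈ M := ⟨hu₁, hu₁'⟩
  have hMpos : 0 < volume M := hMo.measure_pos volume ⟨_, hMne⟩
  obtain ⟨u', hu', hyZ⟩ : ∃ u' ∈ M, φ u' ∉ Z := by
    by_contra hcon
    push Not at hcon
    have h3 : volume (φ '' M) = 0 := by
      have : φ '' M ⊆ Z := by
        rintro _ ⟨u, hu, rfl⟩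
        exact hcon u hu
      exact measure_mono_null this hZ
    have hinj : InjOn φ M := by
      intro u hu v hv huv
      have h4 := hφi u (hMB hu) v (hMB hv)
      rw [huv, sub_self, norm_zero, mul_zero] at h4
      exact sub_eq_zero.mp (norm_le_zero_iff.mp h4)
    have h4 : LipschitzOnWith 2 (Function.invFunOn φ M) (φ '' M) := by
      apply LipschitzOnWith.of_dist_le_mul
      rintro _ ⟨u, hu, rfl⟩ _ ⟨v, hv, rfl⟩
      rw [hinj.leftInvOn_invFunOn hu, hinj.leftInvOn_invFunOn hv, dist_eq_norm, dist_eq_norm]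
      exact_mod_cast hφi u (hMB hu) v (hMB hv)
    have h5 := h4.hausdorffMeasure_image_le (d := ((d + 1 : ℕ) : ℝ)) (by positivity)
    rw [hausdorff_eq_volume, h3, mul_zero, image_image] at h5
    have h6 : (fun x => Function.invFunOn φ M (φ x)) '' M = M := by
      have : EqOn (fun x => Function.invFunOn φ M (φ x)) id M := fun x hx =>
        hinj.leftInvOn_invFunOn hx
      rw [this.image_eq, image_id]
    rw [h6] at h5
    exact absurd h5 (not_le.mpr hMpos)
  have hdeg : HasDeg volume U F (φ u') 1 := (hδU u' hu'.1).1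
  obtain ⟨k, hk⟩ := core_chart hθ hσ hB hsrc hFc.continuousOn hFact hdeg.ne
    (fun t ht hpre => hZtd _ hyZ t (ht.trans
      (fun u hu => ⟨ball_subset_closedBall (hUQ hu.1), hu.2⟩)) hpre)
    (by
      intro u hu heq
      by_contra hcon
      push Not at hcon
      have huc : u ∈ closedBall c σ := ball_subset_closedBall hu.1
      rw [hFfix u huc hcon] at heq
      have h4 := hφi u huc u' (hMB hu')
      rw [heq, sub_self, norm_zero, mul_zero] at h4
      have h5 : u = u' := sub_eq_zero.mp (norm_le_zero_iff.mp h4)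
      rw [h5] at hcon
      obtain ⟨a, ha⟩ := hu'.2
      exact ha (hcon a)) hdeg
  have hp2 := hp.out.two_le
  have h3 : (1 : ℤ) = p * k := by exact_mod_cast hk
  have h4 : (p : ℤ) ∣ 1 := ⟨k, h3⟩
  have h5 := Int.le_of_dvd one_pos h4
  omega

end Pool.Agent.Helper3.HS
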